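import Pool.Agent.H36.GM.Ba
import Pool.Agent.H36.GM.Bb
import Pool.Agent.H36.GM.Kc
import Pool.Agent.H76.OD.Ch

/-!
MP_78d38b_MQ (helper36): places of degree one of a Galois extension.
-/

set_option autoImplicit false
set_option linter.unusedSectionVars false
open scoped Classical

open WithZero NumberField IsDedekindDomain H38RT
open H38T1 (SC sc scu rep eo la si OddP)
open H76PP (Cub LC ev scm dn)
open H30ZO (HH nb)
open H88OD H26OD H76GM H36GM

namespace H36MQ

section

variable {F E : Type} [Field F] [NumberField F] [Field E] [NumberField E]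

/-- The Legendre class of the place below a place of degree one. -/
theorem la_deg1 {f : F →+* E} {W : HeightOneSpectrum (𝓞 E)}
    (hdeg : ∀ x : 𝓞 E, ∃ n : 𝓞 F, im f n - x ∈ W.asIdeal) (h2 : (2 : 𝓞 E) ∉ W.asIdeal) {d : 𝓞 F}
    (hd : im f d ∉ W.asIdeal) : la (below f W) (sc (d : F)) = la W (sc (f (d : F))) := by
  have h2' : (2 : 𝓞 F) ∉ (below f W).asIdeal := by
    intro h
    apply h2
    have h5 := (mem_below' f W 2).1 h
    rwa [map_ofNat] at h5
  have hd' : d ∉ (below f W).asIdeal := fun h => hd ((mem_below' f W d).1 h)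
  have e1 := H30MQ.la_iff (H30MQ.oddP_of h2') hd'
  have e2 := H30MQ.la_iff (H30MQ.oddP_of h2) hd
  have e3 : ((im f d : 𝓞 E) : E) = f (d : F) := rfl
  rw [e3] at e2
  have e4 : la (below f W) (sc (d : F)) = 0 ↔ la W (sc (f (d : F))) = 0 := by
    rw [e1, e2]
    constructor
    · rintro ⟨a, ha⟩
      refine ⟨im f a, ?_⟩
      have h := (mem_below' f W _).1 ha
      rwa [map_sub, map_pow] at h
    · rintro ⟨b, hb⟩
      obtain ⟨a, ha⟩ := hdeg b
      refine ⟨a, ?_⟩
      rw [mem_below', map_sub, map_pow]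
      have h : im f d - im f a ^ 2 = (im f d - b ^ 2) - (im f a - b) * (im f a + b) := by ring
      rw [h]
      exact sub_mem hb (Ideal.mul_mem_right _ _ ha)
  have h01 : ∀ x y : ZMod 2, (x = 0 ↔ y = 0) → x = y := by decide
  exact h01 _ _ e4

end

section

variable {K L N2 : Type} [Field K] [NumberField K] [Field L] [NumberField L] [Field N2]
  [NumberField N2] [Algebra K L] [Algebra K N2]

private theorem Cb_mem {F E : Type} [Field F] [NumberField F] [Field E] [NumberField E]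
    (f : F →+* E) (W : HeightOneSpectrum (𝓞 E)) (x : 𝓞 F) :
    x ∈ (below f W).asIdeal ↔ RingOfIntegers.mapRingHom f x ∈ W.asIdeal := Iff.rfl

private theorem Cb_memA {F E : Type} [Field F] [NumberField F] [Field E] [NumberField E]
    [Algebra F E] (W : HeightOneSpectrum (𝓞 E)) (x : 𝓞 F) :
    x ∈ (dn F W).asIdeal ↔ algebraMap (𝓞 F) (𝓞 E) x ∈ W.asIdeal := Iff.rfl

open scoped Pointwise in
private theorem Cb_conj {K N : Type} [Field K] [NumberField K] [Field N] [NumberField N]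
    [Algebra K N] [IsGalois K N]
    {W W' : HeightOneSpectrum (𝓞 N)} (h : dn K W' = dn K W) :
    ∃ g : N ≃ₐ[K] N, ∀ x : 𝓞 N, x ∈ W'.asIdeal ↔ g • x ∈ W.asIdeal := by
  have hp : (dn K W).asIdeal = W.asIdeal.comap (algebraMap (𝓞 K) (𝓞 N)) := rfl
  have hp' : (dn K W).asIdeal = W'.asIdeal.comap (algebraMap (𝓞 K) (𝓞 N)) := by
    rw [← h]
    rfl
  have i1 : W.asIdeal.IsPrime := W.isPrime
  have i2 : W'.asIdeal.IsPrime := W'.isPrime
  have i3 : W.asIdeal.LiesOver (dn K W).asIdeal := ⟨hp⟩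
  have i4 : W'.asIdeal.LiesOver (dn K W).asIdeal := ⟨hp'⟩
  obtain ⟨g, hg⟩ := Ideal.exists_smul_eq_of_isGaloisGroup (dn K W).asIdeal W'.asIdeal W.asIdeal
    (N ≃ₐ[K] N)
  refine ⟨g, fun x => ?_⟩
  rw [← hg]
  exact Ideal.smul_mem_pointwise_smul_iff.symm

/-- The places above `v` are the places below the conjugates. -/
theorem places_above {a b : K} {θ : L} (hc : Cub K L a b θ) {r : Fin 3 → N2} (D : N2D K K N2 a b r)
    (ε : Fin 3 → (L →+* N2)) (hε1 : ∀ m x, ε m (algebraMap K L x) = algebraMap K N2 x)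
    (hε2 : ∀ m, ε m θ = r m) (w : HeightOneSpectrum (𝓞 N2)) {t : HeightOneSpectrum (𝓞 L)}
    (ht : dn K t = dn K w) : ∃ m, t = below (ε m) w := by
  have hgal : IsGalois K N2 := D.gal
  let _ : Algebra L N2 := (ε 0).toAlgebra
  have t1 : IsScalarTower K L N2 := IsScalarTower.of_algebraMap_eq fun x => (hε1 0 x).symm
  obtain ⟨W', hW'⟩ := H76PP.exists_above (K := L) (L := N2) t
  have h1 : dn K W' = dn K w := by
    rw [← ht, ← hW']
    apply HeightOneSpectrum.ext
    ext x
    rw [Cb_memA, Cb_memA, Cb_memA, ← IsScalarTower.algebraMap_apply (𝓞 K) (𝓞 L) (𝓞 N2)]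
  obtain ⟨g, hg⟩ := Cb_conj h1
  obtain ⟨m, hm⟩ : ∃ m, g (r 0) = r m := by
    rcases Kc_root D g 0 with h | h | h
    · exact ⟨0, h⟩
    · exact ⟨1, h⟩
    · exact ⟨2, h⟩
  have h2 : (g : N2 →+* N2).comp (ε 0) = ε m := by
    refine hom_ext hc (fun x => ?_) ?_
    · rw [RingHom.comp_apply, hε1, hε1]
      exact g.commutes x
    · rw [RingHom.comp_apply, hε2, hε2]
      exact hm
  refine ⟨m, ?_⟩
  apply HeightOneSpectrum.ext
  ext x
  rw [Cb_mem, ← hW', Cb_memA, hg]
  have e : g • algebraMap (𝓞 L) (𝓞 N2) x = RingOfIntegers.mapRingHom (ε m) x := by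
    apply RingOfIntegers.ext
    rw [← h2]
    rfl
  rw [e]

end

end H36MQ
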