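import Pool.Agent.H36.MQ.Ca
import Pool.Agent.H36.MQ.Cb
import Pool.Agent.H36.GM.Th
import Pool.Agent.H38.MR.Tc

/-!
MP_78d38b_MQ (helper36): primes of type one at which given classes are trivial, with prescribed Legendre classes of elements of `K`.
-/

set_option autoImplicit false
set_option linter.unusedSectionVars false
open scoped Classical

open WithZero NumberField IsDedekindDomain H38RT
open H38T1 (SC sc scu rep eo la si OddP)
open H76PP (Cub LC ev scm dn)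
open H30ZO (HH nb)
open H88OD H26OD H76GM H36GM

namespace H36MQ

theorem below_alg {K N2 : Type} [Field K] [NumberField K] [Field N2] [NumberField N2] [Algebra K N2]
    (w : HeightOneSpectrum (𝓞 N2)) : below (algebraMap K N2) w = dn K w := by
  apply HeightOneSpectrum.ext
  ext x
  rw [mem_below (f := algebraMap K N2) (W := w) (x := x) (y := algebraMap (𝓞 K) (𝓞 N2) x) rfl]
  rfl

theorem core {K L : Type} [Field K] [NumberField K] [Field L] [NumberField L] [Algebra K L]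
    {A B : 𝓞 K} {θ : L} (hc : Cub K L (A : K) (B : K) θ)
    (hsq : ¬ IsSquare (-(4 * (A : K) ^ 3 + 27 * (B : K) ^ 2))) {H : Set (SC L)} (hH : H.Finite)
    (hHH : ∀ x ∈ H, x ∈ HH K L) {Y : Set (SC K)} (hY : Y.Finite) (χ : SC K →+ ZMod 2)
    (hχ : χ (sc (-(4 * (A : K) ^ 3 + 27 * (B : K) ^ 2))) = 0)
    {A₀ : Set (HeightOneSpectrum (𝓞 K))} (hA₀ : A₀.Finite) :
    ∃ v : HeightOneSpectrum (𝓞 K), v ∉ A₀ ∧ OddP v ∧
      (∃ e : Fin 3 → v.adicCompletion K, H30OR.R3 (algebraMap K (v.adicCompletion K) (A : K))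
        (algebraMap K (v.adicCompletion K) (B : K)) e) ∧
      (∀ t : HeightOneSpectrum (𝓞 L), dn K t = v → ∀ x ∈ H, eo t x = 0 ∧ la t x = 0) ∧
      ∀ c ∈ Y, la v c = χ c := by
  obtain ⟨N2, _, _, _, r, D⟩ := H38MR.Tc_N2 hc hsq
  have hroot : ∀ m, (r m) ^ 3 + algebraMap K N2 (A : K) * r m + algebraMap K N2 (B : K) = 0 := by
    intro m
    rw [D.roots]
    fin_cases m <;> simp
  obtain ⟨ε, hε1, hε2⟩ : ∃ ε : Fin 3 → (L →+* N2),
      (∀ m x, ε m (algebraMap K L x) = algebraMap K N2 x) ∧ ∀ m, ε m θ = r m :=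
    ⟨fun m => H36MX.rh hc (algebraMap K N2) (hroot m), fun m x => H36MX.rh_algebraMap _ _ _ x,
      fun m => H36MX.rh_theta _ _ _⟩
  obtain ⟨φ, hφ1, hφ2⟩ := cub_fun hc D ε hε1 hε2 χ hχ
  choose rL hrL0 hrL using (fun c : SC L => H76OD.exists_irep c)
  choose rK hrK0 hrK using (fun c : SC K => H76OD.exists_irep c)
  obtain ⟨ro, hro⟩ : ∃ ro : Fin 3 → 𝓞 N2, ∀ m, (ro m : N2) = r m :=
    ⟨fun m => ⟨r m, H38MR.Tc_root_int (hroot m)⟩, fun _ => rfl⟩
  obtain ⟨S, hS⟩ : ∃ S : Finset (𝓞 N2), S = ((Finset.univ.filter fun p : Fin 3 × Fin 3 =>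
      p.1 ≠ p.2).image fun p => ro p.1 - ro p.2) ∪
      ((Finset.univ ×ˢ hH.toFinset).image fun p : Fin 3 × SC L => im (ε p.1) (rL p.2)) ∪
      hY.toFinset.image fun c => im (algebraMap K N2) (rK c) := ⟨_, rfl⟩
  have hS1 : ∀ m m', m ≠ m' → ro m - ro m' ∈ S := by
    intro m m' h
    rw [hS, Finset.mem_union, Finset.mem_union]
    exact Or.inl (Or.inl (Finset.mem_image.2 ⟨(m, m'), Finset.mem_filter.2
      ⟨Finset.mem_univ _, h⟩, rfl⟩))
  have hS2 : ∀ m, ∀ x ∈ H, im (ε m) (rL x) ∈ S := by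
    intro m x hx
    rw [hS, Finset.mem_union, Finset.mem_union]
    exact Or.inl (Or.inr (Finset.mem_image.2 ⟨(m, x), Finset.mem_product.2
      ⟨Finset.mem_univ _, hH.mem_toFinset.2 hx⟩, rfl⟩))
  have hS3 : ∀ c ∈ Y, im (algebraMap K N2) (rK c) ∈ S := by
    intro c hc
    rw [hS, Finset.mem_union]
    exact Or.inr (Finset.mem_image.2 ⟨c, hY.mem_toFinset.2 hc, rfl⟩)
  have hS0 : ∀ d ∈ S, d ≠ 0 := by
    intro d hd
    rw [hS, Finset.mem_union, Finset.mem_union] at hd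
    rcases hd with (hd | hd) | hd
    · obtain ⟨p, hp, rfl⟩ := Finset.mem_image.1 hd
      intro h
      have h1 : (ro p.1 : N2) - ro p.2 = 0 := by
        have := congrArg (fun z : 𝓞 N2 => (z : N2)) h
        simpa using this
      rw [hro, hro] at h1
      exact (Finset.mem_filter.1 hp).2 (D.inj (sub_eq_zero.1 h1))
    · obtain ⟨p, hp, rfl⟩ := Finset.mem_image.1 hd
      exact im_ne (hrL0 _)
    · obtain ⟨c, hc, rfl⟩ := Finset.mem_image.1 hd
      exact im_ne (hrK0 _)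
  obtain ⟨w, hwA, h2w, hdeg, hw⟩ := H76OD.cheb_N (K := K) S hS0 φ A₀ hA₀
  have hodd : OddP (dn K w) := by
    apply H30MQ.oddP_of
    intro h
    apply h2w
    have h5 : algebraMap (𝓞 K) (𝓞 N2) 2 ∈ w.asIdeal := h
    rwa [map_ofNat] at h5
  refine ⟨dn K w, hwA, hodd, ?_, ?_, ?_⟩
  · choose n hn using fun m => hdeg (ro m)
    refine three_roots (M := K) (E := N2) (W := w) (A := A) (B := B) (r := ro) ?_
      (fun m m' h => (hw _ (hS1 m m' h)).1) hn
    intro x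
    apply RingOfIntegers.ext
    have h1 := D.roots (x : N2)
    rw [← hro, ← hro, ← hro] at h1
    change (x : N2) ^ 3 + algebraMap K N2 (A : K) * (x : N2) + algebraMap K N2 (B : K) = _
    rw [h1]
    rfl
  · intro t ht x hx
    obtain ⟨m, rfl⟩ := places_above hc D ε hε1 hε2 w ht
    have h1 := hw _ (hS2 m x hx)
    have hdegL : ∀ z : 𝓞 N2, ∃ n : 𝓞 L, im (ε m) n - z ∈ w.asIdeal := by
      intro z
      obtain ⟨n, hn⟩ := hdeg z
      refine ⟨algebraMap (𝓞 K) (𝓞 L) n, ?_⟩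
      have h3 : im (ε m) (algebraMap (𝓞 K) (𝓞 L) n) = algebraMap (𝓞 K) (𝓞 N2) n := by
        apply RingOfIntegers.ext
        exact hε1 m (n : K)
      rw [h3]
      exact hn
    have h4 : rL x ∉ (below (ε m) w).asIdeal := fun h => h1.1 ((mem_below' _ _ _).1 h)
    have h5 := la_deg1 hdegL h2w h1.1
    have h6 := h1.2
    have hx0 : ((rL x : 𝓞 L) : L) ≠ 0 := H30MQ.coe_ne (hrL0 x)
    rw [im_coe, ← cl_sc _ hx0, hrL, hφ1 m x (hHH x hx)] at h6
    rw [← cl_sc _ hx0, hrL, h6] at h5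
    refine ⟨?_, h5⟩
    have h7 := H30MQ.eo_unit (hrL0 x) h4
    rwa [hrL] at h7
  · intro c hc
    have h1 := hw _ (hS3 c hc)
    have hdegK : ∀ z : 𝓞 N2, ∃ n : 𝓞 K, im (algebraMap K N2) n - z ∈ w.asIdeal := hdeg
    have h5 := la_deg1 hdegK h2w h1.1
    have h6 := h1.2
    have hx0 : ((rK c : 𝓞 K) : K) ≠ 0 := H30MQ.coe_ne (hrK0 c)
    rw [im_coe, ← cl_sc _ hx0, hrK, hφ2] at h6
    rw [← cl_sc _ hx0, hrK, h6, below_alg] at h5
    exact h5

end H36MQ
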