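import Pool.Agent.H38.MR.Hb

/-!
MP_78d38b_MQ (helper36), infinite towers: finiteness over the number fields in an infinite multiquadratic
extension.
-/

set_option autoImplicit false
set_option linter.unusedSectionVars false
open scoped Classical

open WithZero NumberField IsDedekindDomain H38RT WeierstrassCurve Pool.Agent.H10
open H38T1 (SC sc)
open H30ZO (Tv)

namespace H36MQ

theorem abel {K F : Type} [Field K] [Field F] [Algebra K F] [IsGalois K F]
    (h2 : ∀ g : F ≃ₐ[K] F, g * g = 1) : IsAbelianGalois K F := by
  have hinv : ∀ g : F ≃ₐ[K] F, g⁻¹ = g := fun g => inv_eq_of_mul_eq_one_left (h2 g)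
  exact { is_comm := ⟨fun g h => by
    have e := hinv (g * h)
    rw [mul_inv_rev, hinv, hinv] at e
    exact e.symm⟩ }

/-- A finite multiquadratic extension inside of the infinite one. -/
theorem exists_sub {K F : Type} [Field K] [NumberField K] [Field F] [Algebra K F] [IsGalois K F]
    (h2 : ∀ g : F ≃ₐ[K] F, g * g = 1) (X : Set F) (hX : X.Finite) :
    ∃ N : IntermediateField K F, X ⊆ N ∧ FiniteDimensional K N ∧ IsGalois K N ∧
      ∀ g : N ≃ₐ[K] N, g * g = 1 := by
  have hab := abel h2
  have hfin : FiniteDimensional K (IntermediateField.adjoin K X) := by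
    have := hX.to_subtype
    exact IntermediateField.finiteDimensional_adjoin fun x _ => Algebra.IsIntegral.isIntegral x
  refine ⟨IntermediateField.adjoin K X, IntermediateField.subset_adjoin K X, hfin,
    inferInstance, fun g => ?_⟩
  obtain ⟨g', rfl⟩ := AlgEquiv.restrictNormalHom_surjective F g
  rw [← map_mul, h2, map_one]

/-- **All twists over the number fields in an infinite multiquadratic extension.** -/
theorem fin_allF {K F : Type} [Field K] [NumberField K] [Field F] [Algebra K F] [IsGalois K F]
    (h2 : ∀ g : F ≃ₐ[K] F, g * g = 1) {a b D : K}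
    (hne : 4 * a ^ 3 + 27 * b ^ 2 ≠ 0) (hD : D ≠ 0)
    (H : ∀ d : K, d ≠ 0 → IsSquare (algebraMap K F d) →
      Tv K ((d * D) ^ 2 * a) ((d * D) ^ 3 * b)) (M : Type) [Field M]
    [NumberField M] [Algebra K M] [Algebra M F] [IsScalarTower K M F] {m : M} (hm : m ≠ 0)
    (hs : IsSquare (algebraMap M F m)) :
    Finite (⟨0, 0, 0, (m * algebraMap K M D) ^ 2 * algebraMap K M a,
      (m * algebraMap K M D) ^ 3 * algebraMap K M b⟩ : WeierstrassCurve M).toAffine.Point ∧
    H14T1.TwoPartFinite M (⟨0, 0, 0, (m * algebraMap K M D) ^ 2 * algebraMap K M a,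
      (m * algebraMap K M D) ^ 3 * algebraMap K M b⟩ : WeierstrassCurve M) := by
  obtain ⟨r, hr⟩ := hs
  have hfd : FiniteDimensional K M := Module.Finite.of_restrictScalars_finite ℚ K M
  obtain ⟨α, hα⟩ := Field.exists_primitive_element K M
  obtain ⟨N, h3, h4, h5, h6⟩ := exists_sub h2 {algebraMap M F α, r} (Set.toFinite _)
  have hN : NumberField N := NumberField.of_module_finite K N
  have hMN : ∀ x : M, algebraMap M F x ∈ N := by
    intro x
    have h7 : x ∈ IntermediateField.adjoin K {α} := by
      rw [hα]
      exact IntermediateField.mem_top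
    have h8 : IntermediateField.adjoin K {α} ≤ N.comap (IsScalarTower.toAlgHom K M F) := by
      rw [IntermediateField.adjoin_simple_le_iff]
      exact h3 (Set.mem_insert _ _)
    exact h8 h7
  let f : M →+* N := (algebraMap M F).codRestrict N.toSubfield hMN
  let _ : Algebra M N := f.toAlgebra
  have hK : ∀ x : K, algebraMap M N (algebraMap K M x) = algebraMap K N x := by
    intro x
    apply Subtype.ext
    change algebraMap M F (algebraMap K M x) = algebraMap K F x
    exact (IsScalarTower.algebraMap_apply K M F x).symm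
  have hT : IsScalarTower K M N := IsScalarTower.of_algebraMap_eq fun x => (hK x).symm
  have hrN : IsSquare (algebraMap M N m) := by
    refine ⟨⟨r, h3 (Set.mem_insert_of_mem _ rfl)⟩, ?_⟩
    apply Subtype.ext
    exact hr
  exact H38MR.fin_all h6 hne hD (fun d hd => H d hd.1 (by
    obtain ⟨y, hy⟩ := hd.2
    refine ⟨(y : F), ?_⟩
    have h9 := congrArg (fun z : N => (z : F)) hy
    exact h9)) M hm hrN

end H36MQ
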