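import Mathlib

/-!
ROW MQ/Tk (project MP_78d38b_MQ, infinite towers, helper36): Kummer theory of the field generated by the
square roots of a (possibly infinite) group `Γ`. Only Mathlib is needed.

PROOF. `gens := {s : Ω | ∃ x ∈ Γ, s ^ 2 = algebraMap K Ω x}` is closed under multiplication and contains `1`.
All its elements are algebraic over `K`, so
`(IntermediateField.adjoin K gens).toSubalgebra = Algebra.adjoin K gens`
(`IntermediateField.adjoin_toSubalgebra_of_isAlgebraic` or `..._of_integral`), and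
`Algebra.adjoin K gens = Submodule.span K (Submonoid.closure gens)` (`Algebra.adjoin_eq_span`), where
`Submonoid.closure gens` is `gens` as a set. So `t = ∑ s ∈ T, c s • s` with a finset `T ⊆ gens`
(`Submodule.mem_span_finset` / `mem_span_set`), `c : Ω → K`.
For `s` with `s ≠ 0`, `s ^ 2 = algebraMap K Ω x` (this holds for `s ∈ gens`, as `0 ∉ Γ`, and for `s = t`) let
`χ s : (Ω ≃ₐ[K] Ω) →* Ω`, `χ s σ = σ s / s`: as `(σ s) ^ 2 = s ^ 2`, `σ s = s` or `σ s = -s`, so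
`χ s σ ∈ {1, -1}` and `χ s (σ * τ) = χ s σ * χ s τ`. Apply `σ` to `t = ∑ c s • s`:
`t * χ t σ = ∑ s ∈ T, c s * s * χ s σ` for all `σ`. Different monoid homomorphisms are linearly independent over
`Ω` (`linearIndependent_monoidHom (Ω ≃ₐ[K] Ω) Ω`). If `χ t ≠ χ s` for all `s ∈ T`, then the coefficient of `χ t` in
the relation `∑ s ∈ T, (c s * s) • χ s - t • χ t = 0` is `-t ≠ 0` (use the `Finsupp`
`∑ s ∈ T, Finsupp.single (χ s) (c s * s) - Finsupp.single (χ t) t` with `linearIndependent_iff`), a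
contradiction. So `χ t = χ s` for some `s ∈ T`, `s ^ 2 = x ∈ Γ`, and `σ (t * s) = t * s` for all `σ`
(both signs agree), so `t * s = algebraMap K Ω y`
(`IsGalois.mem_range_algebraMap_iff_fixed` needs finite degree; for infinite `Ω / K` use
`InfiniteGalois.mem_range_algebraMap_iff_fixed` or `InfiniteGalois.fixedField_bot`/`IsGalois` statements in
Mathlib.FieldTheory.Galois.Infinite; or `IsGalois.bot_eq...`), and
`d * x = y ^ 2` (`algebraMap` is injective).
-/

set_option autoImplicit false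
set_option linter.unusedSectionVars false
open scoped Classical

namespace H36MQ

private theorem tk_pm {K Ω : Type} [Field K] [Field Ω] [Algebra K Ω] {s : Ω} {x : K}
    (h : s ^ 2 = algebraMap K Ω x) (σ : Ω ≃ₐ[K] Ω) : σ s = s ∨ σ s = -s := by
  refine sq_eq_sq_iff_eq_or_eq_neg.1 ?_
  rw [← map_pow, h, AlgEquiv.commutes]

private theorem tk_chi {K Ω : Type} [Field K] [Field Ω] [Algebra K Ω] {s : Ω} (hs : s ≠ 0) {x : K}
    (h : s ^ 2 = algebraMap K Ω x) : ∃ χ : (Ω ≃ₐ[K] Ω) →* Ω, ∀ σ, χ σ = σ s / s := by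
  refine ⟨{ toFun := fun σ => σ s / s, map_one' := ?_, map_mul' := ?_ }, fun _ => rfl⟩
  · rw [AlgEquiv.one_apply, div_self hs]
  · intro σ τ
    rw [AlgEquiv.mul_apply]
    rcases tk_pm h τ with h1 | h1
    · rw [h1, div_self hs, mul_one]
    · rw [h1, map_neg, neg_div, neg_div, div_self hs, mul_neg, mul_one]

/-- Kummer theory for the field generated by square roots. -/
theorem root_mem {K Ω : Type} [Field K] [CharZero K] [Field Ω] [Algebra K Ω] [IsGalois K Ω]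
    {Γ : Set K} (h1 : (1 : K) ∈ Γ) (hm : ∀ x ∈ Γ, ∀ y ∈ Γ, x * y ∈ Γ) (h0 : ∀ x ∈ Γ, x ≠ 0)
    {t : Ω} (ht : t ∈ IntermediateField.adjoin K {s : Ω | ∃ x ∈ Γ, s ^ 2 = algebraMap K Ω x})
    {d : K} (hd : d ≠ 0) (hs : t ^ 2 = algebraMap K Ω d) : ∃ x ∈ Γ, IsSquare (d * x) := by
  obtain ⟨gens, hgens⟩ : ∃ gens : Set Ω, gens = {s : Ω | ∃ x ∈ Γ, s ^ 2 = algebraMap K Ω x} := ⟨_, rfl⟩
  rw [← hgens] at ht
  have hmem : ∀ s, s ∈ gens ↔ ∃ x ∈ Γ, s ^ 2 = algebraMap K Ω x := by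
    intro s
    rw [hgens]
    rfl
  have hs0 : ∀ s ∈ gens, s ≠ 0 := by
    rintro s hs rfl
    obtain ⟨x, hx, hx2⟩ := (hmem _).1 hs
    rw [zero_pow two_ne_zero, eq_comm, map_eq_zero] at hx2
    exact h0 x hx hx2
  have ht0 : t ≠ 0 := by
    rintro rfl
    rw [zero_pow two_ne_zero, eq_comm, map_eq_zero] at hs
    exact hd hs
  let G : Submonoid Ω :=
    { carrier := gens
      one_mem' := (hmem _).2 ⟨1, h1, by rw [one_pow, map_one]⟩
      mul_mem' := by
        intro a b ha hb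
        obtain ⟨x, hx, hx2⟩ := (hmem _).1 ha
        obtain ⟨y, hy, hy2⟩ := (hmem _).1 hb
        exact (hmem _).2 ⟨x * y, hm x hx y hy, by rw [mul_pow, hx2, hy2, map_mul]⟩ }
  have hcl : (Submonoid.closure gens : Set Ω) ⊆ gens := by
    have h : Submonoid.closure gens ≤ G := Submonoid.closure_le.2 fun _ hx => hx
    exact fun x hx => h hx
  have ht1 : t ∈ Submodule.span K gens := by
    have h2 : t ∈ Algebra.adjoin K gens := by
      rw [← IntermediateField.adjoin_toSubalgebra (F := K) gens]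
      exact ht
    have h3 : t ∈ Subalgebra.toSubmodule (Algebra.adjoin K gens) := h2
    rw [Algebra.adjoin_eq_span] at h3
    exact Submodule.span_mono hcl h3
  obtain ⟨c, T, hT, -, hsum⟩ := Submodule.mem_span_iff_exists_finset_subset.1 ht1
  have hex : ∀ s : Ω, ∃ χ : (Ω ≃ₐ[K] Ω) →* Ω, s ≠ 0 → (∃ x : K, s ^ 2 = algebraMap K Ω x) →
      ∀ σ, χ σ = σ s / s := by
    intro s
    by_cases h : s ≠ 0 ∧ ∃ x : K, s ^ 2 = algebraMap K Ω x
    · obtain ⟨h2, x, h3⟩ := h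
      obtain ⟨χ, hχ⟩ := tk_chi h2 h3
      exact ⟨χ, fun _ _ => hχ⟩
    · exact ⟨1, fun h2 h3 => absurd ⟨h2, h3⟩ h⟩
  choose X hX using hex
  have hXt := hX t ht0 ⟨d, hs⟩
  have hXs : ∀ s ∈ gens, ∀ σ, X s σ = σ s / s := fun s hs' => by
    obtain ⟨x, hx, hx2⟩ := (hmem _).1 hs'
    exact hX s (hs0 s hs') ⟨x, hx2⟩
  have hspan : (fun f : (Ω ≃ₐ[K] Ω) →* Ω => (f : (Ω ≃ₐ[K] Ω) → Ω)) (X t) ∈ Submodule.span Ω
      ((fun f : (Ω ≃ₐ[K] Ω) →* Ω => (f : (Ω ≃ₐ[K] Ω) → Ω)) '' (X '' (T : Set Ω))) := by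
    have he : (fun f : (Ω ≃ₐ[K] Ω) →* Ω => (f : (Ω ≃ₐ[K] Ω) → Ω)) (X t) =
        ∑ s ∈ T, (t⁻¹ * algebraMap K Ω (c s) * s) •
          (fun f : (Ω ≃ₐ[K] Ω) →* Ω => (f : (Ω ≃ₐ[K] Ω) → Ω)) (X s) := by
      funext σ
      rw [Finset.sum_apply]
      change X t σ = ∑ s ∈ T, (t⁻¹ * algebraMap K Ω (c s) * s) * X s σ
      have h2 : σ t = ∑ s ∈ T, algebraMap K Ω (c s) * σ s := by
        conv_lhs => rw [← hsum]
        rw [map_sum]
        refine Finset.sum_congr rfl fun s _ => ?_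
        rw [Algebra.smul_def, map_mul, AlgEquiv.commutes]
      rw [hXt, h2, div_eq_inv_mul, Finset.mul_sum]
      refine Finset.sum_congr rfl fun s hs' => ?_
      have h3 := hs0 s (hT hs')
      rw [hXs s (hT hs')]
      field_simp
    rw [he]
    exact Submodule.sum_mem _ fun s hs' => Submodule.smul_mem _ _
      (Submodule.subset_span ⟨X s, ⟨s, hs', rfl⟩, rfl⟩)
  have hin : X t ∈ X '' (T : Set Ω) := by
    by_contra hcon
    exact (linearIndependent_monoidHom (Ω ≃ₐ[K] Ω) Ω).notMem_span_image hcon hspan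
  obtain ⟨s, hsT, hst⟩ := hin
  have hsg := hT hsT
  obtain ⟨x, hx, hx2⟩ := (hmem _).1 hsg
  have hsne := hs0 s hsg
  have hfix : ∀ σ : Ω ≃ₐ[K] Ω, σ (t * s) = t * s := by
    intro σ
    have h2 : σ s / s = σ t / t := by rw [← hXs s hsg σ, ← hXt σ, hst]
    rw [map_mul]
    rcases tk_pm hx2 σ with h3 | h3
    · rw [h3, div_self hsne, eq_comm, div_eq_one_iff_eq ht0] at h2
      rw [h3, h2]
    · rw [h3, neg_div, div_self hsne, eq_comm, div_eq_iff ht0] at h2
      rw [h3, h2]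
      ring
  obtain ⟨y, hy⟩ := (InfiniteGalois.mem_range_algebraMap_iff_fixed (t * s)).2 hfix
  refine ⟨x, hx, y, ?_⟩
  apply (algebraMap K Ω).injective
  rw [map_mul, map_mul, hy, ← hs, ← hx2]
  ring

end H36MQ
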