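import Pool.Agent.H30.ZO.Bc
import Pool.Agent.H30.ZO.Bf

/-!
ROW MQ/Tt (project MP_78d38b_MQ, infinite towers, helper36): the finite subgroups of the group of points
over a completion are bounded. Use only the STATEMENTS of `H30ZO.exists_EE`
(Pool/Agent/H30/ZO/Bc.lean) and `H30ZO.EE_fin` (Pool/Agent/H30/ZO/Bf.lean), and the definitions `Lv`, `zt`,
`Pc` in Pool/Agent/H30/ZO/Df2.lean.

PROOF. `V := Valued.v` on `v.adicCompletion k` (value group `WithZero (Multiplicative ℤ)`).
(1) Let `p` be a prime number. There is `r : ℕ` with `exp (-r) ≤ V (n : F)` for all PRIME numbers `n`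
(`n : F`): the number `p` below `v` is the only prime number with `V p < 1`: if `n, n'` are different
primes, `V n < 1` and `V n' < 1` then `V 1 < 1` by Bezout. So: if some prime `p` has `V p < 1` take `r`
with `exp (-r) ≤ V p` (`V p ≠ 0` as the characteristic is zero; `H30ZO.exists_exp_neg_natCast_lt` is used in Bf.lean), otherwise `r = 0`
(`V n ≤ 1` for natural numbers: `H30ZO.Ba_nat`).
(2) `m := r + 1`, `H` from exists_EE (`2 ≠ 0`). For `P ∈ H`, `P ≠ 0`, there is `j ≥ m` (natural number)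
with `V (zt P) = exp (-j)`: `P = (x, y)`, `V x ≥ exp (2 m) > 1`, `y ^ 2 = x ^ 3 + A x + B`, so
`V y ^ 2 = V x ^ 3` (dominant term; such a computation is in Pool/Agent/H30/ZO/Ba.lean, look for a lemma
there), `V x = exp (2 j)`, `V y = exp (3 j)`, and `P` has level at least `j`, i.e. `Lv V j P`. Let `H'` be the
subgroup from exists_EE for `j` in place of `m`: `P ∈ H'`. By induction on `n`: `n • P ∈ H'` and
`V (zt (n • P) - n * zt P) ≤ exp (-(5 * j))` (`Ba_add`).
(3) `H` has no element of prime order: if `n • P = 0`, `n` prime, `P ∈ H`, `P ≠ 0`, then by (2)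
`V (n * zt P) ≤ exp (-(5 j))`, so `V n ≤ exp (-4 j)`, but `V n ≥ exp (-r)` and `4 j > r`.
(4) Let `G` be a finite subgroup. `G ⊓ H = ⊥`: otherwise an element of prime order
(`exists_prime_addOrderOf_dvd_card` in `G ⊓ H`, or: take `P ≠ 0` in `G ⊓ H`, `n` a prime factor of
`addOrderOf P`, `(addOrderOf P / n) • P`). So `G → (Pc A B) ⧸ H` is injective and
`Nat.card G ≤ H.index` (`H.index ≠ 0` by EE_fin gives `Finite (_ ⧸ H)`). `C := H.index`.
-/

set_option autoImplicit false
set_option linter.unusedSectionVars false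
open scoped Classical

open WithZero WeierstrassCurve NumberField IsDedekindDomain
open H30ZO (Pc Lv zt)

namespace H36MQ

private theorem Tt_int {F : Type} [Field F] (V : Valuation F (WithZero (Multiplicative ℤ)))
    (n : ℤ) : V (n : F) ≤ 1 := by
  rcases Int.eq_nat_or_neg n with ⟨k, rfl | rfl⟩
  · have h := H30ZO.Ba_nat (V := V) k
    rw [exp_zero] at h
    rw [Int.cast_natCast]
    exact h
  · have h := H30ZO.Ba_nat (V := V) k
    rw [exp_zero] at h
    rw [Int.cast_neg, Int.cast_natCast, Valuation.map_neg]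
    exact h

private theorem Tt_cop {F : Type} [Field F] (V : Valuation F (WithZero (Multiplicative ℤ)))
    {n p : ℕ} (hn : n.Prime) (hp : p.Prime) (hne : n ≠ p) (hVp : V (p : F) < 1) :
    1 ≤ V (n : F) := by
  by_contra h
  rw [not_le] at h
  have h1 : IsCoprime (n : ℤ) (p : ℤ) :=
    Nat.isCoprime_iff_coprime.2 ((Nat.coprime_primes hn hp).2 hne)
  obtain ⟨u, w, huw⟩ := h1
  have h2 : (u : F) * (n : F) + (w : F) * (p : F) = 1 := by
    exact_mod_cast congrArg (Int.cast : ℤ → F) huw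
  have h3 : V ((u : F) * (n : F) + (w : F) * (p : F)) < 1 := by
    refine lt_of_le_of_lt (V.map_add _ _) (max_lt ?_ ?_)
    · rw [map_mul]
      exact lt_of_le_of_lt (mul_le_of_le_one_left' (Tt_int V u)) h
    · rw [map_mul]
      exact lt_of_le_of_lt (mul_le_of_le_one_left' (Tt_int V w)) hVp
  rw [h2, map_one] at h3
  exact lt_irrefl _ h3

/-- The primes are not too small. -/
private theorem Tt_r {F : Type} [Field F] [CharZero F]
    (V : Valuation F (WithZero (Multiplicative ℤ))) :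
    ∃ r : ℕ, ∀ n : ℕ, n.Prime → exp (-(r : ℤ)) ≤ V (n : F) := by
  have hle : ∀ r : ℕ, exp (-(r : ℤ)) ≤ (1 : WithZero (Multiplicative ℤ)) := by
    intro r
    rw [← exp_zero, exp_le_exp]
    omega
  by_cases h : ∃ p : ℕ, p.Prime ∧ V (p : F) < 1
  · obtain ⟨p, hp, hVp⟩ := h
    have hp0 : V (p : F) ≠ 0 := (V.ne_zero_iff).2 (Nat.cast_ne_zero.2 hp.ne_zero)
    obtain ⟨j, hj⟩ := exists_exp_neg_natCast_lt hp0
    refine ⟨j, fun n hn => ?_⟩
    by_cases hne : n = p
    · rw [hne]
      exact hj.le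
    · exact (hle j).trans (Tt_cop V hn hp hne hVp)
  · push Not at h
    exact ⟨0, fun n hn => (hle 0).trans (h n hn)⟩

/-- The level of a point. -/
private theorem Tt_lvl {F : Type} [Field F] {V : Valuation F (WithZero (Multiplicative ℤ))}
    {A B : F} (hA : V A ≤ 1) (hB : V B ≤ 1) {m : ℕ} (hm : 1 ≤ m) {x y : F}
    (e : y ^ 2 = x ^ 3 + A * x + B) (hV : exp (2 * (m : ℤ)) ≤ V x) :
    ∃ j : ℕ, m ≤ j ∧ V x = exp (2 * (j : ℤ)) ∧ V (x / y) = exp (-(j : ℤ)) := by
  have hx0 : V x ≠ 0 := by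
    intro h
    rw [h] at hV
    exact absurd hV (not_le.2 exp_pos)
  obtain ⟨α, hα⟩ : ∃ α : ℤ, V x = exp α := ⟨_, (exp_log hx0).symm⟩
  have hmα : 2 * (m : ℤ) ≤ α := by
    rw [hα, exp_le_exp] at hV
    exact hV
  have h3 : V (x ^ 3) = exp (3 * α) := by
    rw [map_pow, hα, ← exp_nsmul, nsmul_eq_mul]
    push_cast
    rfl
  have hAx : V (A * x + B) ≤ exp α := by
    refine (V.map_add _ _).trans (max_le ?_ ?_)
    · rw [map_mul, hα]
      exact mul_le_of_le_one_left' hA
    · refine hB.trans ?_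
      rw [← exp_zero, exp_le_exp]
      omega
  have hlt : V (A * x + B) < V (x ^ 3) := by
    rw [h3]
    refine lt_of_le_of_lt hAx ?_
    rw [exp_lt_exp]
    omega
  have hy2 : V (y ^ 2) = exp (3 * α) := by
    rw [e, add_assoc, V.map_add_eq_of_lt_left hlt, h3]
  have hy0 : y ≠ 0 := by
    rintro rfl
    rw [zero_pow two_ne_zero, map_zero] at hy2
    exact exp_ne_zero hy2.symm
  have hVy0 : V y ≠ 0 := (V.ne_zero_iff).2 hy0
  obtain ⟨β, hβ⟩ : ∃ β : ℤ, V y = exp β := ⟨_, (exp_log hVy0).symm⟩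
  have hab : 2 * β = 3 * α := by
    rw [map_pow, hβ, ← exp_nsmul, exp_inj] at hy2
    simpa using hy2
  obtain ⟨j, hj⟩ : ∃ j : ℕ, (j : ℤ) = β - α := ⟨(β - α).toNat, Int.toNat_of_nonneg (by omega)⟩
  refine ⟨j, by omega, ?_, ?_⟩
  · rw [hα]
    congr 1
    omega
  · rw [map_div₀, hα, hβ, ← exp_sub]
    congr 1
    omega

private theorem Tt_eqn {F : Type} [Field F] {A B x y : F}
    (h : (⟨0, 0, 0, A, B⟩ : WeierstrassCurve F).toAffine.Nonsingular x y) :
    y ^ 2 = x ^ 3 + A * x + B := by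
  have h1 := (Affine.equation_iff _ _).1 h.1
  linear_combination h1

/-- No torsion of prime order. -/
private theorem Tt_prime {F : Type} [Field F] [CharZero F]
    {V : Valuation F (WithZero (Multiplicative ℤ))}
    {A B : F} (hA : V A ≤ 1) (hB : V B ≤ 1) {r : ℕ}
    (hr : ∀ n : ℕ, n.Prime → exp (-(r : ℤ)) ≤ V (n : F)) {P : Pc A B} (hP : Lv V (r + 1) P)
    {n : ℕ} (hn : n.Prime) (h0 : n • P = 0) : P = 0 := by
  rcases hP with rfl | ⟨x, y, h, rfl, hV⟩
  · rfl
  exfalso
  obtain ⟨j, hj, hx, hz⟩ := Tt_lvl hA hB (by omega) (Tt_eqn h) hV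
  obtain ⟨H, h1, h2, -, -⟩ := H30ZO.exists_EE (two_ne_zero) hA hB (m := j) (by omega)
  obtain ⟨P, hP⟩ : ∃ P : Pc A B, P = Affine.Point.some x y h := ⟨_, rfl⟩
  have hPH : P ∈ H := (h1 P).2 (Or.inr ⟨x, y, h, hP, le_of_eq hx.symm⟩)
  have hzt : zt P = x / y := by
    rw [hP, H30ZO.zt_some]
  rw [← hP] at h0
  have hind : ∀ k : ℕ, V (zt (k • P) - (k : F) * zt P) ≤ exp (-(5 * (j : ℤ))) := by
    intro k
    induction k with
    | zero =>
      rw [zero_nsmul, H30ZO.zt_zero, Nat.cast_zero, zero_mul, sub_zero, map_zero]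
      exact zero_le
    | succ k ih =>
      have e1 : zt ((k + 1) • P) - ((k + 1 : ℕ) : F) * zt P =
          (zt (k • P + P) - zt (k • P) - zt P) + (zt (k • P) - (k : F) * zt P) := by
        rw [succ_nsmul]
        push_cast
        ring
      rw [e1]
      exact H30ZO.Ba_add (h2 _ (H.nsmul_mem hPH k) _ hPH) ih
  have h3 := hind n
  rw [h0, H30ZO.zt_zero, zero_sub, Valuation.map_neg, map_mul, hzt, hz] at h3
  have h4 : exp (-(r : ℤ)) * exp (-(j : ℤ)) ≤ exp (-(5 * (j : ℤ))) :=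
    (mul_le_mul' (hr n hn) le_rfl).trans h3
  rw [← exp_add, exp_le_exp] at h4
  omega

/-- The finite subgroups are bounded. -/
theorem tors_bdd {k : Type} [Field k] [NumberField k] (v : HeightOneSpectrum (𝓞 k))
    {A B : v.adicCompletion k} (hA : Valued.v A ≤ 1) (hB : Valued.v B ≤ 1)
    (hD : 4 * A ^ 3 + 27 * B ^ 2 ≠ 0) :
    ∃ C : ℕ, ∀ G : AddSubgroup (Pc A B), Finite G → Nat.card G ≤ C := by
  have hch : CharZero (v.adicCompletion k) :=
    charZero_of_injective_algebraMap (algebraMap k (v.adicCompletion k)).injective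
  obtain ⟨r, hr⟩ := Tt_r (F := v.adicCompletion k) Valued.v
  obtain ⟨H, h1, -, -, -⟩ := H30ZO.exists_EE (F := v.adicCompletion k) (V := Valued.v)
    two_ne_zero hA hB (m := r + 1) (by omega)
  have hidx := H30ZO.EE_fin v hA hB hD (m := r + 1) (by omega) h1
  have key : ∀ Q ∈ H, IsOfFinAddOrder Q → Q = 0 := by
    intro Q hQ hfin
    by_contra hne
    have hN0 : 0 < addOrderOf Q := addOrderOf_pos_iff.2 hfin
    have hN1 : addOrderOf Q ≠ 1 := fun h => hne (AddMonoid.addOrderOf_eq_one_iff.1 h)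
    obtain ⟨n, hn, c, hc⟩ := Nat.exists_prime_and_dvd hN1
    have h3 : n • (c • Q) = 0 := by
      rw [← mul_nsmul', ← hc]
      exact addOrderOf_nsmul_eq_zero Q
    have h4 : c • Q = 0 := Tt_prime hA hB hr ((h1 _).1 (H.nsmul_mem hQ c)) hn h3
    have h5 : addOrderOf Q ∣ c := addOrderOf_dvd_of_nsmul_eq_zero h4
    have hc0 : 0 < c := by
      rcases Nat.eq_zero_or_pos c with h6 | h6
      · rw [h6, mul_zero] at hc
        omega
      · exact h6
    have h7 := Nat.le_of_dvd hc0 h5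
    rw [hc] at h7
    have h8 := hn.two_le
    nlinarith
  refine ⟨H.index, fun G hG => ?_⟩
  have hfq : Finite (Pc A B ⧸ H) := Nat.finite_of_card_ne_zero hidx
  refine Nat.card_le_card_of_injective (fun g : G => (QuotientAddGroup.mk (g : Pc A B) : Pc A B ⧸ H))
    (fun g g' h => ?_)
  have h2 : -(g : Pc A B) + g' ∈ H := QuotientAddGroup.eq.1 h
  have h3 : IsOfFinAddOrder (-(g : Pc A B) + g') := by
    have h4 : IsOfFinAddOrder (-g + g' : G) := isOfFinAddOrder_of_finite _
    have h5 := AddMonoidHom.isOfFinAddOrder G.subtype h4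
    exact h5
  have h6 := key _ h2 h3
  exact Subtype.ext (neg_add_eq_zero.1 h6)

end H36MQ
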