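import Pool.Agent.H30.ZO.Df2

/-!
ROW MQ/Tu (project MP_78d38b_MQ, infinite towers, helper36): a group of points over an infinite algebraic
extension `F` which is a union of bounded finite groups is finite. Only Mathlib is needed.

PROOF. Suppose `Pc (algebraMap K F A) (algebraMap K F B)` is infinite. Take a finset `s` of `C + 1` points
(`Infinite.exists_subset_card_eq`, `Infinite.exists_superset_card_eq`). Let `X` be the finite set of the coordinates of its points and
`M := IntermediateField.adjoin K X` (a subfield of `F`), finite over `K` (`IntermediateField.finiteDimensional_adjoin`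
with `Algebra.IsIntegral`), so a number field (`NumberField.of_module_finite K M`). `Algebra M F`,
`IsScalarTower K M F` are instances. hM: `Pc (algebraMap K M A) (algebraMap K M B)` is finite. The maps
`Affine.Point.map` (Mathlib `WeierstrassCurve.Affine.Point.map`, injective: `Affine.Point.map_injective`; the curve
over `K` is `⟨0, 0, 0, A, B⟩`, its base change to `M` is `⟨0, 0, 0, algebraMap K M A, algebraMap K M B⟩` after
`simp`/`ext`; see `twM`, `pg_down` in Pool/Agent/H36/MG/Gt.lean or Pool/Agent/H30/MQ/Mu.lean for how the pool
transports points, or define the map by hand on `Affine.Point.some x y h`) from `M` to `F` and, composed with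
`j`, from `M` to `Ω` are injective group homomorphisms. The range `G` of the second one is a finite subgroup
with `Nat.card G = Nat.card (Pc (algebraMap K M A) (algebraMap K M B))`, so the group over `M` has at most `C`
elements. All points of `s` are in the range of the first map (their coordinates are in `M`; nonsingularity
descends: `Affine.map_nonsingular` or the equation with `Affine.nonsingular_iff`/injectivity), so
`s.card ≤ C`, a contradiction.
-/

set_option autoImplicit false
set_option linter.unusedSectionVars false
open scoped Classical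

open WeierstrassCurve NumberField
open H30ZO (Pc)

namespace H36MQ

/-- Points under an embedding of fields. -/
private theorem exists_map {F G : Type} [Field F] [Field G] (f : F →+* G)
    (W W1 : WeierstrassCurve F) (W2 : WeierstrassCurve G) (h1 : W1 = W) (h2 : W2 = W.map f) :
    ∃ φ : W1.toAffine.Point →+ W2.toAffine.Point, Function.Injective φ ∧
      ∀ (x y : F) (h : W2.toAffine.Nonsingular (f x) (f y)),
        ∃ h' : W1.toAffine.Nonsingular x y,
          φ (Affine.Point.some x y h') = Affine.Point.some (f x) (f y) h := by
  let _ : Algebra F G := f.toAlgebra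
  have e1 : W.baseChange F = W := by
    ext <;> rfl
  obtain rfl : W1 = W.baseChange F := h1.trans e1.symm
  obtain rfl : W2 = W.baseChange G := h2
  refine ⟨Affine.Point.map (W' := W.toAffine) (Algebra.ofId F G), Affine.Point.map_injective _,
    fun x y h => ?_⟩
  have h' : (W.baseChange F).toAffine.Nonsingular x y :=
    (W.toAffine.baseChange_nonsingular (f := Algebra.ofId F G) (RingHom.injective f) x y).1 h
  exact ⟨h', Affine.Point.map_some _ h'⟩

/-- The coordinates. -/
private noncomputable def xc {F : Type} [Field F] {A B : F} : Pc A B → F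
  | 0 => 0
  | .some x _ _ => x

private noncomputable def yc {F : Type} [Field F] {A B : F} : Pc A B → F
  | 0 => 0
  | .some _ y _ => y

private theorem card_core {K F Ω M : Type} [Field K] [Field F] [Algebra K F] [Field Ω]
    [Algebra K Ω] (j : F →ₐ[K] Ω) {A B : K} {C : ℕ}
    (hC : ∀ G : AddSubgroup (Pc (algebraMap K Ω A) (algebraMap K Ω B)), Finite G → Nat.card G ≤ C)
    [Field M] [Algebra K M] [Algebra M F] [IsScalarTower K M F]
    (hfin : Finite (Pc (algebraMap K M A) (algebraMap K M B)))
    (s : Finset (Pc (algebraMap K F A) (algebraMap K F B)))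
    (hs : ∀ P ∈ s, ∃ x y : M, algebraMap M F x = xc P ∧ algebraMap M F y = yc P) :
    s.card ≤ C := by
  obtain ⟨φ, hφ1, hφ2⟩ := exists_map (algebraMap M F)
    ⟨0, 0, 0, algebraMap K M A, algebraMap K M B⟩ _
    ⟨0, 0, 0, algebraMap K F A, algebraMap K F B⟩ rfl (by
      ext <;> simp [← IsScalarTower.algebraMap_apply K M F])
  obtain ⟨ψ, hψ1, -⟩ := exists_map (j : F →+* Ω)
    ⟨0, 0, 0, algebraMap K F A, algebraMap K F B⟩ _
    ⟨0, 0, 0, algebraMap K Ω A, algebraMap K Ω B⟩ rfl (by ext <;> simp)
  have hinj : Function.Injective (ψ.comp φ) := hψ1.comp hφ1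
  have hfG : Finite (ψ.comp φ).range := Finite.of_surjective _ (ψ.comp φ).rangeRestrict_surjective
  have hc := hC (ψ.comp φ).range hfG
  rw [← Nat.card_congr (AddMonoidHom.ofInjective hinj).toEquiv] at hc
  have hsub : (s : Set (Pc (algebraMap K F A) (algebraMap K F B))) ⊆ Set.range φ := by
    intro P hP
    obtain ⟨x', y', hx, hy⟩ := hs P hP
    rcases P with _ | ⟨x, y, h⟩
    · exact ⟨0, map_zero φ⟩
    · obtain rfl : algebraMap M F x' = x := hx
      obtain rfl : algebraMap M F y' = y := hy
      obtain ⟨h', e⟩ := hφ2 x' y' h
      exact ⟨_, e⟩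
  have h3 : s.card ≤ Nat.card (Set.range φ) := by
    rw [← Set.ncard_coe_finset]
    exact Set.ncard_le_ncard hsub (Set.finite_range φ)
  have h4 := Finite.card_range_le φ
  omega

/-- A union of bounded finite groups. -/
theorem fin_union {K F Ω : Type} [Field K] [NumberField K] [Field F] [Algebra K F]
    [Algebra.IsAlgebraic K F] [Field Ω] [Algebra K Ω] (j : F →ₐ[K] Ω) {A B : K} {C : ℕ}
    (hC : ∀ G : AddSubgroup (Pc (algebraMap K Ω A) (algebraMap K Ω B)), Finite G → Nat.card G ≤ C)
    (hM : ∀ (M : Type) [Field M] [NumberField M] [Algebra K M] [Algebra M F] [IsScalarTower K M F],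
      Finite (Pc (algebraMap K M A) (algebraMap K M B))) :
    Finite (Pc (algebraMap K F A) (algebraMap K F B)) := by
  by_contra hinf
  have hinf' : Infinite (Pc (algebraMap K F A) (algebraMap K F B)) := not_finite_iff_infinite.1 hinf
  obtain ⟨s, hs⟩ := Infinite.exists_subset_card_eq (Pc (algebraMap K F A) (algebraMap K F B))
    (C + 1)
  obtain ⟨X, hX⟩ : ∃ X : Finset F, X = s.image xc ∪ s.image yc := ⟨_, rfl⟩
  have hfd : FiniteDimensional K (IntermediateField.adjoin K (X : Set F)) :=
    IntermediateField.finiteDimensional_adjoin fun x _ => Algebra.IsIntegral.isIntegral x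
  have hnf : NumberField (IntermediateField.adjoin K (X : Set F)) :=
    NumberField.of_module_finite K _
  have h := card_core (M := IntermediateField.adjoin K (X : Set F)) j hC (hM _) s fun P hP =>
    ⟨⟨xc P, IntermediateField.subset_adjoin K _ (by
        rw [hX, Finset.mem_coe, Finset.mem_union]
        exact Or.inl (Finset.mem_image_of_mem _ hP))⟩,
      ⟨yc P, IntermediateField.subset_adjoin K _ (by
        rw [hX, Finset.mem_coe, Finset.mem_union]
        exact Or.inr (Finset.mem_image_of_mem _ hP))⟩, rfl, rfl⟩
  omega

end H36MQ
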