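import Pool.Agent.H36.MQ.Tw
import Pool.Agent.H36.MQ.Tf
import Pool.Agent.H36.MQ.Tt
import Pool.Agent.H36.MQ.Tu
import Pool.Agent.H36.MQ.Tk
import Pool.Agent.H76.PP.Ta
import Pool.Agent.H36.CY.Vl

/-!
MP_78d38b_MQ (helper36), infinite towers: the infinite multiquadratic extensions.
-/

set_option autoImplicit false
set_option linter.unusedSectionVars false
open scoped Classical

open WithZero NumberField IsDedekindDomain H38RT WeierstrassCurve Pool.Agent.H10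
open H38T1 (SC sc)
open H30ZO (Tv Pc)
open H38MR (Nr Dl)
open H76PP (dn)

namespace H36MQ

variable {K : Type} [Field K] [NumberField K]

theorem exists_notin {X : Set (HeightOneSpectrum (𝓞 K))} (hX : X.Finite) : ∃ v, v ∉ X := by
  by_contra h
  push_neg at h
  have hfin : Finite (HeightOneSpectrum (𝓞 K)) := by
    rw [← Set.finite_univ_iff]
    exact hX.subset fun v _ => h v
  have h1 : Function.Surjective fun w : HeightOneSpectrum (𝓞 K) => dn ℚ w := fun v =>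
    H76PP.exists_above v
  have h2 : Finite (HeightOneSpectrum (𝓞 ℚ)) := Finite.of_surjective _ h1
  have h3 : Finite Nat.Primes := Finite.of_equiv _ (Rat.HeightOneSpectrum.primesEquiv (R := 𝓞 ℚ))
  exact not_finite Nat.Primes

/-- The group generated by `Δ` and the `e n`. -/
def Gam (Δ : Set K) (e : ℕ → K) : Set K :=
  {x | x ≠ 0 ∧ ∃ d ∈ Δ, ∃ I : Finset ℕ, IsSquare (x * (d * ∏ i ∈ I, e i))}

variable {Δ : Set K} {e : ℕ → K}

theorem gam_mul (hΔ : ∀ x ∈ Δ, ∀ y ∈ Δ, x * y ∈ Δ) (he : ∀ n, e n ≠ 0) {x y : K}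
    (hx : x ∈ Gam Δ e) (hy : y ∈ Gam Δ e) : x * y ∈ Gam Δ e := by
  obtain ⟨hx0, d, hd, I, r, hr⟩ := hx
  obtain ⟨hy0, d', hd', I', r', hr'⟩ := hy
  have hq : ∀ J : Finset ℕ, ∏ i ∈ J, e i ≠ 0 := fun J => Finset.prod_ne_zero_iff.2 fun i _ => he i
  refine ⟨mul_ne_zero hx0 hy0, d * d', hΔ d hd d' hd', (I ∪ I') \ (I ∩ I'),
    r * r' / ∏ i ∈ I ∩ I', e i, ?_⟩
  have h1 := Finset.prod_union_inter (s₁ := I) (s₂ := I') (f := e)
  have h2 := Finset.prod_sdiff (f := e)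
    (Finset.inter_subset_left.trans Finset.subset_union_left : I ∩ I' ⊆ I ∪ I')
  have h3 := hq (I ∩ I')
  field_simp
  rw [← h2] at h1
  linear_combination (d * d' * x * y) * h1 + (r' * r') * hr + (x * (d * ∏ i ∈ I, e i)) * hr'

theorem gam_one (h1 : (1 : K) ∈ Δ) : (1 : K) ∈ Gam Δ e :=
  ⟨one_ne_zero, 1, h1, ∅, 1, by simp⟩

theorem gam_of (h0 : ∀ d ∈ Δ, d ≠ 0) {d : K} (hd : d ∈ Δ) : d ∈ Gam Δ e :=
  ⟨h0 d hd, d, hd, ∅, d, by simp⟩

theorem gam_e (h1 : (1 : K) ∈ Δ) (he : ∀ n, e n ≠ 0) (n : ℕ) : e n ∈ Gam Δ e :=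
  ⟨he n, 1, h1, {n}, e n, by simp⟩

/-- Elements near to one. -/
theorem nr_prod_one {S : Finset (HeightOneSpectrum (𝓞 K))} (I : Finset ℕ)
    (h : ∀ i ∈ I, Nr S 1 (e i)) : Nr S 1 (∏ i ∈ I, e i) := by
  have h1 := nr_prod (S := S) (D0 := 1) (D := 1) one_ne_zero
    ⟨one_ne_zero, fun v _ => by rw [div_one, map_one]; exact ⟨1, (one_mul 1).symm⟩,
      fun s => by rw [div_one, map_one]; exact one_pos⟩ I h
  rwa [one_mul] at h1

theorem gam_near {S : Finset (HeightOneSpectrum (𝓞 K))} (he : ∀ n, Nr S 1 (e n))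
    (h0 : ∀ d ∈ Δ, d ≠ 0) {x : K} (hx : x ∈ Gam Δ e) : ∃ d ∈ Δ, Nr S d x := by
  obtain ⟨hx0, d, hd, I, r, hr⟩ := hx
  have hd0 := h0 d hd
  have h1 := nr_prod_one (S := S) I fun i _ => he i
  have hp0 := h1.1
  obtain ⟨P, hP⟩ : ∃ P, P = ∏ i ∈ I, e i := ⟨_, rfl⟩
  rw [← hP] at h1 hp0 hr
  have e1 : x / d = (r / (d * P)) * (r / (d * P)) * (P / 1) := by
    field_simp
    linear_combination hr
  have hr0 : r ≠ 0 := by
    rintro rfl
    rw [mul_zero] at hr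
    exact mul_ne_zero hx0 (mul_ne_zero hd0 hp0) hr
  refine ⟨d, hd, hx0, fun v hv => ?_, fun s => ?_⟩
  · rw [e1, map_mul, map_mul]
    exact (IsSquare.mul_self _).mul (h1.2.1 v hv)
  · rw [e1, map_mul, map_mul]
    have h2 : s (r / (d * P)) ≠ 0 := (map_ne_zero s).2 (div_ne_zero hr0 (mul_ne_zero hd0 hp0))
    exact mul_pos (mul_self_pos.2 h2) (h1.2.2 s)

/-- The field generated by the square roots of a group is Galois of exponent two. -/
theorem adj_galois {Ω : Type} [Field Ω] [Algebra K Ω] [IsGalois K Ω] (Γ : Set K) :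
    IsGalois K (IntermediateField.adjoin K {s : Ω | ∃ x ∈ Γ, s ^ 2 = algebraMap K Ω x}) ∧
      ∀ g : (IntermediateField.adjoin K {s : Ω | ∃ x ∈ Γ, s ^ 2 = algebraMap K Ω x}) ≃ₐ[K]
        (IntermediateField.adjoin K {s : Ω | ∃ x ∈ Γ, s ^ 2 = algebraMap K Ω x}), g * g = 1 := by
  constructor
  · have hn : Normal K (IntermediateField.adjoin K {s : Ω | ∃ x ∈ Γ, s ^ 2 = algebraMap K Ω x}) := by
      rw [IntermediateField.normal_iff_forall_map_le]
      intro σ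
      rw [IntermediateField.adjoin_map]
      apply IntermediateField.adjoin_le_iff.2
      rintro _ ⟨s, ⟨x, hx, hs⟩, rfl⟩
      refine IntermediateField.subset_adjoin K _ ⟨x, hx, ?_⟩
      rw [← map_pow, hs, AlgHom.commutes]
    exact ⟨⟩
  · intro g
    have h1 : (g * g).toAlgHom = AlgHom.id K _ := by
      apply IntermediateField.algHom_ext_of_eq_adjoin _ rfl
      rintro s ⟨x, hx, hs⟩
      obtain ⟨t, ht⟩ : ∃ t : (IntermediateField.adjoin K
        {s : Ω | ∃ x ∈ Γ, s ^ 2 = algebraMap K Ω x}), t = ⟨s,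
          IntermediateField.subset_adjoin K _ ⟨x, hx, hs⟩⟩ := ⟨_, rfl⟩
      have h2 : t ^ 2 = algebraMap K _ x := by
        rw [ht]
        exact Subtype.ext hs
      have h3 : (g t) ^ 2 = t ^ 2 := by
        rw [← map_pow, h2, AlgEquiv.commutes]
      change g (g ⟨s, _⟩) = ⟨s, _⟩
      rw [← ht]
      rcases sq_eq_sq_iff_eq_or_eq_neg.1 h3 with h4 | h4
      · rw [h4, h4]
      · rw [h4, map_neg, h4, neg_neg]
    apply AlgEquiv.ext
    intro y
    exact congrArg (fun φ : _ →ₐ[K] _ => φ y) h1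

end H36MQ
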