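import Pool.Agent.H38.OD.Nb
import Pool.Agent.H36.O2.Oi
import Pool.Agent.H30.ZO.Ni
import Pool.Agent.H30.MQ.Mu
import Pool.Agent.H36.MG.Gt

/-!
MP_78d38b_MQ (helper36), infinite towers: trivial Selmer groups over the number fields in a Galois
extension with layers of two-power degree.
-/

set_option autoImplicit false
set_option linter.unusedSectionVars false
open scoped Classical

open WithZero NumberField IsDedekindDomain H38RT WeierstrassCurve Pool.Agent.H10
open H38T1 (SC sc scu rep eo la si Pri OddP tp unif)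
open H76PP H73P2 H36CY H73CY H73ZO H30ZO

namespace H36MQ

/-- The local conditions descend at the primes where the cubic has no root. -/
theorem descAt_nr {K N : Type} [Field K] [NumberField K] [Field N] [NumberField N]
    [Algebra K N] {r : ℕ} (hr : Module.finrank K N = 2 ^ r) [IsGalois K N]
    {v : HeightOneSpectrum (𝓞 K)} (h2 : v.valuation K 2 = 1) {a b : K}
    (hd : 4 * a ^ 3 + 27 * b ^ 2 ≠ 0)
    (hirr : ∀ t : K, t ^ 3 + a * t + b ≠ 0) (hn : NoRootAt v a b) (ha : v.valuation K a ≤ 1)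
    (hb : v.valuation K b ≤ 1) : DescAt K N v a b := by
  intro k k' _ _ _ _ _ _ _ _ _ _ _ _ _ _ d hd0 hsq _ u hu
  subst hu
  have _ : FiniteDimensional K N := Module.Finite.of_restrictScalars_finite ℚ K N
  have h3 := H36O2.Oi_up (N := N) hr _ k rfl u hn
  obtain ⟨L, _, _, _, t, hL2⟩ := H24PD.exists_cub (K := k)
    (H73P2.noroot (K := K) (N := N) (k := k) hr hirr)
  have hnb := H36O2.Oi_nb hL2 h3
  obtain ⟨a', ha'⟩ : ∃ a' : k, a' = algebraMap K k a := ⟨_, rfl⟩
  obtain ⟨b', hb'⟩ : ∃ b' : k, b' = algebraMap K k b := ⟨_, rfl⟩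
  have hua : u.valuation k a' ≤ 1 := by
    rw [ha']
    exact val_le ha
  have hub : u.valuation k b' ≤ 1 := by
    rw [hb']
    exact val_le hb
  have hdd : 4 * a' ^ 3 + 27 * b' ^ 2 ≠ 0 := by
    have e : 4 * a' ^ 3 + 27 * b' ^ 2 = algebraMap K k (4 * a ^ 3 + 27 * b ^ 2) := by
      rw [ha', hb']
      simp only [map_mul, map_pow, map_add, map_ofNat]
    rw [e]
    exact (map_ne_zero _).2 hd
  rw [← ha', ← hb'] at hL2 hd0 hsq ⊢
  have _ : CharZero (u.adicCompletion k) := H36CY.char_zero u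
  obtain ⟨i, hi⟩ : ∃ i : k →+* u.adicCompletion k, i = algebraMap k (u.adicCompletion k) := ⟨_, rfl⟩
  have hD' : 4 * i a' ^ 3 + 27 * i b' ^ 2 ≠ 0 := by
    have e : 4 * i a' ^ 3 + 27 * i b' ^ 2 = i (4 * a' ^ 3 + 27 * b' ^ 2) := by
      simp only [map_add, map_mul, map_pow, map_ofNat]
    rw [e, Ne, map_eq_zero]
    exact hdd
  obtain ⟨W, hW⟩ := H30ZO.exists_WW hL2 i hD' (H24PD.inf_fin u (i a') (i b'))
  rw [hi] at hW
  obtain ⟨hi0, hi1⟩ := H30ZO.loc_idx hL2 u hua hub hdd hW
  have hq : H30ZO.qq u = 1 := by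
    apply H30ZO.qq_odd
    have := val_one (w := u) h2
    rw [map_ofNat] at this
    exact this
  rw [hq, mul_one] at hi1
  have h2n : 2 ^ H30ZO.nb k L u ≤ 2 ^ 1 := Nat.pow_le_pow_right (by norm_num) hnb
  have hidx : W.relIndex (H30ZO.HH k L) = 1 := by omega
  have hle := AddSubgroup.relIndex_eq_one.1 hidx
  have hne : ev t d ≠ 0 := by
    intro h0
    apply hd0
    rw [← Te_norm hL2, h0]
    have _ : FiniteDimensional k L := Module.Finite.of_restrictScalars_finite ℚ k L
    exact Algebra.norm_zero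
  have hmem : H38T1.sc (ev t d) ∈ H30ZO.HH k L := by
    rw [H30ZO.mem_HH hne, Te_norm hL2]
    exact hsq
  exact (H30ZO.Wc_iff _ hL2 hne).1 ((hW _).1 (hle hmem)).2

/-- The admissible extensions: `L / K` is Galois with layers of two-power degree, the real places with
`4 a³ + 27 b² ≤ 0` and the primes of `S` split completely, and `x³ + A x + B` has no root modulo the
other ramified primes. -/
structure Adm (K L : Type) [Field K] [NumberField K] [Field L] [Algebra K L]
    (S : Finset (HeightOneSpectrum (𝓞 K))) (A B : 𝓞 K) : Prop where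
  gal : IsGalois K L
  deg : ∀ (N : IntermediateField K L) [NumberField N], IsGalois K N →
    ∃ r : ℕ, Module.finrank K N = 2 ^ r
  real : ∀ s : K →+* ℝ, s (4 * (A : K) ^ 3 + 27 * (B : K) ^ 2) ≤ 0 →
    ∃ i : L →+* ℝ, ∀ x, i (algebraMap K L x) = s x
  split : ∀ v ∈ S, ∃ i : L →+* v.adicCompletion K, ∀ x : K,
    i (algebraMap K L x) = algebraMap K (v.adicCompletion K) x
  ram : ∀ v, RamF K L v → v ∉ S → H30PN.NoRt K v A B

/-- The real places. -/
theorem real_ext {K N : Type} [Field K] [NumberField K] [Field N] [NumberField N] [Algebra K N]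
    [IsGalois K N] {a b : K}
    (h : ∀ s : K →+* ℝ, s (4 * a ^ 3 + 27 * b ^ 2) ≤ 0 → ∃ i : N →+* ℝ, ∀ x,
      i (algebraMap K N x) = s x) : RealAt K N a b := by
  intro k k' _ _ _ _ _ _ _ _ _ _ _ _ _ _ s
  rcases lt_or_ge 0 (s (algebraMap K k (4 * a ^ 3 + 27 * b ^ 2))) with h0 | h0
  · exact Or.inl h0
  · right
    obtain ⟨i, hi⟩ := h (s.comp (algebraMap K k)) h0
    let ψ : N →+* ℂ := Complex.ofRealHom.comp i
    let _ : Algebra K ℂ := (ψ.comp (algebraMap K N)).toAlgebra
    let _ : Algebra N ℂ := ψ.toAlgebra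
    have _ : IsScalarTower K N ℂ := IsScalarTower.of_algebraMap_eq fun x => rfl
    let _ : Algebra k ℂ := (Complex.ofRealHom.comp s).toAlgebra
    have hKk : ∀ x : K, algebraMap k ℂ (algebraMap K k x) = algebraMap K ℂ x := by
      intro x
      change Complex.ofRealHom (s (algebraMap K k x)) = Complex.ofRealHom (i (algebraMap K N x))
      rw [hi]
      rfl
    have _ : FiniteDimensional k N := Module.Finite.of_restrictScalars_finite ℚ k N
    obtain ⟨φ⟩ : Nonempty (N →ₐ[k] ℂ) := ⟨IsAlgClosed.lift⟩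
    let φK : N →ₐ[K] ℂ := { (φ : N →+* ℂ) with
      commutes' := fun x => by
        change φ (algebraMap K N x) = algebraMap K ℂ x
        rw [IsScalarTower.algebraMap_apply K k N, φ.commutes, hKk] }
    obtain ⟨g, hg⟩ : ∃ g : N →ₐ[K] N, ∀ x : N, ψ (g x) = φ x :=
      ⟨φK.restrictNormal N, fun x => AlgHom.restrictNormal_commutes φK N x⟩
    refine ⟨i.comp ((g : N →+* N).comp (algebraMap k' N)), fun x => ?_⟩
    have h1 := hg (algebraMap k' N (algebraMap k k' x))
    rw [← IsScalarTower.algebraMap_apply k k' N, φ.commutes] at h1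
    have h2 : Complex.ofRealHom (i (g (algebraMap k N x))) = Complex.ofRealHom (s x) := h1
    change i (g (algebraMap k' N (algebraMap k k' x))) = s x
    rw [← IsScalarTower.algebraMap_apply k k' N]
    exact Complex.ofReal_injective h2

/-- **Trivial groups over the number fields in an admissible extension.** -/
theorem tv_adm {K L : Type} [Field K] [NumberField K] [Field L] [Algebra K L]
    {S : Finset (HeightOneSpectrum (𝓞 K))} {A B : 𝓞 K} (hL : Adm K L S A B)
    (hirr : ∀ t : K, t ^ 3 + (A : K) * t + (B : K) ≠ 0)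
    (hne : 4 * (A : K) ^ 3 + 27 * (B : K) ^ 2 ≠ 0) {D : K} (hD : D ≠ 0)
    (hS : ∀ v : HeightOneSpectrum (𝓞 K), v ∉ S → v.valuation K 2 = 1 ∧
      v.valuation K (4 * (A : K) ^ 3 + 27 * (B : K) ^ 2) = 1 ∧ v.valuation K D = 1)
    (htv : Tv K (D ^ 2 * (A : K)) (D ^ 3 * (B : K))) (M : Type) [Field M] [NumberField M]
    [Algebra K M] (f : M →ₐ[K] L) :
    Tv M (algebraMap K M (D ^ 2 * (A : K))) (algebraMap K M (D ^ 3 * (B : K))) := by
  have hgal := hL.gal
  let _ : Algebra M L := f.toRingHom.toAlgebra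
  have _ : IsScalarTower K M L := IsScalarTower.of_algebraMap_eq fun x => (f.commutes x).symm
  obtain ⟨N, hN, hNg, ⟨g⟩⟩ : ∃ (N : IntermediateField K L) (_ : NumberField N),
      IsGalois K N ∧ Nonempty (M →ₐ[K] N) := by
    let M' : IntermediateField K L := f.fieldRange
    let e : M ≃ₐ[K] M' := AlgEquiv.ofInjectiveField f
    have _ : NumberField M' := NumberField.of_ringEquiv _ _ e.toRingEquiv
    obtain ⟨N, hN, hNg, hMN, -⟩ := H30CY.exists_big M' (∅ : Finset ℕ) (fun _ => ⊥)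
      fun v hv => absurd hv (Finset.notMem_empty v)
    exact ⟨N, hN, hNg, ⟨(IntermediateField.inclusion hMN).comp e.toAlgHom⟩⟩
  obtain ⟨r, hr⟩ := hL.deg N hNg
  let _ : Algebra M N := (g : M →+* N).toAlgebra
  have _ : IsScalarTower K M N := IsScalarTower.of_algebraMap_eq fun x => (g.commutes x).symm
  have hd : 4 * (D ^ 2 * (A : K)) ^ 3 + 27 * (D ^ 3 * (B : K)) ^ 2 ≠ 0 := by
    have e : 4 * (D ^ 2 * (A : K)) ^ 3 + 27 * (D ^ 3 * (B : K)) ^ 2 =
        D ^ 6 * (4 * (A : K) ^ 3 + 27 * (B : K) ^ 2) := by ring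
    rw [e]
    exact mul_ne_zero (pow_ne_zero 6 hD) hne
  obtain ⟨R, hR⟩ : ∃ R : Finset (HeightOneSpectrum (𝓞 K)), R =
    (H30PN.ram_fin K N).toFinset.image (dn K) := ⟨_, rfl⟩
  have hint : ∀ v : HeightOneSpectrum (𝓞 K), v ∉ S → v.valuation K (D ^ 2 * (A : K)) ≤ 1 ∧
      v.valuation K (D ^ 3 * (B : K)) ≤ 1 := by
    intro v hv
    obtain ⟨-, -, h3⟩ := hS v hv
    rw [map_mul, map_mul, map_pow, map_pow, h3, one_pow, one_pow, one_mul, one_mul]
    exact ⟨v.valuation_le_one A, v.valuation_le_one B⟩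
  have key := H38OD.tv_up (K := K) (F := K) (N := N) hr hd (Sg := S ∪ R) (fun v hv => ?_)
    (fun V hV hR' => ?_) (H38OD.realAt_twist hD (real_ext fun s hs => ?_)) (fun v hv => ?_)
    htv M
  · exact key
  · rw [Finset.mem_union, not_or] at hv
    obtain ⟨h1, h2, h3⟩ := hS v hv.1
    refine ⟨h1, (hint v hv.1).1, (hint v hv.1).2, ?_⟩
    have e : 4 * (D ^ 2 * (A : K)) ^ 3 + 27 * (D ^ 3 * (B : K)) ^ 2 =
        D ^ 6 * (4 * (A : K) ^ 3 + 27 * (B : K) ^ 2) := by ring
    rw [e, map_mul, map_pow, h3, h2, one_pow, one_mul]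
  · apply hV
    rw [Finset.mem_union, hR, Finset.mem_image]
    exact Or.inr ⟨V, (H30PN.ram_fin K N).mem_toFinset.2 hR', rfl⟩
  · obtain ⟨i, hi⟩ := hL.real s hs
    exact ⟨i.comp N.val.toRingHom, fun x => hi x⟩
  · by_cases hvS : v ∈ S
    · obtain ⟨i, hi⟩ := hL.split v hvS
      exact descAt_split ⟨i.comp N.val.toRingHom, fun x => hi x⟩ _ _
    · have hv' : v ∈ R := (Finset.mem_union.1 hv).resolve_left hvS
      rw [hR, Finset.mem_image] at hv'
      obtain ⟨V, hV, rfl⟩ := hv'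
      have hnr := hL.ram (dn K V) ⟨N, hN, V, rfl, (H30PN.ram_fin K N).mem_toFinset.1 hV⟩ hvS
      obtain ⟨h1, h2, h3⟩ := hS _ hvS
      refine descAt_nr hr h1 hd ?_ (H30PN.noroot_of hD hnr ?_) (hint _ hvS).1 (hint _ hvS).2
      · intro t ht
        apply hirr (t / D)
        have e : (t / D) ^ 3 + (A : K) * (t / D) + (B : K) =
            (t ^ 3 + D ^ 2 * (A : K) * t + D ^ 3 * (B : K)) / D ^ 3 := by
          field_simp
        rw [e, ht, zero_div]
      · have : H38RT.ord ((dn K V).valuation K) D = 0 := by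
          unfold H38RT.ord
          rw [h3]
          simp
        rw [this]
        exact Even.zero

end H36MQ
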