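import Pool.Agent.H36.MQ.Ud
import Pool.Agent.H36.MQ.Ua
import Pool.Agent.H36.MQ.Tx
import Pool.Agent.H73.P2.Wf
import Pool.Agent.H38.MR.Ga

/-!
MP_78d38b_MQ (helper36), infinite towers: infinite multiquadratic admissible extensions exist.
-/

set_option autoImplicit false
set_option linter.unusedSectionVars false
open scoped Classical

open WithZero NumberField IsDedekindDomain H38RT WeierstrassCurve Pool.Agent.H10
open H38T1 (SC sc la si OddP)
open H76PP (dn)
open H73P2 (mq Ram)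
open H30ZO (RamF)

namespace H36MQ

variable {K : Type} [Field K] [NumberField K]

theorem pos_of_si (t : K →+* ℝ) {x : K} (hx : x ≠ 0) (h : si t (sc x) = 0) : 0 < t x := by
  rw [H38T1.si_sc t hx, H38RT.sw] at h
  by_contra hc
  have h1 : t x < 0 := lt_of_le_of_ne (not_lt.1 hc) ((map_ne_zero t).2 hx)
  rw [if_pos h1] at h
  exact one_ne_zero h

/-- A map of the field generated by square roots. -/
theorem exists_homG {Ω Θ : Type} [Field Ω] [Algebra K Ω] [IsGalois K Ω] [Field Θ] [Algebra K Θ]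
    {Γ : Set K} (h : ∀ x ∈ Γ, IsSquare (algebraMap K Θ x)) :
    Nonempty (IntermediateField.adjoin K {s : Ω | ∃ x ∈ Γ, s ^ 2 = algebraMap K Ω x} →ₐ[K] Θ) := by
  apply IntermediateField.nonempty_algHom_adjoin_of_splits
  rintro s ⟨x, hx, hs⟩
  obtain ⟨y, hy⟩ := h x hx
  refine ⟨Algebra.IsIntegral.isIntegral s, ?_⟩
  have h1 : minpoly K s ∣ Polynomial.X ^ 2 - Polynomial.C x := by
    apply minpoly.dvd
    rw [map_sub, map_pow, Polynomial.aeval_X, Polynomial.aeval_C, hs, sub_self]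
  have h2 : (Polynomial.X ^ 2 - Polynomial.C x).map (algebraMap K Θ) =
      (Polynomial.X - Polynomial.C y) * (Polynomial.X - Polynomial.C (-y)) := by
    rw [Polynomial.map_sub, Polynomial.map_pow, Polynomial.map_X, Polynomial.map_C, hy, map_mul,
      map_neg]
    ring
  have h3 : ((Polynomial.X ^ 2 - Polynomial.C x).map (algebraMap K Θ)).Splits := by
    rw [h2]
    exact (Polynomial.Splits.X_sub_C y).mul (Polynomial.Splits.X_sub_C (-y))
  refine h3.of_dvd ?_ (Polynomial.map_dvd _ h1)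
  rw [h2]
  exact mul_ne_zero (Polynomial.X_sub_C_ne_zero y) (Polynomial.X_sub_C_ne_zero (-y))

/-- The properties of the generators. -/
structure GenOk (Sg : Finset (HeightOneSpectrum (𝓞 K))) (A B : 𝓞 K)
    (q : HeightOneSpectrum (𝓞 K)) (δ : K) : Prop where
  nq : q ∉ Sg
  nr : ∀ t : 𝓞 K, t ^ 3 + A * t + B ∉ q.asIdeal
  ne : δ ≠ 0
  ord : ord (q.valuation K) δ = 1
  unit : ∀ u : HeightOneSpectrum (𝓞 K), u ≠ q → u ∉ Sg → u.valuation K δ = 1
  sq : ∀ u ∈ Sg, IsSquare (algebraMap K (u.adicCompletion K) δ)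
  pos : ∀ s : K →+* ℝ, 0 < s δ

theorem exists_gen {A B : 𝓞 K} (hir : ∀ t : K, t ^ 3 + (A : K) * t + (B : K) ≠ 0)
    (hsq : ¬ IsSquare (-(4 * (A : K) ^ 3 + 27 * (B : K) ^ 2)))
    {Sg : Finset (HeightOneSpectrum (𝓞 K))}
    (h2 : ∀ v : HeightOneSpectrum (𝓞 K), v ∉ Sg → v.valuation K 2 = 1) (hcl : H88OD.ClOk K Sg)
    {X : Set (HeightOneSpectrum (𝓞 K))} (hX : X.Finite) :
    ∃ q δ, q ∉ X ∧ GenOk Sg A B q δ := by
  have hne : 4 * (A : K) ^ 3 + 27 * (B : K) ^ 2 ≠ 0 := by
    intro h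
    apply hsq
    rw [h, neg_zero]
    exact ⟨0, (mul_zero 0).symm⟩
  obtain ⟨L, _, _, _, θ, ⟨S⟩⟩ := H88OD.exists_self (fun v => v.valuation_le_one A)
    (fun v => v.valuation_le_one B) hir hne hsq
  obtain ⟨q, hq, hnr, hla⟩ := exists_three_nr S 0 rfl (H38MR.fin_US Sg)
    (hX.union (Finset.finite_toSet Sg))
  have hqS : q ∉ Sg := fun h => hq (Or.inr h)
  obtain ⟨δ, h3, h4, h5, h6, h7⟩ := H88OD.exists_delta h2 hcl {q} (fun u hu => by
    rw [Finset.mem_singleton.1 hu]
    exact hqS) (fun _ => 0) (fun β hβ => by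
    rw [Finset.sum_singleton, hla β hβ]
    simp)
  refine ⟨q, δ, fun h => hq (Or.inl h), hqS, hnr, h3, h4 q (Finset.mem_singleton_self q),
    fun u hu huS => h5 u (fun h => hu (Finset.mem_singleton.1 h)) huS, h6, fun s => ?_⟩
  exact pos_of_si s h3 (h7 s)

theorem exists_genseq {A B : 𝓞 K} (hir : ∀ t : K, t ^ 3 + (A : K) * t + (B : K) ≠ 0)
    (hsq : ¬ IsSquare (-(4 * (A : K) ^ 3 + 27 * (B : K) ^ 2)))
    {Sg : Finset (HeightOneSpectrum (𝓞 K))}
    (h2 : ∀ v : HeightOneSpectrum (𝓞 K), v ∉ Sg → v.valuation K 2 = 1) (hcl : H88OD.ClOk K Sg) :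
    ∃ (q : ℕ → HeightOneSpectrum (𝓞 K)) (e : ℕ → K), (∀ n, GenOk Sg A B (q n) (e n)) ∧
      ∀ m n, q m = q n → m = n := by
  obtain ⟨f, h3, h4⟩ := exists_seq_of_forall_finset_exists
    (fun x : HeightOneSpectrum (𝓞 K) × K => GenOk Sg A B x.1 x.2) (fun x y => x.1 ≠ y.1) (by
      intro s _
      obtain ⟨q, δ, h5, h6⟩ := exists_gen hir hsq h2 hcl
        (s.finite_toSet.image Prod.fst)
      exact ⟨(q, δ), h6, fun x hx h => h5 ⟨x, hx, h⟩⟩)
  refine ⟨fun n => (f n).1, fun n => (f n).2, h3, fun m n h => ?_⟩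
  rcases lt_trichotomy m n with h5 | h5 | h5
  · exact absurd h (h4 m n h5)
  · exact h5
  · exact absurd h.symm (h4 n m h5)

/-- Unramified places. -/
theorem mq_ram {Sg : Finset (HeightOneSpectrum (𝓞 K))}
    (h2 : ∀ v : HeightOneSpectrum (𝓞 K), v ∉ Sg → v.valuation K 2 = 1) {I : Set K}
    {v : HeightOneSpectrum (𝓞 K)} (hv : v ∉ Sg) (hI : ∀ x ∈ I, v.valuation K x = 1) :
    ¬ RamF K (mq K I) v := by
  rintro ⟨N, _, V, hV, hR⟩
  subst hV
  have hfd : FiniteDimensional K N := Module.Finite.of_restrictScalars_finite ℚ K N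
  obtain ⟨α, hα⟩ := Field.exists_primitive_element K N
  have hx : ((α : mq K I) : AlgebraicClosure K) ∈ IntermediateField.adjoin K
      {x | ∃ D ∈ I, x ^ 2 = algebraMap K (AlgebraicClosure K) D} := (α : mq K I).2
  obtain ⟨T, hT, hαT⟩ := IntermediateField.exists_finset_of_mem_adjoin hx
  obtain ⟨J, hJ⟩ : ∃ J : Set K, J = {x | x ∈ I ∧ ∃ t ∈ T,
    t ^ 2 = algebraMap K (AlgebraicClosure K) x} := ⟨_, rfl⟩
  have hJf : J.Finite := by
    refine Set.Finite.subset ((((T.image fun t => t ^ 2).finite_toSet).preimage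
      (algebraMap K (AlgebraicClosure K)).injective.injOn)) ?_
    rw [hJ]
    rintro x ⟨-, t, ht, hx⟩
    exact Finset.mem_coe.2 (Finset.mem_image.2 ⟨t, ht, hx⟩)
  obtain ⟨hfC, hgC⟩ := H73P2.mq_galois hJf
  have hNC : NumberField (mq K J) := NumberField.of_module_finite K _
  have hTC : IntermediateField.adjoin K (T : Set (AlgebraicClosure K)) ≤ mq K J := by
    rw [IntermediateField.adjoin_le_iff]
    intro t ht
    obtain ⟨x, hx, hxt⟩ := hT ht
    refine IntermediateField.subset_adjoin K _ ⟨x, ?_, hxt⟩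
    rw [hJ]
    exact ⟨hx, t, ht, hxt⟩
  have hNCm : ∀ x : N, ((x : mq K I) : AlgebraicClosure K) ∈ mq K J := by
    intro x
    have h7 : x ∈ IntermediateField.adjoin K {α} := by
      rw [hα]
      exact IntermediateField.mem_top
    have h8 : IntermediateField.adjoin K {α} ≤ (mq K J).comap ((mq K I).val.comp N.val) := by
      rw [IntermediateField.adjoin_simple_le_iff]
      exact hTC hαT
    exact h8 h7
  let g : N →+* mq K J := ((mq K I).val.comp N.val).toRingHom.codRestrict (mq K J).toSubfield hNCm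
  let _ : Algebra N (mq K J) := g.toAlgebra
  have _ : IsScalarTower K N (mq K J) := IsScalarTower.of_algebraMap_eq fun x => by
    apply Subtype.ext
    rfl
  obtain ⟨W, rfl⟩ := H76PP.exists_above (L := mq K J) V
  have h3 : Ram K W := H30ZO.ram_up hR
  refine H73P2.mq_unram hJf W ?_ ?_ h3
  · change (dn K W).valuation K 2 = 1
    rw [← H73P2.dn_dn (K := K) (k := N) W]
    exact h2 _ hv
  · intro x hx
    rw [hJ] at hx
    rw [← H73P2.dn_dn (K := K) (k := N) W]
    exact hI x hx.1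

/-- **Infinite multiquadratic admissible extensions exist.** -/
theorem exists_adm {A B : 𝓞 K} (hir : ∀ t : K, t ^ 3 + (A : K) * t + (B : K) ≠ 0)
    (hsq : ¬ IsSquare (-(4 * (A : K) ^ 3 + 27 * (B : K) ^ 2)))
    {Sg : Finset (HeightOneSpectrum (𝓞 K))}
    (h2 : ∀ v : HeightOneSpectrum (𝓞 K), v ∉ Sg → v.valuation K 2 = 1) (hcl : H88OD.ClOk K Sg) :
    ∃ (L : Type) (_ : Field L) (_ : Algebra K L), Adm K L Sg A B ∧
      (∀ g : L ≃ₐ[K] L, g * g = 1) ∧ ¬ FiniteDimensional K L := by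
  obtain ⟨q, e, he, hq⟩ := exists_genseq hir hsq h2 hcl
  have hGal : IsGalois K (AlgebraicClosure K) := IsAlgClosure.isGalois K _
  obtain ⟨hLG, hL2⟩ : IsGalois K (mq K (Set.range e)) ∧
      ∀ g : mq K (Set.range e) ≃ₐ[K] mq K (Set.range e), g * g = 1 :=
    adj_galois (K := K) (Ω := AlgebraicClosure K) (Set.range e)
  refine ⟨mq K (Set.range e), inferInstance, inferInstance, ?_, hL2, ?_⟩
  · refine ⟨hLG, ?_, ?_, ?_, ?_⟩
    · -- degrees
      intro N _ hN
      have _ : FiniteDimensional K N := Module.Finite.of_restrictScalars_finite ℚ K N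
      rw [← IsGalois.card_aut_eq_finrank K N]
      have : Fact (Nat.Prime 2) := ⟨Nat.prime_two⟩
      apply IsPGroup.iff_card.1
      intro g
      refine ⟨1, ?_⟩
      obtain ⟨g', rfl⟩ := AlgEquiv.restrictNormalHom_surjective (mq K (Set.range e)) g
      rw [pow_one, sq, ← map_mul, hL2, map_one]
    · -- real places
      intro s _
      let _ : Algebra K ℝ := s.toAlgebra
      obtain ⟨i⟩ := exists_homG (K := K) (Ω := AlgebraicClosure K) (Θ := ℝ) (Γ := Set.range e) (by
        rintro _ ⟨n, rfl⟩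
        exact ⟨Real.sqrt (s (e n)), (Real.mul_self_sqrt ((he n).pos s).le).symm⟩)
      exact ⟨i.toRingHom, fun x => i.commutes x⟩
    · -- split primes
      intro v hv
      obtain ⟨i⟩ := exists_homG (K := K) (Ω := AlgebraicClosure K) (Θ := v.adicCompletion K)
        (Γ := Set.range e) (by
        rintro _ ⟨n, rfl⟩
        exact (he n).sq v hv)
      exact ⟨i.toRingHom, fun x => i.commutes x⟩
    · -- ramified primes
      intro v hR hv
      by_contra hno
      refine mq_ram h2 hv ?_ hR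
      rintro _ ⟨n, rfl⟩
      refine (he n).unit v ?_ hv
      rintro rfl
      exact hno (he n).nr
  · -- infinite
    intro hfd
    have hNum : NumberField (mq K (Set.range e)) := NumberField.of_module_finite K _
    have h5 := H38MR.fin_Dl (K := K) (N := mq K (Set.range e))
    refine Set.infinite_of_injective_forall_mem (f := fun n => sc (e n)) ?_ (fun n => ?_) h5
    · intro m n hmn
      replace hmn : sc (e m) = sc (e n) := hmn
      by_contra hne'
      have h6 : IsSquare (e m * e n) := by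
        rw [← H38T1.sc_eq_zero (mul_ne_zero (he m).ne (he n).ne),
          H38T1.sc_mul (he m).ne (he n).ne, hmn, ← two_nsmul, H38T1.SC.two_smul]
      obtain ⟨r, hr⟩ := h6
      have hr0 : r ≠ 0 := by
        rintro rfl
        rw [mul_zero] at hr
        exact mul_ne_zero (he m).ne (he n).ne hr
      have h7 := congrArg (ord ((q m).valuation K)) hr
      rw [ord_mul (he m).ne (he n).ne, ord_mul hr0 hr0, (he m).ord,
        H38MR.ord_one_val ((he n).unit (q m) (fun h => hne' (hq m n h)) (he m).nq)] at h7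
      omega
    · refine ⟨e n, ⟨(he n).ne, ?_⟩, rfl⟩
      obtain ⟨s, hs⟩ := IsAlgClosed.exists_pow_nat_eq (algebraMap K (AlgebraicClosure K) (e n))
        (n := 2) two_pos
      refine ⟨⟨s, IntermediateField.subset_adjoin K _ ⟨e n, ⟨n, rfl⟩, hs⟩⟩, ?_⟩
      apply Subtype.ext
      change algebraMap K (AlgebraicClosure K) (e n) = s * s
      rw [← hs, sq]

end H36MQ
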