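import Pool.Agent.H36.MQ.Uc
import Pool.Agent.H36.MQ.Ue

/-!
MP_78d38b_MQ (helper36), infinite towers: the main theorem, library form.
-/

set_option autoImplicit false
set_option linter.unusedSectionVars false
open scoped Classical

open WithZero NumberField IsDedekindDomain H38RT WeierstrassCurve Pool.Agent.H10
open H30ZO (Tv Pc)
open H38MR (Dl)

namespace H36MQ

variable {K : Type} [Field K] [NumberField K]

/-- **The main theorem on towers**, for all large finite sets `S` of primes. -/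
theorem tower_all {N : Type} [Field N] [NumberField N] [Algebra K N] [IsGalois K N]
    (h2 : ∀ g : N ≃ₐ[K] N, g * g = 1) {A B : 𝓞 K}
    (hir : ∀ t : K, t ^ 3 + (A : K) * t + (B : K) ≠ 0)
    (hsq : ¬ IsSquare (-(4 * (A : K) ^ 3 + 27 * (B : K) ^ 2))) {D : K} (hD : D ≠ 0)
    (H : ∀ d ∈ Dl K N, Tv K ((d * D) ^ 2 * (A : K)) ((d * D) ^ 3 * (B : K))) :
    ∃ S₀ : Finset (HeightOneSpectrum (𝓞 K)), ∀ S, S₀ ⊆ S →
      (∃ (L : Type) (_ : Field L) (_ : Algebra K L), Adm K L S A B ∧
        (∀ g : L ≃ₐ[K] L, g * g = 1) ∧ ¬ FiniteDimensional K L) ∧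
      ∀ (L : Type) [Field L] [Algebra K L], Adm K L S A B →
      (∀ (M : Type) [Field M] [NumberField M] [Algebra K M] (_ : M →ₐ[K] L), ∀ d ∈ Dl K N,
        Tv M (algebraMap K M ((d * D) ^ 2 * (A : K))) (algebraMap K M ((d * D) ^ 3 * (B : K)))) ∧
      ∀ (F : Type) [Field F] [Algebra K F] [Algebra L F] [Algebra N F] [IsScalarTower K L F]
        [IsScalarTower K N F], IntermediateField.adjoin L (Set.range (algebraMap N F)) = ⊤ →
        Finite (Pc (algebraMap K F (D ^ 2 * (A : K))) (algebraMap K F (D ^ 3 * (B : K)))) ∧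
        ∀ (M : Type) [Field M] [NumberField M] [Algebra K M] [Algebra M F] [IsScalarTower K M F]
          (m : M), m ≠ 0 → IsSquare (algebraMap M F m) →
          Finite (⟨0, 0, 0, (m * algebraMap K M D) ^ 2 * algebraMap K M (A : K),
            (m * algebraMap K M D) ^ 3 * algebraMap K M (B : K)⟩ :
              WeierstrassCurve M).toAffine.Point ∧
          H14T1.TwoPartFinite M (⟨0, 0, 0, (m * algebraMap K M D) ^ 2 * algebraMap K M (A : K),
            (m * algebraMap K M D) ^ 3 * algebraMap K M (B : K)⟩ : WeierstrassCurve M) := by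
  obtain ⟨S₁, h3⟩ := tower_adm h2 hir hsq hD H
  have hf := fin_bad (K := K) (x := 2) two_ne_zero
  obtain ⟨T, hT⟩ := hf.exists_finset_coe
  obtain ⟨Sg, hle, hcl⟩ := H88OD.exists_cl (S₁ ∪ T)
  refine ⟨Sg, fun S hS => ⟨?_, fun L _ _ hL =>
    h3 S ((Finset.subset_union_left.trans hle).trans hS) L hL⟩⟩
  refine exists_adm hir hsq (fun v hv => ?_) (hcl S hS)
  by_contra hne
  apply hv
  apply hS
  apply hle
  refine Finset.mem_union_right _ ?_
  rw [← Finset.mem_coe, hT]
  exact hne

end H36MQ
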