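import Pool.Agent.H36.MQ.Tx

/-!
MP_78d38b_MQ (helper36), infinite towers: the infinite multiquadratic extensions with finitely many
points.
-/

set_option autoImplicit false
set_option linter.unusedSectionVars false
open scoped Classical

open WithZero NumberField IsDedekindDomain H38RT WeierstrassCurve Pool.Agent.H10
open H38T1 (SC sc)
open H30ZO (Tv Pc)
open H38MR (Nr Dl)
open H76PP (dn)

namespace H36MQ

variable {K : Type} [Field K] [NumberField K]

/-- A map into a completion. -/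
theorem exists_hom {N Ω : Type} [Field N] [NumberField N] [Algebra K N] [Field Ω] [Algebra K Ω]
    [IsGalois K Ω] {Γ : Set K} (w : HeightOneSpectrum (𝓞 N))
    (h : ∀ x ∈ Γ, IsSquare (algebraMap K (w.adicCompletion N) x)) :
    Nonempty (IntermediateField.adjoin K {s : Ω | ∃ x ∈ Γ, s ^ 2 = algebraMap K Ω x} →ₐ[K]
      w.adicCompletion N) := by
  apply IntermediateField.nonempty_algHom_adjoin_of_splits
  rintro s ⟨x, hx, hs⟩
  obtain ⟨y, hy⟩ := h x hx
  refine ⟨Algebra.IsIntegral.isIntegral s, ?_⟩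
  have h1 : minpoly K s ∣ Polynomial.X ^ 2 - Polynomial.C x := by
    apply minpoly.dvd
    rw [map_sub, map_pow, Polynomial.aeval_X, Polynomial.aeval_C, hs, sub_self]
  have h2 : (Polynomial.X ^ 2 - Polynomial.C x).map (algebraMap K (w.adicCompletion N)) =
      (Polynomial.X - Polynomial.C y) * (Polynomial.X - Polynomial.C (-y)) := by
    rw [Polynomial.map_sub, Polynomial.map_pow, Polynomial.map_X, Polynomial.map_C, hy, map_mul,
      map_neg]
    ring
  have h3 : ((Polynomial.X ^ 2 - Polynomial.C x).map (algebraMap K (w.adicCompletion N))).Splits := by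
    rw [h2]
    exact (Polynomial.Splits.X_sub_C y).mul (Polynomial.Splits.X_sub_C (-y))
  refine h3.of_dvd ?_ (Polynomial.map_dvd _ h1)
  rw [h2]
  exact mul_ne_zero (Polynomial.X_sub_C_ne_zero y) (Polynomial.X_sub_C_ne_zero (-y))

/-- **Infinite multiquadratic extensions with finitely many points.** -/
theorem exists_F {a b D : K} (ha : ∀ v : HeightOneSpectrum (𝓞 K), v.valuation K a ≤ 1)
    (hb : ∀ v : HeightOneSpectrum (𝓞 K), v.valuation K b ≤ 1)
    (hir : ∀ t : K, t ^ 3 + a * t + b ≠ 0)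
    (hsq : ¬ IsSquare (-(4 * a ^ 3 + 27 * b ^ 2))) (hD : D ≠ 0) {N : Type} [Field N]
    [NumberField N] [Algebra K N] [IsGalois K N] (h2 : ∀ g : N ≃ₐ[K] N, g * g = 1)
    (H : ∀ d ∈ Dl K N, Tv K ((d * D) ^ 2 * a) ((d * D) ^ 3 * b))
    (S : Finset (HeightOneSpectrum (𝓞 K))) :
    ∃ (F : Type) (_ : Field F) (_ : Algebra K F) (_ : Algebra N F) (_ : IsScalarTower K N F),
      IsGalois K F ∧ (∀ g : F ≃ₐ[K] F, g * g = 1) ∧ ¬ FiniteDimensional K F ∧
      (∀ x : K, x ≠ 0 → IsSquare (algebraMap K F x) →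
        Tv K ((x * D) ^ 2 * a) ((x * D) ^ 3 * b) ∧ ∃ d ∈ Dl K N, Nr S d x) ∧
      Finite (Pc (algebraMap K F (D ^ 2 * a)) (algebraMap K F (D ^ 3 * b))) := by
  have hne : 4 * a ^ 3 + 27 * b ^ 2 ≠ 0 := by
    intro h
    apply hsq
    rw [h, neg_zero]
    exact ⟨0, (mul_zero 0).symm⟩
  have h3 : 4 * (D ^ 2 * a) ^ 3 + 27 * (D ^ 3 * b) ^ 2 ≠ 0 := by
    have e : 4 * (D ^ 2 * a) ^ 3 + 27 * (D ^ 3 * b) ^ 2 = D ^ 6 * (4 * a ^ 3 + 27 * b ^ 2) := by
      ring
    rw [e]
    exact mul_ne_zero (pow_ne_zero 6 hD) hne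
  have hmul := H38MR.mul2K_Dl (K := K) (N := N)
  have h0 : ∀ d ∈ Dl K N, d ≠ 0 := fun d hd => hd.1
  have h1 : (1 : K) ∈ Dl K N := ⟨one_ne_zero, by rw [map_one]; exact ⟨1, (one_mul 1).symm⟩⟩
  have hm : ∀ x ∈ Dl K N, ∀ y ∈ Dl K N, x * y ∈ Dl K N := by
    rintro x ⟨hx, hx'⟩ y ⟨hy, hy'⟩
    exact ⟨mul_ne_zero hx hy, by rw [map_mul]; exact hx'.mul hy'⟩
  obtain ⟨v, hv⟩ := exists_notin (K := K)
    ((HeightOneSpectrum.Support.finite (𝓞 K) (D ^ 2 * a)).union
      (HeightOneSpectrum.Support.finite (𝓞 K) (D ^ 3 * b)))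
  have hvA : v.valuation K (D ^ 2 * a) ≤ 1 := not_lt.1 fun h => hv (Or.inl h)
  have hvB : v.valuation K (D ^ 3 * b) ≤ 1 := not_lt.1 fun h => hv (Or.inr h)
  obtain ⟨e, he, hT⟩ := main_tower ha hb hir hsq hD (H38MR.fin_Dl (K := K) (N := N)) h0 H
    (fun _ => insert v S)
  have he0 : ∀ n, e n ≠ 0 := fun n => (he n).1
  obtain ⟨Γ, hΓ⟩ : ∃ Γ, Γ = Gam (Dl K N) e := ⟨_, rfl⟩
  have g1 : (1 : K) ∈ Γ := hΓ ▸ gam_one h1
  have gm : ∀ x ∈ Γ, ∀ y ∈ Γ, x * y ∈ Γ := by
    rw [hΓ]
    exact fun x hx y hy => gam_mul hm he0 hx hy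
  have g0 : ∀ x ∈ Γ, x ≠ 0 := by
    rw [hΓ]
    exact fun x hx => hx.1
  have gT : ∀ x ∈ Γ, Tv K ((x * D) ^ 2 * a) ((x * D) ^ 3 * b) := by
    rw [hΓ]
    rintro x ⟨hx0, d, hd, I, r, hr⟩
    obtain ⟨L, _, _, _, θ, ⟨St⟩⟩ := H88OD.exists_self ha hb hir hne hsq
    obtain ⟨P, hP⟩ : ∃ P, P = ∏ i ∈ I, e i := ⟨_, rfl⟩
    have hP0 : P ≠ 0 := by
      rw [hP]
      exact Finset.prod_ne_zero_iff.2 fun i _ => he0 i
    have h4 := (hT I).1 d hd
    rw [← hP] at hr h4
    have hd0 := h0 d hd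
    refine H38MR.tv_sq St (mul_ne_zero hd0 (mul_ne_zero hD hP0)) (mul_ne_zero hx0 hD) ?_ h4
    refine ⟨r / (d * P), ?_⟩
    field_simp
    linear_combination hr
  have hIsAlg : Algebra.IsAlgebraic K (AlgebraicClosure N) := Algebra.IsAlgebraic.trans K N _
  have hIAC : IsAlgClosure K (AlgebraicClosure N) := ⟨inferInstance, hIsAlg⟩
  have hGal : IsGalois K (AlgebraicClosure N) := IsAlgClosure.isGalois K _
  obtain ⟨F, hF⟩ : ∃ F : IntermediateField K (AlgebraicClosure N), F = IntermediateField.adjoin K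
    {s : AlgebraicClosure N | ∃ x ∈ Γ, s ^ 2 = algebraMap K (AlgebraicClosure N) x} := ⟨_, rfl⟩
  obtain ⟨hFG, hF2⟩ : IsGalois K F ∧ ∀ g : F ≃ₐ[K] F, g * g = 1 := by
    rw [hF]
    exact adj_galois Γ
  have hNF : ∀ x : N, algebraMap N (AlgebraicClosure N) x ∈ F := by
    intro x
    have h5 : IntermediateField.adjoin K {s : N | ∃ d ∈ Dl K N, s ^ 2 = algebraMap K N d} ≤
        F.comap (IsScalarTower.toAlgHom K N (AlgebraicClosure N)) := by
      rw [IntermediateField.adjoin_le_iff]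
      rintro s ⟨d, hd, hs⟩
      change algebraMap N (AlgebraicClosure N) s ∈ F
      rw [hF]
      refine IntermediateField.subset_adjoin K _ ⟨d, hΓ ▸ gam_of h0 hd, ?_⟩
      rw [← map_pow, hs, ← IsScalarTower.algebraMap_apply]
    exact h5 (H38MR.gen_Dl h2 x)
  let f : N →+* F := (algebraMap N (AlgebraicClosure N)).codRestrict F.toSubfield hNF
  let _ : Algebra N F := f.toAlgebra
  have hK : ∀ x : K, algebraMap N F (algebraMap K N x) = algebraMap K F x := by
    intro x
    apply Subtype.ext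
    change algebraMap N (AlgebraicClosure N) (algebraMap K N x) =
      algebraMap K (AlgebraicClosure N) x
    exact (IsScalarTower.algebraMap_apply K N (AlgebraicClosure N) x).symm
  have hTow : IsScalarTower K N F := IsScalarTower.of_algebraMap_eq fun x => (hK x).symm
  have hroot : ∀ x : K, x ≠ 0 → IsSquare (algebraMap K F x) → x ∈ Γ := by
    rintro x hx ⟨t, ht⟩
    have h5 : (t : AlgebraicClosure N) ^ 2 = algebraMap K (AlgebraicClosure N) x := by
      rw [sq]
      exact (congrArg (fun z : F => (z : AlgebraicClosure N)) ht).symm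
    have h6 : (t : AlgebraicClosure N) ∈ IntermediateField.adjoin K
        {s : AlgebraicClosure N | ∃ x ∈ Γ, s ^ 2 = algebraMap K (AlgebraicClosure N) x} := by
      rw [← hF]
      exact t.2
    obtain ⟨y, hy, z, hz⟩ := root_mem g1 gm g0 h6 hx h5
    rw [hΓ] at hy ⊢
    obtain ⟨hy0, d, hd, I, r, hr⟩ := hy
    refine ⟨hx, d, hd, I, z * r / y, ?_⟩
    field_simp
    linear_combination (y * (d * ∏ i ∈ I, e i)) * hz + (z * z) * hr
  have hsqF : ∀ x ∈ Γ, IsSquare (algebraMap K F x) := by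
    intro x hx
    obtain ⟨s, hs⟩ := IsAlgClosed.exists_pow_nat_eq (algebraMap K (AlgebraicClosure N) x)
      (n := 2) two_pos
    refine ⟨⟨s, ?_⟩, ?_⟩
    · rw [hF]
      exact IntermediateField.subset_adjoin K _ ⟨x, hx, hs⟩
    · apply Subtype.ext
      change algebraMap K (AlgebraicClosure N) x = s * s
      rw [← hs, sq]
  refine ⟨F, inferInstance, inferInstance, inferInstance, hTow, hFG, hF2, ?_, ?_, ?_⟩
  · intro hfd
    have hNum : NumberField F := NumberField.of_module_finite K F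
    have h5 := H38MR.fin_Dl (K := K) (N := F)
    refine Set.infinite_of_injective_forall_mem (f := fun n => sc (e n)) ?_
      (fun n => ?_) h5
    · intro m n hmn
      replace hmn : sc (e m) = sc (e n) := hmn
      by_contra hne'
      have h6 : IsSquare (∏ i ∈ ({m, n} : Finset ℕ), e i) := by
        rw [Finset.prod_pair hne', ← H38T1.sc_eq_zero (mul_ne_zero (he0 m) (he0 n)),
          H38T1.sc_mul (he0 m) (he0 n), hmn, ← two_nsmul, H38T1.SC.two_smul]
      have h7 := (hT {m, n}).2 h6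
      exact Finset.insert_ne_empty m {n} h7
    · exact ⟨e n, ⟨he0 n, hsqF _ (hΓ ▸ gam_e h1 he0 n)⟩, rfl⟩
  · intro x hx hxs
    have h5 := hroot x hx hxs
    refine ⟨gT x h5, ?_⟩
    rw [hΓ] at h5
    exact gam_near (fun n => ⟨(he n).1, fun u hu => (he n).2.1 u (Finset.mem_insert_of_mem hu),
      (he n).2.2⟩) h0 h5
  · obtain ⟨w, hw⟩ := H76PP.exists_above (K := K) (L := N) v
    have hwv : Over v w := hw ▸ H36CY.over_dn w
    have hval : ∀ x : K, v.valuation K x ≤ 1 →
        Valued.v (algebraMap K (w.adicCompletion N) x) ≤ 1 := by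
      intro x hx
      rw [IsScalarTower.algebraMap_apply K N (w.adicCompletion N)]
      have h5 := hwv.valuation_le (x := x) (k := 0) (by
        rw [Nat.cast_zero, neg_zero, exp_zero]
        exact hx)
      rw [Nat.cast_zero, neg_zero, exp_zero] at h5
      have h6 := w.valuedAdicCompletion_eq_valuation' (K := N) (algebraMap K N x)
      change Valued.v (algebraMap N (w.adicCompletion N) (algebraMap K N x)) = _ at h6
      rw [h6]
      exact h5
    have hsqw : ∀ x ∈ Γ, IsSquare (algebraMap K (w.adicCompletion N) x) := by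
      rw [hΓ]
      intro x hx
      obtain ⟨d, hd, hx0, hxv, -⟩ := gam_near (S := {v}) (fun n => ⟨(he n).1, fun u hu =>
        (he n).2.1 u (by
          rw [Finset.mem_singleton.1 hu]
          exact Finset.mem_insert_self v S), (he n).2.2⟩) h0 hx
      have h5 := (hxv v (Finset.mem_singleton_self v)).map hwv.map
      rw [hwv.map_algebraMap, ← IsScalarTower.algebraMap_apply] at h5
      have e1 : x = x / d * d := by
        have := hd.1
        field_simp
      rw [e1, map_mul]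
      refine h5.mul ?_
      rw [IsScalarTower.algebraMap_apply K N (w.adicCompletion N)]
      exact hd.2.map _
    have hhom : Nonempty (F →ₐ[K] w.adicCompletion N) := by
      rw [hF]
      exact exists_hom w hsqw
    obtain ⟨j⟩ := hhom
    have h5 : 4 * (algebraMap K (w.adicCompletion N) (D ^ 2 * a)) ^ 3 +
        27 * (algebraMap K (w.adicCompletion N) (D ^ 3 * b)) ^ 2 ≠ 0 := by
      intro h
      apply (map_ne_zero (algebraMap K (w.adicCompletion N))).2 h3
      rw [← h]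
      simp only [map_add, map_mul, map_pow, map_ofNat]
    obtain ⟨C, hC⟩ := tors_bdd w (hval _ hvA) (hval _ hvB) h5
    refine fin_union j hC ?_
    intro M _ _ _ _ _
    have h6 := (fin_allF hF2 hne hD (fun d hd hds => gT d (hroot d hd hds)) M (m := 1) one_ne_zero
      (by rw [map_one]; exact ⟨1, (one_mul 1).symm⟩)).1
    have e1 : algebraMap K M (D ^ 2 * a) = (1 * algebraMap K M D) ^ 2 * algebraMap K M a := by
      rw [map_mul, map_pow, one_mul]
    have e2 : algebraMap K M (D ^ 3 * b) = (1 * algebraMap K M D) ^ 3 * algebraMap K M b := by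
      rw [map_mul, map_pow, one_mul]
    rw [e1, e2]
    exact h6

end H36MQ
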