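import Pool.Agent.H38.MR.Ta
import Pool.Agent.H36.GM.Hs

/-!
ROW Ca (project MP_78d38b_MQ, about 100 lines): the functional on the splitting field.

exists_func: linear algebra over `ZMod 2` (`AddCommGroup.zmodModule` for `G` and `V`). `V / X ← G / f⁻¹(X)` is injective; extend the functional. For example:
`p : V →ₗ V ⧸ X'` (`X'` = `X` as a `ZMod 2`-submodule: `AddSubgroup.toZModSubmodule 2 X`), `g := p ∘ f : G →ₗ V ⧸ X'`, `ker g ≤ ker χ`; `χ` factors through `range g`
(`(LinearMap.ker g).liftQ χ` and `g.quotKerEquivRange`), extend by `LinearMap.exists_extend`; `φ := ψ ∘ p`. (Or apply `H36GM.exists_phi`-style arguments.)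

cub_fun: `X` := the closure of the classes `cl (ε m) x`, `x ∈ HH K L`, `m : Fin 3`. `ρ` := the automorphism of `D.lift 1 (finRotate 3)` (`N = K`):
`ρ (r m) = r (m + 1)`. On `SC N2`: `cl ρ (cl (ε m) x) = cl (ε (m + 1)) x` (`cl_comp`, `hom_ext` of Pool/Agent/H36/GM/Df.lean), `cl ρ (cl (algebraMap K N2) c) = cl (algebraMap K N2) c`.
CLAIM: `z + cl ρ z + cl ρ (cl ρ z) = 0` for `z ∈ X` (closure induction; for the generators it is `cl_sum` of Pool/Agent/H36/GM/Hs.lean with `M = N = K`: `ε' o m := ε m`, `EpsD`: every `o : K →ₐ[K] K` is the identity).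
So if `cl (algebraMap K N2) c ∈ X` then `3 z = 0` for `z := cl (algebraMap K N2) c`, so `z = 0` (`z + z = 0`) and `H38MR.cl_N2 D` gives `c = 0` or `c = sc (-(4 a^3 + 27 b^2))`, so `χ c = 0`.
Apply exists_func with `f := ` the homomorphism `c ↦ cl (algebraMap K N2) c` (`scm (algebraMap K N2 : K →* N2)`).
-/

set_option autoImplicit false
set_option linter.unusedSectionVars false
open scoped Classical

open WithZero NumberField IsDedekindDomain H38RT
open H38T1 (SC sc scu rep eo la si OddP)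
open H76PP (Cub LC ev scm dn)
open H30ZO (HH nb)
open H88OD H26OD H76GM H36GM

namespace H36MQ

/-- functionals factor through homomorphisms of groups killed by two -/
theorem Ca_ext {A B : Type} [AddCommGroup A] [AddCommGroup B] (hA : ∀ x : A, x + x = 0)
    (hB : ∀ x : B, x + x = 0) (f : A →+ B) (χ : A →+ ZMod 2) (h : ∀ x, f x = 0 → χ x = 0) :
    ∃ φ : B →+ ZMod 2, ∀ x, φ (f x) = χ x := by
  let _ : Module (ZMod 2) A := AddCommGroup.zmodModule (n := 2) (by intro x; rw [two_nsmul]; exact hA x)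
  let _ : Module (ZMod 2) B := AddCommGroup.zmodModule (n := 2) (by intro x; rw [two_nsmul]; exact hB x)
  have hker : LinearMap.ker (f.toZModLinearMap 2) ≤ LinearMap.ker (χ.toZModLinearMap 2) := by
    intro x hx
    rw [LinearMap.mem_ker] at hx ⊢
    exact h x hx
  have hmem : χ.toZModLinearMap 2 ∈ LinearMap.range (LinearMap.dualMap (f.toZModLinearMap 2)) := by
    rw [LinearMap.range_dualMap_eq_dualAnnihilator_ker, Submodule.mem_dualAnnihilator]
    intro w hw
    exact hker hw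
  obtain ⟨φ, hφ⟩ := hmem
  refine ⟨φ.toAddMonoidHom, fun x => ?_⟩
  have e1 : φ (f.toZModLinearMap 2 x) = χ.toZModLinearMap 2 x := by
    rw [← hφ]; rfl
  exact e1

theorem exists_func {G V : Type} [AddCommGroup G] [AddCommGroup V] (hG : ∀ g : G, g + g = 0)
    (hV : ∀ v : V, v + v = 0) (f : G →+ V) (X : AddSubgroup V) (χ : G →+ ZMod 2)
    (h : ∀ g, f g ∈ X → χ g = 0) : ∃ φ : V →+ ZMod 2, (∀ x ∈ X, φ x = 0) ∧ ∀ g, φ (f g) = χ g := by
  have hq2 : ∀ x : V ⧸ X, x + x = 0 := by
    intro x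
    obtain ⟨y, rfl⟩ := QuotientAddGroup.mk_surjective x
    rw [← QuotientAddGroup.mk_add, hV, QuotientAddGroup.mk_zero]
  obtain ⟨φ, hφ⟩ := Ca_ext hG hq2 ((QuotientAddGroup.mk' X).comp f) χ fun x hx =>
    h x ((QuotientAddGroup.eq_zero_iff _).1 hx)
  refine ⟨φ.comp (QuotientAddGroup.mk' X), fun x hx => ?_, fun g => hφ g⟩
  have h4 : (QuotientAddGroup.mk' X) x = 0 := (QuotientAddGroup.eq_zero_iff _).2 hx
  rw [AddMonoidHom.comp_apply, h4, map_zero]

theorem cub_fun {K L N2 : Type} [Field K] [NumberField K] [Field L] [NumberField L] [Field N2]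
    [NumberField N2] [Algebra K L] [Algebra K N2] {a b : K} {θ : L} (hc : Cub K L a b θ)
    {r : Fin 3 → N2} (D : N2D K K N2 a b r) (ε : Fin 3 → (L →+* N2))
    (hε1 : ∀ m x, ε m (algebraMap K L x) = algebraMap K N2 x) (hε2 : ∀ m, ε m θ = r m)
    (χ : SC K →+ ZMod 2) (hχ : χ (sc (-(4 * a ^ 3 + 27 * b ^ 2))) = 0) :
    ∃ φ : SC N2 →+ ZMod 2, (∀ m, ∀ x ∈ HH K L, φ (cl (ε m) x) = 0) ∧
      ∀ c, φ (cl (algebraMap K N2) c) = χ c := by
  have hN2 : ∀ x : SC N2, x + x = 0 := by
    intro x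
    rw [← two_nsmul]
    exact H38T1.SC.two_smul _
  have hK2 : ∀ x : SC K, x + x = 0 := by
    intro x
    rw [← two_nsmul]
    exact H38T1.SC.two_smul _
  obtain ⟨W, hW⟩ : ∃ W : AddSubgroup (SC N2),
      W = AddSubgroup.closure {y | ∃ x ∈ HH K L, ∃ m, y = cl (ε m) x} := ⟨_, rfl⟩
  obtain ⟨g, hg0, hg⟩ := D.lift 1 (finRotate 3)
  -- the norm kills `W`
  have hsum : ∀ x ∈ HH K L, cl (ε 0) x + cl (ε 1) x + cl (ε 2) x = 0 := by
    intro x hx
    have hE : EpsD (K := K) (M := K) (N := K) θ r (fun _ => ε) :=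
      ⟨fun o i x => by
        rw [hε1]
        exact congrArg _ (o.commutes x).symm, fun o i => hε2 i⟩
    exact cl_sum (M := K) (N := K) hc D hE hx (AlgHom.id K K)
  have hact : ∀ m x, cl (g : N2 →+* N2) (cl (ε m) x) = cl (ε (finRotate 3 m)) x := by
    intro m x
    rw [← cl_comp]
    congr 1
    refine hom_ext hc (fun z => ?_) ?_
    · rw [RingHom.comp_apply, hε1, hε1]
      exact g.commutes z
    · rw [RingHom.comp_apply, hε2, hε2]
      exact hg m
  have hnorm : ∀ w ∈ W, w + cl (g : N2 →+* N2) w + cl (g : N2 →+* N2) (cl (g : N2 →+* N2) w) = 0 := by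
    intro w hw
    rw [hW] at hw
    induction hw using AddSubgroup.closure_induction with
    | mem y hy =>
      obtain ⟨x, hx, m, rfl⟩ := hy
      have hs := hsum x hx
      rw [hact, hact]
      fin_cases m
      · exact hs
      · refine Eq.trans ?_ hs
        show cl (ε 1) x + cl (ε 2) x + cl (ε 0) x = _
        abel
      · refine Eq.trans ?_ hs
        show cl (ε 2) x + cl (ε 0) x + cl (ε 1) x = _
        abel
    | zero => rw [cl_zero, cl_zero, add_zero, add_zero]
    | add y z _ _ hy hz =>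
      rw [cl_add, cl_add]
      have h3 : y + z + (cl (g : N2 →+* N2) y + cl (g : N2 →+* N2) z) +
          (cl (g : N2 →+* N2) (cl (g : N2 →+* N2) y) + cl (g : N2 →+* N2) (cl (g : N2 →+* N2) z)) =
          (y + cl (g : N2 →+* N2) y + cl (g : N2 →+* N2) (cl (g : N2 →+* N2) y)) +
          (z + cl (g : N2 →+* N2) z + cl (g : N2 →+* N2) (cl (g : N2 →+* N2) z)) := by abel
      rw [h3, hy, hz, add_zero]
    | neg y _ hy =>
      have h3 : -y = y := neg_eq_of_add_eq_zero_left (hN2 y)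
      rw [h3]
      exact hy
  have hfix : ∀ c : SC K, cl (g : N2 →+* N2) (cl (algebraMap K N2) c) = cl (algebraMap K N2) c := by
    intro c
    rw [← cl_comp]
    congr 1
    ext x
    exact g.commutes x
  have hkey : ∀ c : SC K, cl (algebraMap K N2) c ∈ W → cl (algebraMap K N2) c = 0 := by
    intro c hc'
    have h3 := hnorm _ hc'
    rw [hfix, hfix, hN2, zero_add] at h3
    exact h3
  obtain ⟨φ, hφ1, hφ2⟩ := exists_func hK2 hN2
    (AddMonoidHom.mk' (fun c => cl (algebraMap K N2) c) (cl_add _)) W χ (by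
    intro x hx
    rcases H38MR.cl_N2 D (hkey x hx) with h4 | h4
    · rw [h4, map_zero]
    · rw [h4, hχ])
  refine ⟨φ, fun m x hx => hφ1 _ ?_, fun c => hφ2 c⟩
  rw [hW]
  exact AddSubgroup.subset_closure ⟨x, hx, m, rfl⟩

end H36MQ
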