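import Pool.Agent.H26.MQ.Df

/-!
MP_78d38b_MQ, the algebra (helper36): elementary properties of the transvections `rho`.
-/

set_option autoImplicit false
open scoped Classical

namespace H36MQ

open H26MQ

theorem z2 (t : ZMod 2) : t = 0 ∨ t = 1 := by
  revert t
  decide

theorem z2_ne {t : ZMod 2} (h : t ≠ 0) : t = 1 := (z2 t).resolve_left h

theorem z2_add (t : ZMod 2) : t + t = 0 := by
  revert t
  decide

section

variable {ι : Type}

theorem us_add (z : US ι) : z + z = 0 := by
  funext i
  exact Prod.ext (z2_add _) (z2_add _)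

theorem us_add_cancel (z w : US ι) : z + w + w = z := by
  rw [add_assoc, us_add, add_zero]

variable [Fintype ι]

theorem bf_self (z : US ι) : bf z z = 0 := by
  unfold bf
  refine Finset.sum_eq_zero fun i _ => ?_
  rw [mul_comm (z i).2]
  exact z2_add _

theorem bf_smul (c : ZMod 2) (z w : US ι) : bf z (c • w) = c * bf z w := by
  rcases z2 c with rfl | rfl
  · rw [zero_smul, bf_zero, zero_mul]
  · rw [one_smul, one_mul]

theorem smul_bf (c : ZMod 2) (z w : US ι) : bf (c • z) w = c * bf z w := by
  rw [bf_comm, bf_smul, bf_comm]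

theorem qf_smul (c : ZMod 2) (z : US ι) : qf (c • z) = c * qf z := by
  rcases z2 c with rfl | rfl
  · rw [zero_smul, zero_mul]
    unfold qf
    simp
  · rw [one_smul, one_mul]

theorem qf_zero : qf (0 : US ι) = 0 := by
  unfold qf
  simp

theorem bf_rho (a z w : US ι) : bf (rho a z) (rho a w) = bf z w := by
  rw [rho_apply, rho_apply, bf_add, add_bf, add_bf, bf_smul, bf_smul, smul_bf, smul_bf, bf_self,
    mul_zero, mul_zero, add_zero, bf_comm z a, bf_comm a w]
  have h := z2_add (bf w a * bf a z)
  linear_combination h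

theorem qf_rho {a : US ι} (ha : qf a = 1) (z : US ι) : qf (rho a z) = qf z := by
  rw [rho_apply, qf_add, qf_smul, ha, bf_smul, bf_comm z a, mul_one]
  rcases z2 (bf a z) with h | h
  · rw [h]
    ring
  · rw [h, add_assoc]
    have : (1 : ZMod 2) + 1 * 1 = 0 := by decide
    rw [this, add_zero]

theorem rho_rho (a z : US ι) : rho a (rho a z) = z := by
  rw [rho_apply, rho_apply, bf_add, bf_smul, bf_self, mul_zero, add_zero, add_assoc, ← add_smul,
    z2_add, zero_smul, add_zero]

theorem rho_comm {a c : US ι} (h : bf a c = 0) (z : US ι) :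
    rho a (rho c z) = rho c (rho a z) := by
  rw [rho_apply, rho_apply, rho_apply, rho_apply, bf_add, bf_add, bf_smul, bf_smul, h,
    bf_comm c a, h]
  rw [mul_zero, mul_zero, add_zero, add_zero]
  abel

theorem rho_conj (a b z : US ι) : rho a (rho b (rho a z)) = rho (rho a b) z := by
  have h : bf (rho a b) z = bf b (rho a z) := by
    rw [← bf_rho a (rho a b) z, rho_rho]
  rw [rho_apply b, map_add, rho_rho, rho_apply (rho a b), h]
  congr 1
  rcases z2 (bf b (rho a z)) with h1 | h1
  · rw [h1, zero_smul, zero_smul, map_zero]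
  · rw [h1, one_smul, one_smul]

theorem rho_braid {a b : US ι} (h : bf a b = 1) (z : US ι) :
    rho a (rho b (rho a z)) = rho b (rho a (rho b z)) := by
  rw [rho_conj, rho_conj, rho_apply a b, rho_apply b a, h, bf_comm b a, h, one_smul, one_smul,
    add_comm b a]

/-- The commutator: if `c` commutes with `a` and `b`. -/
theorem rho_commutator {a b c : US ι} (h : bf a b = 1) (hac : bf a c = 0) (hbc : bf b c = 0)
    (z : US ι) : rho a (rho c (rho a (rho b (rho c (rho a (rho b (rho a z))))))) =
      rho a (rho b z) := by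
  rw [rho_comm hbc, rho_comm hac, rho_rho, rho_rho, rho_braid h, rho_rho]

theorem rho_inj (a : US ι) : Function.Injective (rho a) := fun x y h => by
  rw [← rho_rho a x, h, rho_rho]

theorem map_rho_rho (a : US ι) (Λ : AddSubgroup (US ι)) : (Λ.map (rho a)).map (rho a) = Λ := by
  rw [AddSubgroup.map_map]
  have h : (rho a).comp (rho a) = AddMonoidHom.id (US ι) := AddMonoidHom.ext fun z => rho_rho a z
  rw [h, AddSubgroup.map_id]

theorem card_map_rho (a : US ι) (Λ : AddSubgroup (US ι)) :
    Nat.card ↥(Λ.map (rho a)) = Nat.card ↥Λ :=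
  (Nat.card_congr (Λ.equivMapOfInjective (rho a) (rho_inj a)).toEquiv).symm

end

end H36MQ
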