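import Pool.Agent.H36.MQ.Rc

/-!
ROW Rb (project MP_78d38b_MQ, about 100 lines): existence of auxiliary vectors. Elementary; use the statements of Rc.lean.

nd2: `z1` with `bf z1 x = 1` (nd1). If `bf z1 y = 0` done. Else take `z2` with `bf z2 (x + y) = 1` (nd1, `x + y ≠ 0` as `x ≠ y` and
`us_add_cancel`): one of `bf z2 x`, `bf z2 y` is 1, the other 0: if `bf z2 x = 1` take `z2`, else `z1 + z2`.
ex_sing: `z` from nd2; if `qf z = 1` take `z`, else `z + x`: `qf (z + x) = 0 + 0 + 1`, `bf (z + x) x = 1 + 0`, `bf (z + x) y = 0 + 0`.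
ex_both: `z1` from nd2 (x, y), `z2` from nd2 (y, x), `z := z1 + z2`; if `qf z = 1` take `z`, else `z + x`.
card_two: the kernel `V` of `US ι →+ ZMod 2 × ZMod 2`, `z ↦ (bf a z, bf b z)`: `4 ^ n = |V| |range| ≤ 4 |V|`.
ex_perp: if no such `c`: `qf = 0` on `V := {z | bf a z = 0 ∧ bf b z = 0}`, so `bf = 0` on `V` (qf_add), `|V| ≤ 2 ^ n` (iso_card),
`4 ^ n ≤ 4 * 2 ^ n`, contradiction to `n ≥ 3`.
ex_opp: `c0` with `bf a c0 = bf b c0 = 1` (nd2 twice as in ex_both, without the condition on qf). If no such `c`: for all `z ∈ V`: `qf (c0 + z) = 0`, so (z = 0)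
`qf c0 = 0`, `qf z = bf c0 z` on `V`, additive, so `bf z w = qf (z + w) + qf z + qf w = 0` on `V`: contradiction as before.
-/

set_option autoImplicit false
open scoped Classical

namespace H36MQ

open H26MQ

variable {ι : Type} [Fintype ι]

theorem nd2 {x y : US ι} (hx : x ≠ 0) (hxy : x ≠ y) : ∃ z, bf z x = 1 ∧ bf z y = 0 := by
  obtain ⟨z1, h1⟩ := nd1 hx
  rcases z2 (bf z1 y) with h | h
  · exact ⟨z1, h1, h⟩
  · have hne : x + y ≠ 0 := by
      intro h0
      apply hxy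
      have h3 := us_add_cancel x y
      rw [h0, zero_add] at h3
      exact h3.symm
    obtain ⟨w, hw⟩ := nd1 hne
    rw [bf_add] at hw
    rcases z2 (bf w x) with hx0 | hx1
    · rw [hx0, zero_add] at hw
      refine ⟨z1 + w, ?_, ?_⟩
      · rw [add_bf, h1, hx0, add_zero]
      · rw [add_bf, h, hw]
        decide
    · rw [hx1] at hw
      refine ⟨w, hx1, ?_⟩
      rcases z2 (bf w y) with h3 | h3
      · exact h3
      · rw [h3] at hw
        exact absurd hw (by decide)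

theorem ex_sing {x y : US ι} (hx : x ≠ 0) (hxy : x ≠ y) (qx : qf x = 0) (hb : bf x y = 0) :
    ∃ a, qf a = 1 ∧ bf a x = 1 ∧ bf a y = 0 := by
  obtain ⟨z, h1, h2⟩ := nd2 hx hxy
  rcases z2 (qf z) with h | h
  · refine ⟨z + x, ?_, ?_, ?_⟩
    · rw [qf_add, h, qx, h1, zero_add, zero_add]
    · rw [add_bf, h1, bf_self, add_zero]
    · rw [add_bf, h2, hb, add_zero]
  · exact ⟨z, h, h1, h2⟩

theorem ex_both {x y : US ι} (hx : x ≠ 0) (hy : y ≠ 0) (hxy : x ≠ y) (qx : qf x = 0)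
    (hb : bf x y = 0) : ∃ a, qf a = 1 ∧ bf a x = 1 ∧ bf a y = 1 := by
  obtain ⟨u, h1, h2⟩ := nd2 hx hxy
  obtain ⟨v, h3, h4⟩ := nd2 hy (Ne.symm hxy)
  have hux : bf (u + v) x = 1 := by rw [add_bf, h1, h4, add_zero]
  have huy : bf (u + v) y = 1 := by rw [add_bf, h2, h3, zero_add]
  rcases z2 (qf (u + v)) with h | h
  · refine ⟨u + v + x, ?_, ?_, ?_⟩
    · rw [qf_add, h, qx, hux, zero_add, zero_add]
    · rw [add_bf, hux, bf_self, add_zero]
    · rw [add_bf, huy, hb, add_zero]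
  · exact ⟨u + v, h, hux, huy⟩

/-- The elements orthogonal to `a` and `b`. -/
def two (a b : US ι) : AddSubgroup (US ι) where
  carrier := {z | bf a z = 0 ∧ bf b z = 0}
  zero_mem' := ⟨bf_zero a, bf_zero b⟩
  add_mem' := fun {z w} hz hw => ⟨by rw [bf_add, hz.1, hw.1, add_zero],
    by rw [bf_add, hz.2, hw.2, add_zero]⟩
  neg_mem' := fun {z} hz => by
    have h : -z = z := by rw [neg_eq_iff_add_eq_zero, us_add]
    rw [h]
    exact hz

theorem card_two (a b : US ι) : 4 ^ Fintype.card ι ≤ 4 * Nat.card ↥(two a b) := by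
  let f : US ι →+ ZMod 2 × ZMod 2 :=
    { toFun := fun z => (bf a z, bf b z)
      map_zero' := by rw [bf_zero, bf_zero]; rfl
      map_add' := fun z w => by rw [bf_add, bf_add]; rfl }
  have hk : f.ker = two a b := by
    ext z
    rw [AddMonoidHom.mem_ker]
    constructor
    · intro h
      exact ⟨congrArg Prod.fst h, congrArg Prod.snd h⟩
    · intro h
      exact Prod.ext h.1 h.2
  have h1 : Nat.card ↥f.ker * f.ker.index = Nat.card (US ι) := AddSubgroup.card_mul_index _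
  have h2 : f.ker.index = Nat.card ↥f.range := AddSubgroup.index_ker f
  have h3 : Nat.card ↥f.range ≤ Nat.card (ZMod 2 × ZMod 2) := AddSubgroup.card_le_card_addGroup _
  have h4 : Nat.card (ZMod 2 × ZMod 2) = 4 := by
    rw [Nat.card_prod, Nat.card_zmod]
  have h5 : Nat.card (US ι) = 4 ^ Fintype.card ι := by
    rw [Nat.card_fun, h4, Nat.card_eq_fintype_card]
  rw [← h5, ← h1, h2, hk, mul_comm]
  exact Nat.mul_le_mul_right _ (h4 ▸ h3)

theorem two_not_iso (hι : 3 ≤ Fintype.card ι) (a b : US ι) :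
    ¬ ∀ x ∈ two a b, ∀ y ∈ two a b, bf x y = 0 := by
  intro h
  have h1 := iso_card h
  have h2 := card_two a b
  have h3 : 4 ^ Fintype.card ι ≤ 4 * 2 ^ Fintype.card ι := h2.trans (Nat.mul_le_mul_left _ h1)
  have h4 : (4 : ℕ) ^ Fintype.card ι = 2 ^ Fintype.card ι * 2 ^ Fintype.card ι := by
    rw [← mul_pow]
    norm_num
  rw [h4] at h3
  have h5 : (2 : ℕ) ^ Fintype.card ι ≤ 4 := Nat.le_of_mul_le_mul_right h3 (by positivity)
  have h6 : (2 : ℕ) ^ 3 ≤ 2 ^ Fintype.card ι := Nat.pow_le_pow_right (by norm_num) hι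
  omega

theorem ex_perp (hι : 3 ≤ Fintype.card ι) (a b : US ι) :
    ∃ c, qf c = 1 ∧ bf a c = 0 ∧ bf b c = 0 := by
  by_contra hcon
  have hq : ∀ z ∈ two a b, qf z = 0 := by
    intro z hz
    rcases z2 (qf z) with h | h
    · exact h
    · exact absurd ⟨z, h, hz.1, hz.2⟩ hcon
  refine two_not_iso hι a b fun x hx y hy => ?_
  have h := qf_add x y
  rw [hq _ (add_mem hx hy), hq x hx, hq y hy, add_zero, zero_add] at h
  exact h.symm

theorem ex_opp (hι : 3 ≤ Fintype.card ι) {a b : US ι} (ha : a ≠ 0) (hb : b ≠ 0) (hab : a ≠ b) :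
    ∃ c, qf c = 1 ∧ bf a c = 1 ∧ bf b c = 1 := by
  by_contra hcon
  obtain ⟨u, h1, h2⟩ := nd2 ha hab
  obtain ⟨v, h3, h4⟩ := nd2 hb (Ne.symm hab)
  have hua : bf a (u + v) = 1 := by rw [bf_comm, add_bf, h1, h4, add_zero]
  have hub : bf b (u + v) = 1 := by rw [bf_comm, add_bf, h2, h3, zero_add]
  have hq : ∀ z ∈ two a b, qf z = bf (u + v) z := by
    intro z hz
    have h0 : ∀ w ∈ two a b, qf (u + v + w) = 0 := by
      intro w hw
      rcases z2 (qf (u + v + w)) with h | h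
      · exact h
      · refine absurd ⟨u + v + w, h, ?_, ?_⟩ hcon
        · rw [bf_add, hua, hw.1, add_zero]
        · rw [bf_add, hub, hw.2, add_zero]
    have h5 := h0 0 (zero_mem _)
    rw [add_zero] at h5
    have h6 := h0 z hz
    rw [qf_add, h5, zero_add] at h6
    have h7 := z2_add (bf (u + v) z)
    linear_combination h6 - h7
  refine two_not_iso hι a b fun x hx y hy => ?_
  have h := qf_add x y
  rw [hq _ (add_mem hx hy), hq x hx, hq y hy, bf_add] at h
  linear_combination -h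

end H36MQ
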