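import Pool.Agent.H36.MQ.Ra

/-!
ROW Rc (project MP_78d38b_MQ, about 120 lines): orthogonal complements in `US ι`. Elementary.

card_perp: `US ι` is a vector space over `ZMod 2` of dimension `2 * card ι`; the bilinear form `B z w := bf z w`
(`LinearMap.BilinForm (ZMod 2) (US ι)`, from `bf_add`, `add_bf`, `bf_smul`, `smul_bf`) is symmetric (`bf_comm`) and
nondegenerate (`x ≠ 0`: some `x i ≠ 0`; if `(x i).1 = 1` take `z = Pi.single i (0, 1)`, if `(x i).2 = 1` take `z = Pi.single i (1, 0)`: this is nd1).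
`LinearMap.BilinForm.finrank_orthogonal` for the submodule `AddSubgroup.toZModSubmodule 2 V`, then
`Module.card_eq_pow_finrank` (or `Module.natCard_eq_pow_finrank`), `finrank (US ι) = 2 * card ι`, `2 ^ (2 n) = 4 ^ n`.
iso_card: `V ≤ perp V`, so `|V| ^ 2 ≤ |V| * |perp V| = 4 ^ n = (2 ^ n) ^ 2`.
lag_iff..: `Lag Λ` gives `perp Λ = Λ` (`bf x y = qf (x + y) + qf x + qf y = 0` for `x y ∈ Λ`), so `|Λ| ^ 2 = 4 ^ n`.
lag_of_card: `h` gives `bf x y = 0` on `Λ`, so `Λ ≤ perp Λ` and `|perp Λ| = 4 ^ n / |Λ| ≤ 2 ^ n ≤ |Λ|`: equality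
(`AddSubgroup.eq_of_le_of_card_ge`), which is `Lag.max`.
lag_WW: `WW` is isotropic (`qf = 0` because all `(z i).1 = 0`), and it has `2 ^ n` elements; or directly `max`: `bf z (Pi.single i (0, 1)) = (z i).1`.
mem_sup: `|perp (Λ ⊓ M)| = 4 ^ n / |Λ ⊓ M|`; the sum map `Λ × M → US ι`, `(x, y) ↦ x + y`, has kernel in bijection with `Λ ⊓ M`, so its
range `Λ ⊔ M` has `|Λ| |M| / |Λ ⊓ M| = 4 ^ n / |Λ ⊓ M|` elements and is contained in `perp (Λ ⊓ M)`, so it is equal.
(Or: `perp (Λ ⊔ M) = perp Λ ⊓ perp M = Λ ⊓ M` and `perp (perp V) = V` by card_perp.)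
-/

set_option autoImplicit false
open scoped Classical

namespace H36MQ

open H26MQ

variable {ι : Type} [Fintype ι]

/-- The orthogonal complement. -/
def perp (V : AddSubgroup (US ι)) : AddSubgroup (US ι) where
  carrier := {z | ∀ x ∈ V, bf z x = 0}
  zero_mem' := fun x _ => zero_bf x
  add_mem' := fun {z w} hz hw x hx => by rw [add_bf, hz x hx, hw x hx, add_zero]
  neg_mem' := fun {z} hz x hx => by
    have h : -z = z := by rw [neg_eq_iff_add_eq_zero, us_add]
    rw [h]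
    exact hz x hx

theorem mem_perp {V : AddSubgroup (US ι)} {z : US ι} : z ∈ perp V ↔ ∀ x ∈ V, bf z x = 0 := Iff.rfl

theorem bf_single (i : ι) (p : ZMod 2 × ZMod 2) (x : US ι) :
    bf (Pi.single i p : US ι) x = p.1 * (x i).2 + p.2 * (x i).1 := by
  unfold bf
  rw [Finset.sum_eq_single i, Pi.single_eq_same]
  · intro j _ hj
    rw [Pi.single_eq_of_ne hj]
    simp
  · intro h
    exact absurd (Finset.mem_univ i) h

theorem nd1 {x : US ι} (hx : x ≠ 0) : ∃ z, bf z x = 1 := by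
  obtain ⟨i, hi⟩ := Function.ne_iff.1 hx
  by_cases h1 : (x i).1 = 0
  · by_cases h2 : (x i).2 = 0
    · exact absurd (Prod.ext h1 h2) hi
    · exact ⟨Pi.single i (1, 0), by rw [bf_single, z2_ne h2]; simp⟩
  · exact ⟨Pi.single i (0, 1), by rw [bf_single, z2_ne h1]; simp⟩

/-- The bilinear form. -/
noncomputable def bB (ι : Type) [Fintype ι] : LinearMap.BilinForm (ZMod 2) (US ι) :=
  LinearMap.mk₂ (ZMod 2) (fun z w => bf z w) add_bf (fun c z w => smul_bf c z w) bf_add
    (fun c z w => bf_smul c z w)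

theorem bB_apply (z w : US ι) : bB ι z w = bf z w := rfl

theorem bB_nd : (bB ι).Nondegenerate := by
  constructor
  · intro x hx
    by_contra h
    obtain ⟨z, hz⟩ := nd1 h
    have h1 := hx z
    rw [bB_apply, bf_comm, hz] at h1
    exact one_ne_zero h1
  · intro x hx
    by_contra h
    obtain ⟨z, hz⟩ := nd1 h
    have h1 := hx z
    rw [bB_apply, hz] at h1
    exact one_ne_zero h1

theorem card_US : Nat.card (US ι) = 4 ^ Fintype.card ι := by
  rw [Nat.card_eq_fintype_card, Fintype.card_fun, Fintype.card_prod, ZMod.card]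

theorem card_perp (V : AddSubgroup (US ι)) :
    Nat.card ↥V * Nat.card ↥(perp V) = 4 ^ Fintype.card ι := by
  obtain ⟨W, hW⟩ : ∃ W, W = AddSubgroup.toZModSubmodule 2 V := ⟨_, rfl⟩
  have hmem : ∀ x, x ∈ V ↔ x ∈ W := fun x => by
    rw [hW, AddSubgroup.mem_toZModSubmodule]
  have hmem' : ∀ x, x ∈ perp V ↔ x ∈ (bB ι).orthogonal W := fun x => by
    rw [LinearMap.BilinForm.mem_orthogonal_iff, mem_perp]
    constructor
    · intro h n hn
      show bB ι n x = 0
      rw [bB_apply, bf_comm]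
      exact h n ((hmem n).2 hn)
    · intro h n hn
      have h1 : bB ι n x = 0 := h n ((hmem n).1 hn)
      rwa [bB_apply, bf_comm] at h1
  have h1 : Nat.card ↥V = 2 ^ Module.finrank (ZMod 2) W := by
    rw [Nat.card_congr (Equiv.subtypeEquivRight hmem), Module.natCard_eq_pow_finrank (K := ZMod 2),
      Nat.card_zmod]
  have h2 : Nat.card ↥(perp V) = 2 ^ Module.finrank (ZMod 2) ((bB ι).orthogonal W) := by
    rw [Nat.card_congr (Equiv.subtypeEquivRight hmem'), Module.natCard_eq_pow_finrank (K := ZMod 2),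
      Nat.card_zmod]
  have h3 : Nat.card (US ι) = 2 ^ Module.finrank (ZMod 2) (US ι) := by
    rw [Module.natCard_eq_pow_finrank (K := ZMod 2), Nat.card_zmod]
  rw [h1, h2, ← card_US, h3, ← pow_add, LinearMap.BilinForm.finrank_orthogonal bB_nd W,
    Nat.add_sub_cancel' (Submodule.finrank_le W)]

theorem le_perp_perp (V : AddSubgroup (US ι)) : V ≤ perp (perp V) := by
  intro x hx z hz
  rw [bf_comm]
  exact hz x hx

theorem card_pos' (V : AddSubgroup (US ι)) : 0 < Nat.card ↥V := Nat.card_pos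

theorem perp_perp (V : AddSubgroup (US ι)) : perp (perp V) = V := by
  refine (AddSubgroup.eq_of_le_of_card_ge (le_perp_perp V) ?_).symm
  have h1 := card_perp V
  have h2 := card_perp (perp V)
  rw [← h1, mul_comm] at h2
  exact (Nat.eq_of_mul_eq_mul_right (card_pos' (perp V)) h2).le

/-- A subgroup on which the bilinear form vanishes has at most `2 ^ n` elements. -/
theorem iso_card {V : AddSubgroup (US ι)} (h : ∀ x ∈ V, ∀ y ∈ V, bf x y = 0) :
    Nat.card ↥V ≤ 2 ^ Fintype.card ι := by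
  have h1 : Nat.card ↥V ≤ Nat.card ↥(perp V) :=
    AddSubgroup.card_le_of_le (show V ≤ perp V from fun x hx y hy => h x hx y hy)
  have h2 := card_perp V
  have h3 : (4 : ℕ) ^ Fintype.card ι = 2 ^ Fintype.card ι * 2 ^ Fintype.card ι := by
    rw [← mul_pow]
    rfl
  rw [h3] at h2
  refine Nat.mul_self_le_mul_self_iff.1 ?_
  calc Nat.card ↥V * Nat.card ↥V ≤ Nat.card ↥V * Nat.card ↥(perp V) := Nat.mul_le_mul_left _ h1
    _ = _ := h2

theorem lag_bf {Λ : AddSubgroup (US ι)} (h : Lag Λ) {x y : US ι} (hx : x ∈ Λ) (hy : y ∈ Λ) :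
    bf x y = 0 := by
  have h1 := qf_add x y
  rw [h.iso _ (add_mem hx hy), h.iso x hx, h.iso y hy, add_zero, zero_add] at h1
  exact h1.symm

theorem lag_perp {Λ : AddSubgroup (US ι)} (h : Lag Λ) : perp Λ = Λ :=
  le_antisymm (fun z hz => h.max z hz) (fun _ hx _ hy => lag_bf h hx hy)

/-- Maximal isotropic subgroups have `2 ^ n` elements. -/
theorem lag_card {Λ : AddSubgroup (US ι)} (h : Lag Λ) : Nat.card ↥Λ = 2 ^ Fintype.card ι := by
  have h2 := card_perp Λ
  have h3 : (4 : ℕ) ^ Fintype.card ι = 2 ^ Fintype.card ι * 2 ^ Fintype.card ι := by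
    rw [← mul_pow]
    rfl
  rw [lag_perp h, h3] at h2
  exact Nat.mul_self_inj.1 h2

/-- Isotropic subgroups with at least `2 ^ n` elements are maximal. -/
theorem lag_of_card {Λ : AddSubgroup (US ι)} (h : ∀ x ∈ Λ, qf x = 0)
    (hc : 2 ^ Fintype.card ι ≤ Nat.card ↥Λ) : Lag Λ := by
  have hb : ∀ x ∈ Λ, ∀ y ∈ Λ, bf x y = 0 := by
    intro x hx y hy
    have h1 := qf_add x y
    rw [h _ (add_mem hx hy), h x hx, h y hy, add_zero, zero_add] at h1
    exact h1.symm
  have hle : Λ ≤ perp Λ := fun x hx y hy => hb x hx y hy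
  have h2 := card_perp Λ
  have h3 : (4 : ℕ) ^ Fintype.card ι = 2 ^ Fintype.card ι * 2 ^ Fintype.card ι := by
    rw [← mul_pow]
    rfl
  have h4 := le_antisymm (iso_card hb) hc
  rw [h4, h3] at h2
  have h5 := Nat.eq_of_mul_eq_mul_left (pow_pos two_pos _) h2
  have h6 : Λ = perp Λ := AddSubgroup.eq_of_le_of_card_ge hle (by rw [h5, h4])
  refine ⟨h, fun z hz => ?_⟩
  rw [h6]
  exact hz

theorem lag_WW : Lag (WW ι) := by
  constructor
  · intro x hx
    unfold qf
    refine Finset.sum_eq_zero fun i _ => ?_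
    rw [mem_WW.1 hx i, zero_mul]
  · intro z hz
    rw [mem_WW]
    intro i
    have h1 := hz (Pi.single i (0, 1)) (by
      rw [mem_WW]
      intro j
      by_cases hj : j = i
      · rw [hj, Pi.single_eq_same]
      · rw [Pi.single_eq_of_ne hj]
        rfl)
    rw [bf_comm, bf_single] at h1
    simpa using h1

theorem lag_rho {a : US ι} (ha : qf a = 1) {Λ : AddSubgroup (US ι)} (h : Lag Λ) :
    Lag (Λ.map (rho a)) := by
  constructor
  · rintro x ⟨y, hy, rfl⟩
    rw [qf_rho ha]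
    exact h.iso y hy
  · intro z hz
    refine ⟨rho a z, h.max _ fun x hx => ?_, rho_rho a z⟩
    rw [← bf_rho a (rho a z) x, rho_rho]
    exact hz _ ⟨x, hx, rfl⟩

/-- An element orthogonal to the intersection is a sum. -/
theorem mem_sup {Λ M : AddSubgroup (US ι)} (h : Lag Λ) (h' : Lag M) {z : US ι}
    (hz : ∀ x ∈ Λ ⊓ M, bf z x = 0) : ∃ x ∈ Λ, ∃ y ∈ M, z = x + y := by
  have h1 : perp (Λ ⊔ M) = Λ ⊓ M := by
    refine le_antisymm (fun w hw => ?_) (fun w hw => ?_)
    · rw [AddSubgroup.mem_inf]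
      exact ⟨h.max w fun x hx => hw x (AddSubgroup.mem_sup_left hx),
        h'.max w fun x hx => hw x (AddSubgroup.mem_sup_right hx)⟩
    · rw [AddSubgroup.mem_inf] at hw
      intro x hx
      obtain ⟨y, hy, y', hy', rfl⟩ := AddSubgroup.mem_sup.1 hx
      rw [bf_add, lag_bf h hw.1 hy, lag_bf h' hw.2 hy', add_zero]
  have h2 : z ∈ perp (Λ ⊓ M) := hz
  rw [← h1, perp_perp] at h2
  obtain ⟨x, hx, y, hy, hxy⟩ := AddSubgroup.mem_sup.1 h2
  exact ⟨x, hx, y, hy, hxy.symm⟩

end H36MQ
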