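import Pool.Agent.H36.MQ.Rb

/-!
ROW Rd (project MP_78d38b_MQ, about 200 lines): the intersections with `WW`. Elementary; use the statements of Rb.lean, Rc.lean.

inf_rho: `y = rho a z = z + bf a z • a`, `z ∈ Λ`, `y ∈ WW`. If `bf a z = 1`: `z + a ∈ WW`, so `0 = bf (z + a) x = bf z x + bf a x = 0 + 1`
(`lag_bf lag_WW`, `lag_bf h`). So `bf a z = 0`, `y = z`. Conversely `rho a y = y` if `bf a y = 0`.
half_one: by inf_rho the group is the kernel of `bf a` on `Λ ⊓ WW ι`, on which `bf a` is surjective onto `ZMod 2`: index 2.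
half: if some `x ∈ Λ ⊓ WW ι` has `bf a x = 1`: half_one. Else `a` is orthogonal to `Λ ⊓ WW ι`: `a = l + w`, `l ∈ Λ`, `w ∈ WW ι` (mem_sup, lag_WW);
`1 = qf a = qf l + qf w + bf l w = bf l w`; `bf a l = bf w l = 1`, so `rho a l = l + a = w ∈ (Λ.map (rho a)) ⊓ WW ι` and `bf a w = bf l w = 1`. half_one for
`Λ.map (rho a)` (`lag_rho`) and `map_rho_rho`: `2 * |Λ ⊓ WW| = |Λ.map (rho a) ⊓ WW|`.
parity: half twice: `4 ^ k ↦ 4 ^ (k + 1), 4 ^ k, 4 ^ (k - 1)` (`k ≥ 1` in the last case, because `4 ^ k` is even or divisible by four).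
red_one: `Λ ⊓ WW ι` has at least four elements (`4 ^ k`, not one), so it contains `x ≠ 0` and `y ≠ 0`, `y ≠ x` (`Set`/`Finset` cardinality, e.g. if all
elements are `0` or `x` the cardinality is at most two). `a` from `ex_sing (x, y)`, `b` from `ex_sing (y, x)` (only `qf b = 1`, `bf b y = 1` used). By inf_rho twice (`y ∈ Λ.map (rho a) ⊓ WW ι`
because `bf a y = 0`) the new intersection is `{z ∈ Λ ⊓ WW ι | bf a z = 0, bf b z = 0}`, which does not contain `x`: strictly smaller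
(`Nat.card` of a proper subgroup of a finite group).
red_two: `x, y` as before in `M ⊓ WW ι`. `z` with `bf z x = 1`, `bf z y = 0` (nd2); `z = l + w`, `l ∈ Λ`, `w ∈ WW ι` (mem_sup, `Λ ⊓ WW ι = ⊥`);
`bf w x = bf w y = 0` (lag_WW), so `bf l x = 1`, `bf l y = 0`. `a := l + x`: `qf a = 0 + 0 + 1 = 1`, `bf a x = 1`, `bf a y = 0`. `b` from ex_both.
`Λ.map (rho a) ⊓ WW ι ⊆ {0, x}`: `z ∈ Λ`, `z + bf a z • a ∈ WW ι`: if `bf a z = 0`, `z ∈ Λ ⊓ WW ι = ⊥`; if `bf a z = 1`: `z + l + x ∈ WW ι`, so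
`z + l ∈ Λ ⊓ WW ι = ⊥`, `z = l`, `rho a l = l + a = x`. `x ∈ Λ.map (rho a) ⊓ WW ι` (`bf a l = bf x l = 1`), `bf b x = 1`, so by inf_rho the next intersection is
`{z ∈ {0, x} | bf b z = 0} = ⊥`. For `M`: as in red_one (`x ∈ M ⊓ WW`, `bf a x = 1`; `y ∈ M.map (rho a) ⊓ WW`, `bf b y = 1`).
-/

set_option autoImplicit false
open scoped Classical

namespace H36MQ

open H26MQ

variable {ι : Type} [Fintype ι]

theorem card_ker {G K : AddSubgroup (US ι)} {a x : US ι} (hx : x ∈ G) (hax : bf a x = 1)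
    (hK : ∀ y, y ∈ K ↔ y ∈ G ∧ bf a y = 0) : 2 * Nat.card ↥K = Nat.card ↥G := by
  have hs : ∀ t : ZMod 2, t • x ∈ G := by
    intro t
    rcases z2 t with rfl | rfl
    · rw [zero_smul]
      exact zero_mem G
    · rw [one_smul]
      exact hx
  let f : ↥K × ZMod 2 → ↥G := fun p => ⟨p.1 + p.2 • x, add_mem ((hK _).1 p.1.2).1 (hs p.2)⟩
  have hf : Function.Bijective f := by
    constructor
    · rintro ⟨k, t⟩ ⟨k', t'⟩ he
      have he' : (k : US ι) + t • x = k' + t' • x := congrArg Subtype.val he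
      have h1 : bf a ((k : US ι) + t • x) = t := by
        rw [bf_add, bf_smul, hax, mul_one, ((hK _).1 k.2).2, zero_add]
      have h2 : bf a ((k' : US ι) + t' • x) = t' := by
        rw [bf_add, bf_smul, hax, mul_one, ((hK _).1 k'.2).2, zero_add]
      have ht : t = t' := by rw [← h1, ← h2, he']
      subst ht
      have hk : (k : US ι) = k' := add_right_cancel he'
      exact Prod.ext (Subtype.ext hk) rfl
    · intro z
      refine ⟨(⟨z + bf a z • x, (hK _).2 ⟨add_mem z.2 (hs _), ?_⟩⟩, bf a z), ?_⟩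
      · rw [bf_add, bf_smul, hax, mul_one, z2_add]
      · refine Subtype.ext ?_
        show (z : US ι) + bf a z • x + bf a z • x = z
        rw [us_add_cancel]
  have hc := Nat.card_congr (Equiv.ofBijective f hf)
  rw [Nat.card_prod, Nat.card_zmod] at hc
  rw [← hc, mul_comm]

theorem two_elts {G : AddSubgroup (US ι)} (hne : G ≠ ⊥) (hev : ∃ k, Nat.card ↥G = 4 ^ k) :
    ∃ x ∈ G, ∃ y ∈ G, x ≠ 0 ∧ y ≠ 0 ∧ x ≠ y := by
  obtain ⟨k, hk⟩ := hev
  obtain ⟨x, hx, hx0⟩ := G.bot_or_exists_ne_zero.resolve_left hne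
  by_contra hcon
  have hall : ∀ y ∈ G, y = 0 ∨ y = x := fun y hy => by
    by_cases h0 : y = 0
    · exact Or.inl h0
    · right
      by_contra h1
      exact hcon ⟨x, hx, y, hy, hx0, h0, fun e => h1 e.symm⟩
  have hinj : Function.Injective (fun z : ↥G => if (z : US ι) = 0 then true else false) := by
    intro z w he
    rcases hall z z.2 with h1 | h1 <;> rcases hall w w.2 with h2 | h2
    · exact Subtype.ext (h1.trans h2.symm)
    · exfalso
      have h3 : (w : US ι) ≠ 0 := by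
        rw [h2]
        exact hx0
      simp only [h1, h3, if_true, if_false] at he
      exact absurd he (by decide)
    · exfalso
      have h3 : (z : US ι) ≠ 0 := by
        rw [h1]
        exact hx0
      simp only [h2, h3, if_true, if_false] at he
      exact absurd he (by decide)
    · exact Subtype.ext (h1.trans h2.symm)
  have h2 : Nat.card ↥G ≤ 2 := by
    have h3 := Nat.card_le_card_of_injective _ hinj
    rw [Nat.card_eq_fintype_card (α := Bool), Fintype.card_bool] at h3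
    exact h3
  have hk0 : k = 0 := by
    by_contra hk0
    have h4 : 4 ^ 1 ≤ 4 ^ k := Nat.pow_le_pow_right (by norm_num) (Nat.one_le_iff_ne_zero.2 hk0)
    rw [← hk] at h4
    omega
  rw [hk0, pow_zero] at hk
  have hss : Subsingleton ↥G := (Nat.card_eq_one_iff_unique.1 hk).1
  exact hx0 (congrArg Subtype.val (Subsingleton.elim (⟨x, hx⟩ : ↥G) 0))

theorem inf_rho {Λ : AddSubgroup (US ι)} (h : Lag Λ) {a x : US ι} (hx : x ∈ Λ ⊓ WW ι)
    (hax : bf a x = 1) (y : US ι) :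
    y ∈ Λ.map (rho a) ⊓ WW ι ↔ y ∈ Λ ⊓ WW ι ∧ bf a y = 0 := by
  constructor
  · rintro ⟨⟨z, hz, rfl⟩, hy⟩
    rcases z2 (bf a z) with h0 | h1
    · have e : rho a z = z := by rw [rho_apply, h0, zero_smul, add_zero]
      rw [e] at hy ⊢
      exact ⟨⟨hz, hy⟩, h0⟩
    · exfalso
      have e : rho a z = z + a := by rw [rho_apply, h1, one_smul]
      rw [e] at hy
      have h2 := lag_bf lag_WW hy hx.2
      rw [add_bf, lag_bf h hz hx.1, hax, zero_add] at h2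
      exact one_ne_zero h2
  · rintro ⟨⟨h1, h2⟩, h3⟩
    refine ⟨⟨y, h1, ?_⟩, h2⟩
    rw [rho_apply, h3, zero_smul, add_zero]

theorem half_one {Λ : AddSubgroup (US ι)} (h : Lag Λ) {a x : US ι} (hx : x ∈ Λ ⊓ WW ι)
    (hax : bf a x = 1) : 2 * Nat.card ↥(Λ.map (rho a) ⊓ WW ι) = Nat.card ↥(Λ ⊓ WW ι) :=
  card_ker hx hax (inf_rho h hx hax)

theorem half {Λ : AddSubgroup (US ι)} (h : Lag Λ) {a : US ι} (ha : qf a = 1) :
    2 * Nat.card ↥(Λ.map (rho a) ⊓ WW ι) = Nat.card ↥(Λ ⊓ WW ι) ∨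
      Nat.card ↥(Λ.map (rho a) ⊓ WW ι) = 2 * Nat.card ↥(Λ ⊓ WW ι) := by
  by_cases hx : ∃ x ∈ Λ ⊓ WW ι, bf a x = 1
  · obtain ⟨x, hx, hax⟩ := hx
    exact Or.inl (half_one h hx hax)
  · right
    have h0 : ∀ x ∈ Λ ⊓ WW ι, bf a x = 0 := fun x hx' => by
      rcases z2 (bf a x) with h1 | h1
      · exact h1
      · exact absurd ⟨x, hx', h1⟩ hx
    obtain ⟨l, hl, w, hw, e⟩ := mem_sup h lag_WW h0
    have hlw : bf l w = 1 := by
      rw [e, qf_add, h.iso l hl, lag_WW.iso w hw, add_zero, zero_add] at ha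
      exact ha
    have hal : bf a l = 1 := by rw [e, add_bf, bf_self, zero_add, bf_comm, hlw]
    have haw : bf a w = 1 := by rw [e, add_bf, bf_self, add_zero, hlw]
    have hr : rho a l = w := by
      rw [rho_apply, hal, one_smul, e, ← add_assoc, us_add, zero_add]
    have h2 := half_one (lag_rho ha h) (x := w) ⟨⟨l, hl, hr⟩, hw⟩ haw
    rw [map_rho_rho] at h2
    exact h2.symm

theorem parity {Λ : AddSubgroup (US ι)} (h : Lag Λ) {a b : US ι} (ha : qf a = 1) (hb : qf b = 1)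
    (hev : ∃ k, Nat.card ↥(Λ ⊓ WW ι) = 4 ^ k) :
    ∃ k, Nat.card ↥((Λ.map (rho a)).map (rho b) ⊓ WW ι) = 4 ^ k := by
  obtain ⟨k, hk⟩ := hev
  have h1 := half h ha
  have h2 := half (lag_rho ha h) hb
  rw [hk] at h1
  rcases h1 with h1 | h1 <;> rcases h2 with h2 | h2
  · cases k with
    | zero =>
      rw [pow_zero] at h1
      omega
    | succ k =>
      refine ⟨k, ?_⟩
      rw [pow_succ] at h1
      omega
  · exact ⟨k, by omega⟩
  · exact ⟨k, by omega⟩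
  · refine ⟨k + 1, ?_⟩
    rw [pow_succ]
    omega

theorem red_one {Λ : AddSubgroup (US ι)} (h : Lag Λ) (hne : Λ ⊓ WW ι ≠ ⊥)
    (hev : ∃ k, Nat.card ↥(Λ ⊓ WW ι) = 4 ^ k) : ∃ a b : US ι, qf a = 1 ∧ qf b = 1 ∧
      Nat.card ↥((Λ.map (rho a)).map (rho b) ⊓ WW ι) < Nat.card ↥(Λ ⊓ WW ι) := by
  obtain ⟨x, hx, y, hy, hx0, hy0, hxy⟩ := two_elts hne hev
  obtain ⟨a, qa, hax, hay⟩ := ex_sing hx0 hxy (h.iso x hx.1) (lag_bf h hx.1 hy.1)
  obtain ⟨b, qb, hby, -⟩ := ex_sing hy0 hxy.symm (h.iso y hy.1) (lag_bf h hy.1 hx.1)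
  refine ⟨a, b, qa, qb, ?_⟩
  have h1 := half_one h hx hax
  have hy' : y ∈ Λ.map (rho a) ⊓ WW ι := (inf_rho h hx hax y).2 ⟨hy, hay⟩
  have h2 := half_one (lag_rho qa h) hy' hby
  have h3 : 0 < Nat.card ↥(Λ ⊓ WW ι) := Nat.card_pos
  omega

theorem red_two {Λ M : AddSubgroup (US ι)} (h : Lag Λ) (h0 : Λ ⊓ WW ι = ⊥) (hM : Lag M)
    (hne : M ⊓ WW ι ≠ ⊥) (hev : ∃ k, Nat.card ↥(M ⊓ WW ι) = 4 ^ k) : ∃ a b : US ι,
      qf a = 1 ∧ qf b = 1 ∧ (Λ.map (rho a)).map (rho b) ⊓ WW ι = ⊥ ∧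
      Nat.card ↥((M.map (rho a)).map (rho b) ⊓ WW ι) < Nat.card ↥(M ⊓ WW ι) := by
  obtain ⟨x, hx, y, hy, hx0, hy0, hxy⟩ := two_elts hne hev
  obtain ⟨z, hzx, hzy⟩ := nd2 hx0 hxy
  have hz0 : ∀ u ∈ Λ ⊓ WW ι, bf z u = 0 := by
    intro u hu
    rw [h0, AddSubgroup.mem_bot] at hu
    rw [hu, bf_zero]
  obtain ⟨l, hl, w, hw, e⟩ := mem_sup h lag_WW hz0
  have hlx : bf l x = 1 := by
    rw [e, add_bf, lag_bf lag_WW hw hx.2, add_zero] at hzx
    exact hzx
  have hly : bf l y = 0 := by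
    rw [e, add_bf, lag_bf lag_WW hw hy.2, add_zero] at hzy
    exact hzy
  have qa : qf (l + x) = 1 := by
    rw [qf_add, h.iso l hl, hM.iso x hx.1, hlx, add_zero, zero_add]
  have hax : bf (l + x) x = 1 := by rw [add_bf, hlx, bf_self, add_zero]
  have hay : bf (l + x) y = 0 := by rw [add_bf, hly, lag_bf hM hx.1 hy.1, add_zero]
  obtain ⟨b, qb, hbx, hby⟩ := ex_both hx0 hy0 hxy (hM.iso x hx.1) (lag_bf hM hx.1 hy.1)
  refine ⟨l + x, b, qa, qb, ?_, ?_⟩
  · have hxm : x ∈ Λ.map (rho (l + x)) ⊓ WW ι := by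
      refine ⟨⟨l, hl, ?_⟩, hx.2⟩
      rw [rho_apply, add_bf, bf_self, bf_comm x l, hlx, zero_add, one_smul, ← add_assoc, us_add,
        zero_add]
    rw [eq_bot_iff]
    intro u hu
    rw [inf_rho (lag_rho qa h) hxm hbx] at hu
    obtain ⟨⟨⟨v, hv, rfl⟩, hu2⟩, hu3⟩ := hu
    rcases z2 (bf (l + x) v) with h1 | h1
    · have e1 : rho (l + x) v = v := by rw [rho_apply, h1, zero_smul, add_zero]
      rw [e1] at hu2 ⊢
      have h2 : v ∈ Λ ⊓ WW ι := ⟨hv, hu2⟩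
      rw [h0] at h2
      exact h2
    · exfalso
      have e1 : rho (l + x) v = v + l + x := by rw [rho_apply, h1, one_smul, add_assoc]
      rw [e1] at hu2 hu3
      have h3 := add_mem hu2 hx.2
      rw [us_add_cancel] at h3
      have h2 : v + l ∈ Λ ⊓ WW ι := ⟨add_mem hv hl, h3⟩
      rw [h0, AddSubgroup.mem_bot] at h2
      rw [h2, zero_add, hbx] at hu3
      exact one_ne_zero hu3
  · have h1 := half_one hM hx hax
    have hy' : y ∈ M.map (rho (l + x)) ⊓ WW ι := (inf_rho hM hx hax y).2 ⟨hy, hay⟩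
    have h2 := half_one (lag_rho qa hM) hy' hby
    have h3 : 0 < Nat.card ↥(M ⊓ WW ι) := Nat.card_pos
    omega

end H36MQ
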