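import Pool.Agent.H36.MQ.Rb

/-!
ROW Re (project MP_78d38b_MQ, about 150 lines): isolating the structures by commutators. Elementary; use the statements of Ra.lean, Rb.lean.

Write `mv B f s := fun j => if j ∈ B then (s j).map f else s j`. `Al R B f`: the move `f` on `B` is allowed.
al_comp: `mv B g (mv B f s) = mv B (g.comp f) s` (`AddSubgroup.map_map`, split on `j ∈ B`).
al_comm: the four moves `x'` on `B`, `y'` on `C`, `x` on `B`, `y` on `C` give `z` on `B ∩ C` and the identity elsewhere
(`x (x' w) = w`, `y (y' w) = w`: `AddSubgroup.map_map` and `AddSubgroup.map_id` with `AddMonoidHom.ext`).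
al_inter: given `a, b`. If `bf a b = 1`: `c` from ex_perp; al_comm with `x := (rho a).comp (rho b)` (this is `hB b a`), `x' := (rho b).comp (rho a)` (`hB a b`),
`y := (rho a).comp (rho c)`, `y' := (rho c).comp (rho a)`: `z = (rho a).comp (rho b)` by `rho_commutator`; this is the statement for `(b, a)`:
so apply everything with `a` and `b` exchanged. If `bf a b = 0` and `a = b`: the move is the identity (`map_rho_rho`). If `bf a b = 0`,
`a ≠ b`: `c` from ex_opp (`a ≠ 0` because `qf a = 1`), `rho b (rho a z) = rho b (rho c (rho c (rho a z)))` (rho_rho): the moves `(a, c)` and then `(c, b)`, both with `bf = 1` (first case), al_comp.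
al_all: `P i` = the pairs: for a finite set `F` of patterns with `i ∈ C p` for all `p ∈ F`, `F` nonempty, the intersection `{j | ∀ p ∈ F, j ∈ C p}` is allowed
(`Finset.induction`/`Finset.Nonempty.cons_induction` with al_inter). `J` finite: for every `l` with `∃ p, i ∈ C p ∧ l ∉ C p` choose such a `p`;
`F` := the image of the finite set of these `l`, together with one `p` from `one i`. Then the intersection is `BB C i`.
-/

set_option autoImplicit false
open scoped Classical

namespace H36MQ

open H26MQ

variable {ι J Pt : Type} [Fintype ι]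

/-- The pairs of reflections are allowed on the set `B`. -/
def Al (R : (J → AddSubgroup (US ι)) → Prop) (B : Set J) : Prop :=
  ∀ s, R s → ∀ a b, qf a = 1 → qf b = 1 →
    R fun j => if j ∈ B then ((s j).map (rho a)).map (rho b) else s j

/-- The structures which are not separated from `i`. -/
def BB (C : Pt → Set J) (i : J) : Set J := {j | ∀ p, i ∈ C p → j ∈ C p}

theorem Re_map_comm {a b c : US ι} (h : bf a b = 1) (hac : bf a c = 0) (hbc : bf b c = 0)
    (Λ : AddSubgroup (US ι)) :
    (((((((Λ.map (rho a)).map (rho b)).map (rho a)).map (rho c)).map (rho b)).map (rho a)).map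
      (rho c)).map (rho a) = (Λ.map (rho b)).map (rho a) := by
  simp only [AddSubgroup.map_map]
  congr 1
  exact AddMonoidHom.ext fun z => rho_commutator h hac hbc z

theorem Re_map_four (a b : US ι) (Λ : AddSubgroup (US ι)) :
    (((Λ.map (rho a)).map (rho b)).map (rho b)).map (rho a) = Λ := by
  rw [map_rho_rho, map_rho_rho]

theorem Re_one (hι : 3 ≤ Fintype.card ι) {R : (J → AddSubgroup (US ι)) → Prop} {B C : Set J}
    (hB : Al R B) (hC : Al R C) {a b : US ι} (ha : qf a = 1) (hb : qf b = 1) (hab : bf a b = 1)
    (s : J → AddSubgroup (US ι)) (hs : R s) :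
    R fun j => if j ∈ B ∩ C then ((s j).map (rho b)).map (rho a) else s j := by
  obtain ⟨c, hc, hac, hbc⟩ := ex_perp hι a b
  have h1 := hC _ (hB _ (hC _ (hB s hs a b ha hb) a c ha hc) b a hb ha) c a hc ha
  have e : (fun j => if j ∈ B ∩ C then ((s j).map (rho b)).map (rho a) else s j) = fun j =>
      if j ∈ C then ((((fun j => if j ∈ B then ((((fun j => if j ∈ C then
        ((((fun j => if j ∈ B then ((s j).map (rho a)).map (rho b) else s j) j).map
          (rho a)).map (rho c)) else (fun j => if j ∈ B then ((s j).map (rho a)).map (rho b)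
            else s j) j) j).map (rho b)).map (rho a)) else (fun j => if j ∈ C then
        ((((fun j => if j ∈ B then ((s j).map (rho a)).map (rho b) else s j) j).map
          (rho a)).map (rho c)) else (fun j => if j ∈ B then ((s j).map (rho a)).map (rho b)
            else s j) j) j) j).map (rho c)).map (rho a)) else (fun j => if j ∈ B then
        ((((fun j => if j ∈ C then
        ((((fun j => if j ∈ B then ((s j).map (rho a)).map (rho b) else s j) j).map
          (rho a)).map (rho c)) else (fun j => if j ∈ B then ((s j).map (rho a)).map (rho b)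
            else s j) j) j).map (rho b)).map (rho a)) else (fun j => if j ∈ C then
        ((((fun j => if j ∈ B then ((s j).map (rho a)).map (rho b) else s j) j).map
          (rho a)).map (rho c)) else (fun j => if j ∈ B then ((s j).map (rho a)).map (rho b)
            else s j) j) j) j := by
    funext j
    by_cases h2 : j ∈ B <;> by_cases h3 : j ∈ C
    · simp only [Set.mem_inter_iff, h2, h3, and_self, if_true]
      exact (Re_map_comm hab hac hbc (s j)).symm
    · simp only [Set.mem_inter_iff, h2, h3, and_false, if_true, if_false]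
      exact (Re_map_four a b (s j)).symm
    · simp only [Set.mem_inter_iff, h2, h3, false_and, if_true, if_false]
      exact (Re_map_four a c (s j)).symm
    · simp only [Set.mem_inter_iff, h2, h3, and_self, if_false]
  rw [e]
  exact h1

theorem al_inter (hι : 3 ≤ Fintype.card ι) {R : (J → AddSubgroup (US ι)) → Prop} {B C : Set J}
    (hB : Al R B) (hC : Al R C) : Al R (B ∩ C) := by
  have key : ∀ s, R s → ∀ a b, qf a = 1 → qf b = 1 → bf a b = 1 →
      R fun j => if j ∈ B ∩ C then ((s j).map (rho a)).map (rho b) else s j := by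
    intro s hs a b ha hb hab
    exact Re_one hι hB hC hb ha (by rw [bf_comm]; exact hab) s hs
  have ex : ∀ f g : J → AddSubgroup (US ι), (∀ j, f j = g j) → R g → R f := fun f g h hg =>
    (funext h : f = g) ▸ hg
  intro s hs a b ha hb
  rcases z2 (bf a b) with h0 | h1
  · by_cases hab : a = b
    · subst hab
      refine ex _ _ (fun j => ?_) hs
      by_cases h3 : j ∈ B ∩ C
      · rw [if_pos h3]
        exact map_rho_rho a (s j)
      · rw [if_neg h3]
    · have ha0 : a ≠ 0 := by
        intro h
        rw [h, qf_zero] at ha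
        exact absurd ha (by decide)
      have hb0 : b ≠ 0 := by
        intro h
        rw [h, qf_zero] at hb
        exact absurd hb (by decide)
      obtain ⟨c, hc, hac, hbc⟩ := ex_opp hι ha0 hb0 hab
      refine ex _ _ (fun j => ?_)
        (key _ (key s hs a c ha hc hac) c b hc hb (by rw [bf_comm]; exact hbc))
      by_cases h3 : j ∈ B ∩ C
      · rw [if_pos h3, if_pos h3, if_pos h3, map_rho_rho]
      · rw [if_neg h3, if_neg h3, if_neg h3]
  · refine ex _ _ (fun j => ?_) (key s hs a b ha hb h1)
    by_cases h3 : j ∈ B ∩ C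
    · rw [if_pos h3, if_pos h3]
    · rw [if_neg h3, if_neg h3]

theorem al_all [Finite J] (hι : 3 ≤ Fintype.card ι) {R : (J → AddSubgroup (US ι)) → Prop}
    {C : Pt → Set J} (h : ∀ p, Al R (C p)) (one : ∀ i, ∃ p, i ∈ C p) (i : J) : Al R (BB C i) := by
  obtain ⟨p0, hp0⟩ := one i
  have key : ∀ F : Finset Pt, Al R {j | j ∈ C p0 ∧ ∀ p ∈ F, j ∈ C p} := by
    intro F
    induction F using Finset.induction_on with
    | empty =>
      have e : {j | j ∈ C p0 ∧ ∀ p ∈ (∅ : Finset Pt), j ∈ C p} = C p0 := by
        ext j
        simp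
      rw [e]
      exact h p0
    | insert q F _ ih =>
      have e : {j | j ∈ C p0 ∧ ∀ p ∈ insert q F, j ∈ C p} =
          {j | j ∈ C p0 ∧ ∀ p ∈ F, j ∈ C p} ∩ C q := by
        ext j
        simp only [Set.mem_setOf_eq, Set.mem_inter_iff, Finset.mem_insert, forall_eq_or_imp]
        tauto
      rw [e]
      exact al_inter hι ih (h q)
  have hch : ∀ l : J, ∃ q : Pt, i ∈ C q ∧ ((∃ p, i ∈ C p ∧ l ∉ C p) → l ∉ C q) := by
    intro l
    by_cases hl : ∃ p, i ∈ C p ∧ l ∉ C p
    · obtain ⟨p, hp1, hp2⟩ := hl
      exact ⟨p, hp1, fun _ => hp2⟩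
    · exact ⟨p0, hp0, fun h1 => absurd h1 hl⟩
  choose f hf1 hf2 using hch
  haveI : Fintype J := Fintype.ofFinite J
  have e : BB C i = {j | j ∈ C p0 ∧ ∀ p ∈ (Finset.univ.image f : Finset Pt), j ∈ C p} := by
    ext j
    constructor
    · intro hj
      refine ⟨hj p0 hp0, ?_⟩
      intro p hp
      obtain ⟨l, _, rfl⟩ := Finset.mem_image.1 hp
      exact hj _ (hf1 l)
    · intro hj p hp
      by_contra hcon
      exact hf2 j ⟨p, hp, hcon⟩ (hj.2 (f j) (Finset.mem_image.2 ⟨j, Finset.mem_univ j, rfl⟩))
  rw [e]
  exact key _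

end H36MQ
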