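import Pool.Agent.H26.MQ.Pd
import Pool.Agent.H36.MQ.Ty

/-!
**Infinite multiquadratic extensions with finitely many points.** Let `E : y² = x³ + A x + B` be an
elliptic curve over the number field `K` without point of order two over `K` and with discriminant not a
square in `K`, and let `N / K` be a (finite) multiquadratic extension, for example `N = K`. There are
infinitely many `D` modulo squares, near to `D₀`, with infinite multiquadratic extensions `F / K` which
contain `N`, such that `E_D(F)` is finite and for all number fields `M` between `K` and `F` and all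
`m ∈ M` with a square root in `F` the groups `E_{mD}(M)` and the two-primary parts of the
Tate-Shafarevich groups of `E_{mD}` over `M` are finite, if and only if the two-Selmer ranks of the
curves `E_{d D₀}` over `K`, `d ∈ K` with a square root in `N`, are even. For almost all curves, ordered
by height, and a fixed neighbourhood of `D₀`, they exist if and only if the parities of these ranks are
balanced, and this is always true if the decomposition groups in `N / K` have order at most two, for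
example for all quadratic extensions `N / K`.
-/

set_option autoImplicit false
open scoped Classical

namespace Pool.Agent.Results.MP_78d38b_nt.InfiniteTowers

open NumberField WeierstrassCurve IsDedekindDomain Pool.Agent.H10

variable {K : Type} [Field K] [NumberField K]

/-- `x³ + A x + B` has no root in `K` and `-(4 A³ + 27 B²)` is not a square in `K`, where
`p = (A, B)`. -/
def Full (p : 𝓞 K × 𝓞 K) : Prop :=
  (∀ t : K, t ^ 3 + (p.1 : K) * t + (p.2 : K) ≠ 0) ∧
    ¬ IsSquare (-(4 * (p.1 : K) ^ 3 + 27 * (p.2 : K) ^ 2))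

/-- The quadratic twist `E_m : y² = x³ + m² A x + m³ B` over the extension `M` of `K` by an element `m`
of `M`, where `p = (A, B)`. -/
def twist (p : 𝓞 K × 𝓞 K) (M : Type) [Field M] [Algebra K M] (m : M) : WeierstrassCurve M :=
  ⟨0, 0, 0, m ^ 2 * algebraMap K M (p.1 : K), m ^ 3 * algebraMap K M (p.2 : K)⟩

/-- The group `E_D(K)` is finite of odd order and the Tate-Shafarevich group of `E_D` over `K` has no
nontrivial element of two-power order. -/
def Triv (p : 𝓞 K × 𝓞 K) (D : K) : Prop :=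
  Finite (twist p K D).toAffine.Point ∧ Odd (Nat.card (twist p K D).toAffine.Point) ∧
    Sha2Trivial K (twist p K D)

/-- The two-primary part of the Tate-Shafarevich group of `W` over `M` is finite: the locally constant
cocycles which are coboundaries at all places and of which a multiple by a power of two is a coboundary
fall into finitely many classes modulo coboundaries. -/
def TwoPartFinite (M : Type) [Field M] [NumberField M] (W : WeierstrassCurve M) : Prop :=
  ∃ S : Set ((AlgebraicClosure M ≃ₐ[M] AlgebraicClosure M) →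
      (W.baseChange (AlgebraicClosure M)).toAffine.Point), S.Finite ∧
    ∀ f : (AlgebraicClosure M ≃ₐ[M] AlgebraicClosure M) →
        (W.baseChange (AlgebraicClosure M)).toAffine.Point,
      IsCocycle M W f → IsLocTriv M W f → (∃ m : ℕ, IsCobound M W (fun σ => (2 ^ m) • f σ)) →
      ∃ g ∈ S, IsCobound M W (fun σ => f σ - g σ)

/-- For all number fields `M` between `K` and `F` and all `m ≠ 0` in `M` with a square root in `F`, the
group `E_{mD}(M)` and the two-primary part of the Tate-Shafarevich group of `E_{mD}` over `M` are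
finite. -/
def FinOver (F : Type) [Field F] [Algebra K F] (p : 𝓞 K × 𝓞 K) (D : K) : Prop :=
  ∀ (M : Type) [Field M] [NumberField M] [Algebra K M] [Algebra M F] [IsScalarTower K M F],
    ∀ m : M, m ≠ 0 → IsSquare (algebraMap M F m) →
      Finite (twist p M (m * algebraMap K M D)).toAffine.Point ∧
        TwoPartFinite M (twist p M (m * algebraMap K M D))

section Selmer

variable {k : Type} [Field k] [NumberField k]

/-- Functions on the Galois group of `k` with values in `W(k̄)`. -/
abbrev Fun (W : WeierstrassCurve k) : Type :=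
  (AlgebraicClosure k ≃ₐ[k] AlgebraicClosure k) →
    (W.baseChange (AlgebraicClosure k)).toAffine.Point

/-- The locally constant one-cocycles with values in the points killed by two which become
coboundaries in `W` over all completions of `k`. -/
def IsSel (W : WeierstrassCurve k) (f : Fun W) : Prop :=
  IsCocycle k W f ∧ IsLocTriv k W f ∧ ∀ σ, f σ + f σ = 0

/-- The difference is the coboundary of a point killed by two. -/
def Cohom (W : WeierstrassCurve k) (f g : {f : Fun W // IsSel W f}) : Prop :=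
  ∃ T : (W.baseChange (AlgebraicClosure k)).toAffine.Point,
    T + T = 0 ∧ ∀ σ : AlgebraicClosure k ≃ₐ[k] AlgebraicClosure k,
      f.1 σ - g.1 σ = (WeierstrassCurve.Affine.Point.map σ.toAlgHom :
        (W.baseChange (AlgebraicClosure k)).toAffine.Point →+
          (W.baseChange (AlgebraicClosure k)).toAffine.Point) T - T

end Selmer

/-- The two-Selmer rank of `E_D` over `K` is even: the two-Selmer group of `E_D` over `K` has order
`4 ^ k` for some `k`. -/
def EvenRank (p : 𝓞 K × 𝓞 K) (D : K) : Prop :=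
  ∃ k : ℕ, Nat.card (Quot (Cohom (twist p K D))) = 4 ^ k

/-- `D ≠ 0`, and `D / D₀` is a square in the completions at the primes of `S` and totally positive. -/
def Near (S : Finset (HeightOneSpectrum (𝓞 K))) (D₀ D : K) : Prop :=
  D ≠ 0 ∧ (∀ v ∈ S, IsSquare (algebraMap K (v.adicCompletion K) (D / D₀))) ∧
    ∀ s : K →+* ℝ, 0 < s (D / D₀)

/-- The extension `N / K` is multiquadratic. -/
def Multiquadratic (K N : Type) [Field K] [Field N] [Algebra K N] : Prop :=
  IsGalois K N ∧ ∀ g : N ≃ₐ[K] N, g * g = 1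

/-- The nonzero elements of `K` with a square root in `N`. -/
def Roots (K N : Type) [Field K] [Field N] [Algebra K N] : Set K :=
  {d | d ≠ 0 ∧ IsSquare (algebraMap K N d)}

/-- There is an infinite multiquadratic extension `F / K` which contains `N` such that `E_D(F)` is finite,
`FinOver` holds for `F`, and for all `x ≠ 0` in `K` with a square root in `F` the curve `E_{xD}` satisfies
`Triv` and `x` is near (for `S`) to an element of `K` with a square root in `N`. -/
def Tower (N : Type) [Field N] [Algebra K N] (p : 𝓞 K × 𝓞 K) (S : Finset (HeightOneSpectrum (𝓞 K)))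
    (D : K) : Prop :=
  ∃ (F : Type) (_ : Field F) (_ : Algebra K F) (_ : Algebra N F) (_ : IsScalarTower K N F),
    Multiquadratic K F ∧ ¬ FiniteDimensional K F ∧
    Finite (twist p F (algebraMap K F D)).toAffine.Point ∧ FinOver F p D ∧
    ∀ x ∈ Roots K F, Triv p (x * D) ∧ ∃ d ∈ Roots K N, Near S d x

/-- There is a sequence of elements `D` of `K`, pairwise different modulo squares, which are near to
`D₀` and satisfy `Tower`. -/
def Many (N : Type) [Field N] [Algebra K N] (p : 𝓞 K × 𝓞 K) (S : Finset (HeightOneSpectrum (𝓞 K)))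
    (D₀ : K) : Prop :=
  ∃ f : ℕ → K, (∀ n, Near S D₀ (f n) ∧ Tower N p S (f n)) ∧ ∀ m n, IsSquare (f m * f n) → m = n

/-- Every finite subset of `Δ` with an even number of elements whose product is a square contains an even
number of elements `d` for which the two-Selmer rank of `E_{dD}` over `K` is odd. -/
def Balanced (Δ : Set K) (p : 𝓞 K × 𝓞 K) (D : K) : Prop :=
  ∀ T : Finset K, (↑T : Set K) ⊆ Δ → Even T.card → IsSquare (∏ d ∈ T, d) →
    Even (T.filter fun d => ¬ EvenRank p (d * D)).card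

/-- The elements of `Δ` have at most two classes modulo squares in the completion of `K` at `v`. -/
def TwoClasses (Δ : Set K) (v : HeightOneSpectrum (𝓞 K)) : Prop :=
  ∀ d ∈ Δ, ∀ d' ∈ Δ, ∀ d'' ∈ Δ, IsSquare (algebraMap K (v.adicCompletion K) (d * d')) ∨
    IsSquare (algebraMap K (v.adicCompletion K) (d' * d'')) ∨
    IsSquare (algebraMap K (v.adicCompletion K) (d * d''))

variable (K) in
/-- The pairs `(A, B)` of algebraic integers of `K` of height at most `X`: the absolute values of all
complex conjugates of `A` are at most `X²` and those of `B` are at most `X³`. -/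
def Box (X : ℝ) : Set (𝓞 K × 𝓞 K) :=
  {p | ∀ s : K →+* ℂ, ‖s (p.1 : K)‖ ≤ X ^ 2 ∧ ‖s (p.2 : K)‖ ≤ X ^ 3}

/-- Finite abelian groups of odd order. -/
private theorem odd_iff {G : Type} [AddCommGroup G] [Finite G] :
    Odd (Nat.card G) ↔ ∀ P : G, P + P = 0 → P = 0 := by
  constructor
  · intro h P hP
    have h1 : addOrderOf P ∣ 2 := addOrderOf_dvd_of_nsmul_eq_zero (by rw [two_nsmul, hP])
    rcases (Nat.dvd_prime Nat.prime_two).1 h1 with h2 | h2
    · exact AddMonoid.addOrderOf_eq_one_iff.1 h2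
    · exfalso
      have h3 := addOrderOf_dvd_natCard P
      rw [h2] at h3
      exact (Nat.not_even_iff_odd.2 h) (even_iff_two_dvd.2 h3)
  · intro h
    rw [← Nat.not_even_iff_odd, even_iff_two_dvd]
    intro h2
    obtain ⟨P, hP⟩ := exists_prime_addOrderOf_dvd_card' 2 h2
    have h3 : P + P = 0 := by
      rw [← two_nsmul, ← hP]
      exact addOrderOf_nsmul_eq_zero P
    rw [h P h3, addOrderOf_zero] at hP
    norm_num at hP

private theorem triv_iff {p : 𝓞 K × 𝓞 K} {D : K} :
    Triv p D ↔ H30ZO.Tv K (D ^ 2 * (p.1 : K)) (D ^ 3 * (p.2 : K)) := by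
  constructor
  · rintro ⟨h1, h2, h3⟩
    exact ⟨h1, (@odd_iff _ _ h1).1 h2, h3⟩
  · rintro ⟨h1, h2, h3⟩
    exact ⟨h1, (@odd_iff _ _ h1).2 h2, h3⟩

private theorem even_iff {p : 𝓞 K × 𝓞 K} {D : K} : EvenRank p D ↔
    H88PL.Ev (p.1 : K) (p.2 : K) D :=
  Iff.rfl

private theorem fin_sc {N : Type} [Field N] [NumberField N] [Algebra K N] (hN : Multiquadratic K N) :
    (H38T1.sc '' Roots K N : Set (H38T1.SC K)).Finite := by
  have _ := hN.1
  exact H38MR.fin_Dl (K := K) (N := N)

private theorem tower {p : 𝓞 K × 𝓞 K} (hp : Full p) {N : Type} [Field N] [NumberField N]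
    [Algebra K N] (hN : Multiquadratic K N) {D : K} (hD : D ≠ 0)
    (H : ∀ d ∈ Roots K N, Triv p (d * D)) (S : Finset (HeightOneSpectrum (𝓞 K))) :
    Tower N p S D := by
  have _ := hN.1
  have hne : 4 * (p.1 : K) ^ 3 + 27 * (p.2 : K) ^ 2 ≠ 0 := by
    intro h
    apply hp.2
    rw [h, neg_zero]
    exact ⟨0, (mul_zero 0).symm⟩
  obtain ⟨F, _, _, _, h1, h2, h3, h4, h5, h6⟩ := H36MQ.exists_F (fun v => v.valuation_le_one p.1)
    (fun v => v.valuation_le_one p.2) hp.1 hp.2 hD hN.2 (fun d hd => triv_iff.1 (H d hd)) S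
  have e1 : (⟨0, 0, 0, algebraMap K F (D ^ 2 * (p.1 : K)), algebraMap K F (D ^ 3 * (p.2 : K))⟩ :
      WeierstrassCurve F) = twist p F (algebraMap K F D) := by
    unfold twist
    rw [map_mul, map_mul, map_pow, map_pow]
  refine ⟨F, inferInstance, inferInstance, inferInstance, h1, ⟨h2, h3⟩, h4, ?_, ?_, ?_⟩
  · rw [← e1]
    exact h6
  · intro M _ _ _ _ _ m hm hs
    exact H36MQ.fin_allF h3 hne hD (fun d hd hds => (h5 d hd hds).1) M hm hs
  · intro x hx
    exact ⟨triv_iff.2 (h5 x hx.1 hx.2).1, (h5 x hx.1 hx.2).2⟩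

private theorem mainS {p : 𝓞 K × 𝓞 K} (hp : Full p) {N : Type} [Field N] [NumberField N]
    [Algebra K N] (hN : Multiquadratic K N) {D₀ : K} (hD₀ : D₀ ≠ 0) :
    (∃ S₀ : Finset (HeightOneSpectrum (𝓞 K)), ∀ D, Near S₀ D₀ D →
      (∀ d ∈ Roots K N, Triv p (d * D)) → ∀ d ∈ Roots K N, EvenRank p (d * D₀)) ∧
    ((∀ d ∈ Roots K N, EvenRank p (d * D₀)) →
      ∀ S : Finset (HeightOneSpectrum (𝓞 K)), Many N p S D₀) := by
  obtain ⟨⟨S₀, hS₀⟩, hmain⟩ := H38MR.main_mq (fun v => v.valuation_le_one p.1)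
    (fun v => v.valuation_le_one p.2) hp.1 hp.2 hD₀ (fin_sc hN) (fun d hd => hd.1)
  refine ⟨⟨S₀, fun D h1 h2 => hS₀ D h1 fun d hd => triv_iff.1 (h2 d hd)⟩, fun h S => ?_⟩
  obtain ⟨f, h1, h2⟩ := hmain h S
  exact ⟨f, fun n => ⟨(h1 n).1, tower hp hN (h1 n).1.1 (fun d hd => triv_iff.2 ((h1 n).2 d hd)) S⟩,
    h2⟩

omit [NumberField K] in
private theorem roots_up {N F : Type} [Field N] [Field F] [Algebra K N] [Algebra K F] [Algebra N F]
    [IsScalarTower K N F] {d : K} (hd : d ∈ Roots K N) : d ∈ Roots K F := by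
  refine ⟨hd.1, ?_⟩
  rw [IsScalarTower.algebraMap_apply K N F]
  exact hd.2.map _

private theorem of_tower {p : 𝓞 K × 𝓞 K} {N : Type} [Field N] [Algebra K N]
    {S : Finset (HeightOneSpectrum (𝓞 K))} {D : K} (h : Tower N p S D) :
    ∀ d ∈ Roots K N, Triv p (d * D) := by
  obtain ⟨F, _, _, _, _, -, -, -, -, h5⟩ := h
  exact fun d hd => (h5 d (roots_up hd)).1

private theorem near_trans {S : Finset (HeightOneSpectrum (𝓞 K))} {D₀ D₁ D : K} (h0 : D₀ ≠ 0)
    (h1 : Near S D₀ D₁) (h : Near S D₁ D) : Near S D₀ D := by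
  have e : D / D₀ = D / D₁ * (D₁ / D₀) := by
    have := h1.1
    field_simp
  refine ⟨h.1, fun v hv => ?_, fun s => ?_⟩
  · rw [e, map_mul]
    exact (h.2.1 v hv).mul (h1.2.1 v hv)
  · rw [e, map_mul]
    exact mul_pos (h.2.2 s) (h1.2.2 s)

private theorem many_of {p : 𝓞 K × 𝓞 K} (hp : Full p) {N : Type} [Field N] [NumberField N]
    [Algebra K N] (hN : Multiquadratic K N) {D₀ : K} (hD₀ : D₀ ≠ 0)
    {S : Finset (HeightOneSpectrum (𝓞 K))}
    (h : ∃ D, Near S D₀ D ∧ ∀ d ∈ Roots K N, EvenRank p (d * D)) : Many N p S D₀ := by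
  obtain ⟨D, h1, h2⟩ := h
  obtain ⟨f, h3, h4⟩ := (mainS hp hN h1.1).2 h2 S
  exact ⟨f, fun n => ⟨near_trans hD₀ h1 (h3 n).1, (h3 n).2⟩, h4⟩

private theorem bal_iff {p : 𝓞 K × 𝓞 K} {Δ : Set K} {D : K} :
    Balanced Δ p D ↔ H26MQ.BalP Δ (p.1 : K) (p.2 : K) D :=
  Iff.rfl

/-- Let `K` be a number field and `N / K` a multiquadratic extension of number fields.
(1) Let `E : y² = x³ + A x + B`, `A, B ∈ 𝓞 K`, be a curve with `Full`, and `D₀ ≠ 0`. For some finite set
`S₀` of primes the following are equivalent: the two-Selmer ranks of all `E_{d D₀}` over `K`,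
`d ∈ Roots K N`, are even; there is `D` near to `D₀` (for `S₀`) such that `Triv` holds for all `E_{dD}`,
`d ∈ Roots K N`; for every finite set `S` of primes there are infinitely many `D` modulo squares near to
`D₀` (for `S`) with `Tower`.
(2) Let `S` be a finite set of primes such that `Roots K N` has at most two classes modulo squares at the
primes outside `S`, and `ε > 0`. All but at most `ε * #(Box K X)` of the curves in `Box K X`, `X ≥ X₀`,
are `Full`, and for all `D₀ ≠ 0` there are infinitely many `D` near to `D₀` (for `S`) modulo squares with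
`Tower` if and only if `D₀` is `Balanced`.
(3) If `Roots K N` has at most two classes modulo squares at all primes then all `D₀ ≠ 0` are `Balanced`
for all curves with `Full`. -/
theorem result (K : Type) [Field K] [NumberField K] (N : Type) [Field N] [NumberField N]
    [Algebra K N] (hN : Multiquadratic K N) :
    (∀ p : 𝓞 K × 𝓞 K, Full p → ∀ D₀ : K, D₀ ≠ 0 →
      ∃ S₀ : Finset (HeightOneSpectrum (𝓞 K)),
        List.TFAE [∀ d ∈ Roots K N, EvenRank p (d * D₀),
          ∃ D : K, Near S₀ D₀ D ∧ ∀ d ∈ Roots K N, Triv p (d * D),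
          ∀ S : Finset (HeightOneSpectrum (𝓞 K)), Many N p S D₀]) ∧
    (∀ S : Finset (HeightOneSpectrum (𝓞 K)), (∀ v, v ∉ S → TwoClasses (Roots K N) v) →
      ∀ ε : ℝ, 0 < ε → ∃ X₀ : ℝ, ∀ X : ℝ, X₀ ≤ X → (Box K X).Finite ∧
        ({p : 𝓞 K × 𝓞 K | p ∈ Box K X ∧ ¬ (Full p ∧ ∀ D₀ : K, D₀ ≠ 0 →
          (Many N p S D₀ ↔ Balanced (Roots K N) p D₀))}.ncard : ℝ) ≤
          ε * ((Box K X).ncard : ℝ)) ∧
    ((∀ v : HeightOneSpectrum (𝓞 K), TwoClasses (Roots K N) v) →
      ∀ p : 𝓞 K × 𝓞 K, Full p → ∀ D₀ : K, D₀ ≠ 0 → Balanced (Roots K N) p D₀) := by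
  have h0 : ∀ d ∈ Roots K N, d ≠ 0 := fun d hd => hd.1
  refine ⟨fun p hp D₀ hD₀ => ?_, fun S hS ε hε => ?_, fun hc p hp D₀ hD₀ => ?_⟩
  · obtain ⟨⟨S₀, hS₀⟩, hmain⟩ := mainS hp hN hD₀
    refine ⟨S₀, ?_⟩
    tfae_have 1 → 3 := hmain
    tfae_have 3 → 2 := by
      intro h
      obtain ⟨f, h1, -⟩ := h S₀
      exact ⟨f 0, (h1 0).1, of_tower (h1 0).2⟩
    tfae_have 2 → 1 := by
      rintro ⟨D, h1, h2⟩
      exact hS₀ D h1 h2
    tfae_finish
  · obtain ⟨X₀, h2⟩ := H26MQ.dens_balP (fin_sc hN) h0 S hε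
    refine ⟨X₀, fun X hX => ?_⟩
    have hbox : Box K X = H76PP.Bx K X := by
      ext p
      exact ⟨fun h => ⟨fun s => (h s).1, fun s => (h s).2⟩, fun h s => ⟨h.1 s, h.2 s⟩⟩
    rw [hbox]
    refine ⟨H76PP.Bx_fin K X, ?_⟩
    refine le_trans (Nat.cast_le.2 ?_) (h2 X hX)
    refine Set.ncard_le_ncard ?_ ((H76PP.Bx_fin K X).subset fun p hp => hp.1)
    rintro p ⟨hp, hno⟩
    refine ⟨hp, fun hh => hno ⟨⟨hh.1, hh.2.1⟩, fun D₀ hD₀ => ⟨fun hm => ?_, fun hb => ?_⟩⟩⟩
    · obtain ⟨f, h3, -⟩ := hm
      obtain ⟨h4, h5⟩ := h3 0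
      rw [bal_iff, H26MQ.bal_nearP hh.1 hh.2.1 h0 hD₀ h4.1 fun v => ?_]
      · exact H26MQ.bal_of_ev fun d hd => H26MQ.ev_of_tv hh.1 hh.2.1 (mul_ne_zero (h0 d hd) h4.1)
          (triv_iff.1 (of_tower h5 d hd))
      · by_cases hv : v ∈ S
        · exact Or.inl (h4.2.1 v hv)
        · exact Or.inr (hS v hv)
    · exact many_of ⟨hh.1, hh.2.1⟩ hN hD₀ (hh.2.2 D₀ hD₀ hb)
  · exact H26MQ.bal_cycP hp.1 hp.2 h0 hc hD₀

end Pool.Agent.Results.MP_78d38b_nt.InfiniteTowers
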