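import Pool.Agent.H36.MQ.Rd
import Pool.Agent.H36.MQ.Re

/-!
MP_78d38b_MQ (helper36): the algebra, assembly (statement `alg` of Pool/Agent/H26/MQ/Ag.lean).
-/

set_option autoImplicit false
open scoped Classical

namespace H36MQ

open H26MQ

variable {ι J Pt : Type} [Fintype ι]

theorem red_step {C : Pt → Set J} {R : (J → AddSubgroup (US ι)) → Prop}
    (hal : ∀ i, Al R (BB C i)) (sep : ∀ i l m, i ≠ l → i ≠ m → l ≠ m →
      (∃ p, i ∈ C p ∧ l ∉ C p) ∨ ∃ p, i ∈ C p ∧ m ∉ C p)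
    (hR : ∀ s, R s → ∀ j, Lag (s j)) {s : J → AddSubgroup (US ι)} (hs : R s)
    (hev : ∀ j, ∃ k, Nat.card ↥(s j ⊓ WW ι) = 4 ^ k) {i : J} (hi : s i ⊓ WW ι ≠ ⊥) :
    ∃ s', R s' ∧ (∀ j, ∃ k, Nat.card ↥(s' j ⊓ WW ι) = 4 ^ k) ∧
      Nat.card ↥(s' i ⊓ WW ι) < Nat.card ↥(s i ⊓ WW ι) ∧
      ∀ j, s j ⊓ WW ι = ⊥ → s' j ⊓ WW ι = ⊥ := by
  have hii : i ∈ BB C i := fun _ h => h
  by_cases hl : ∃ l ∈ BB C i, l ≠ i ∧ s l ⊓ WW ι = ⊥
  · obtain ⟨l, hlB, hli, hl0⟩ := hl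
    obtain ⟨a, b, ha, hb, h1, h2⟩ := red_two (hR s hs l) hl0 (hR s hs i) hi (hev i)
    refine ⟨_, hal i s hs a b ha hb, fun j => ?_, ?_, fun j hj => ?_⟩
    · by_cases hj : j ∈ BB C i
      · simp only [if_pos hj]
        exact parity (hR s hs j) ha hb (hev j)
      · simp only [if_neg hj]
        exact hev j
    · simp only [if_pos hii]
      exact h2
    · by_cases hjB : j ∈ BB C i
      · simp only [if_pos hjB]
        by_cases hjl : j = l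
        · rw [hjl]
          exact h1
        · have hji : j ≠ i := fun h => hi (h ▸ hj)
          rcases sep i l j hli.symm hji.symm (Ne.symm hjl) with ⟨p, h3, h4⟩ | ⟨p, h3, h4⟩
          · exact absurd (hlB p h3) h4
          · exact absurd (hjB p h3) h4
      · simp only [if_neg hjB]
        exact hj
  · push Not at hl
    obtain ⟨a, b, ha, hb, h2⟩ := red_one (hR s hs i) hi (hev i)
    refine ⟨_, hal i s hs a b ha hb, fun j => ?_, ?_, fun j hj => ?_⟩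
    · by_cases hj : j ∈ BB C i
      · simp only [if_pos hj]
        exact parity (hR s hs j) ha hb (hev j)
      · simp only [if_neg hj]
        exact hev j
    · simp only [if_pos hii]
      exact h2
    · have hji : j ≠ i := fun h => hi (h ▸ hj)
      have hjB : j ∉ BB C i := fun h => hl j h hji hj
      simp only [if_neg hjB]
      exact hj

theorem red_elt {C : Pt → Set J} {R : (J → AddSubgroup (US ι)) → Prop}
    (hal : ∀ i, Al R (BB C i)) (sep : ∀ i l m, i ≠ l → i ≠ m → l ≠ m →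
      (∃ p, i ∈ C p ∧ l ∉ C p) ∨ ∃ p, i ∈ C p ∧ m ∉ C p)
    (hR : ∀ s, R s → ∀ j, Lag (s j)) (i : J) (n : ℕ) : ∀ {s : J → AddSubgroup (US ι)}, R s →
    (∀ j, ∃ k, Nat.card ↥(s j ⊓ WW ι) = 4 ^ k) → Nat.card ↥(s i ⊓ WW ι) ≤ n →
    ∃ s', R s' ∧ (∀ j, ∃ k, Nat.card ↥(s' j ⊓ WW ι) = 4 ^ k) ∧ s' i ⊓ WW ι = ⊥ ∧
      ∀ j, s j ⊓ WW ι = ⊥ → s' j ⊓ WW ι = ⊥ := by
  induction n with
  | zero =>
    intro s hs hev h
    obtain ⟨k, hk⟩ := hev i
    rw [hk] at h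
    exact absurd h (pow_pos (by norm_num) k).not_ge
  | succ n ih =>
    intro s hs hev h
    by_cases hi : s i ⊓ WW ι = ⊥
    · exact ⟨s, hs, hev, hi, fun _ h => h⟩
    · obtain ⟨s', h1, h2, h3, h4⟩ := red_step hal sep hR hs hev hi
      obtain ⟨s'', g1, g2, g3, g4⟩ := ih h1 h2 (by omega)
      exact ⟨s'', g1, g2, g3, fun j hj => g4 j (h4 j hj)⟩

theorem alg [Finite J] (hι : 3 ≤ Fintype.card ι) (C : Pt → Set J)
    (one : ∀ i, ∃ p, i ∈ C p) (sep : ∀ i l m, i ≠ l → i ≠ m → l ≠ m →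
      (∃ p, i ∈ C p ∧ l ∉ C p) ∨ ∃ p, i ∈ C p ∧ m ∉ C p)
    (R : (J → AddSubgroup (US ι)) → Prop) (hR : ∀ s, R s → ∀ j, Lag (s j))
    (step : ∀ s, R s → ∀ p a b, qf a = 1 → qf b = 1 →
      R fun j => if j ∈ C p then ((s j).map (rho a)).map (rho b) else s j)
    (s : J → AddSubgroup (US ι)) (hs : R s) (hev : ∀ j, ∃ k, Nat.card ↥(s j ⊓ WW ι) = 4 ^ k) :
    ∃ s, R s ∧ ∀ j, s j ⊓ WW ι = ⊥ := by
  have hal : ∀ i, Al R (BB C i) := al_all hι (fun p s hs a b ha hb => step s hs p a b ha hb) one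
  have key : ∀ F : Finset J, ∃ s, R s ∧ (∀ j, ∃ k, Nat.card ↥(s j ⊓ WW ι) = 4 ^ k) ∧
      ∀ j ∈ F, s j ⊓ WW ι = ⊥ := by
    intro F
    induction F using Finset.induction_on with
    | empty => exact ⟨s, hs, hev, fun j hj => absurd hj (Finset.notMem_empty j)⟩
    | insert i F _ ih =>
      obtain ⟨s1, h1, h2, h3⟩ := ih
      obtain ⟨s2, g1, g2, g3, g4⟩ := red_elt hal sep hR i _ h1 h2 le_rfl
      refine ⟨s2, g1, g2, fun j hj => ?_⟩
      rcases Finset.mem_insert.1 hj with rfl | hj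
      · exact g3
      · exact g4 j (h3 j hj)
  have := Fintype.ofFinite J
  obtain ⟨s', h1, -, h3⟩ := key Finset.univ
  exact ⟨s', h1, fun j => h3 j (Finset.mem_univ j)⟩

end H36MQ
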