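import Pool.Agent.H38.MR.Hc
import Pool.Agent.H88.OD.Fe

/-!
MP_78d38b_MQ (helper36): infinite groups of simultaneous twists.
-/

set_option autoImplicit false
set_option linter.unusedSectionVars false
open scoped Classical

open WithZero NumberField IsDedekindDomain H38RT WeierstrassCurve
open H38T1 (SC sc)
open H88PL (Ev)
open H30ZO (Tv)
open H38MR (Nr)

namespace H36MQ

/-- Dependent choice along finite initial segments. -/
theorem exists_tower {α : Type} (P : ℕ → (ℕ → α) → Prop)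
    (hc : ∀ n g g', (∀ i, i < n → g i = g' i) → P n g → P n g') (h0 : ∃ g, P 0 g)
    (hs : ∀ n g, P n g → ∃ x, P (n + 1) (Function.update g n x)) :
    ∃ e : ℕ → α, ∀ n, P n e := by
  obtain ⟨g0, hg0⟩ := h0
  have h1 : ∀ n, ∃ F : {g : ℕ → α // P n g} → α, ∀ g, P (n + 1) (Function.update g.1 n (F g)) := by
    intro n
    choose F hF using fun g : {g : ℕ → α // P n g} => hs n g.1 g.2
    exact ⟨F, hF⟩
  choose F hF using h1
  let st : (n : ℕ) → {g : ℕ → α // P n g} := fun n =>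
    Nat.rec (motive := fun n => {g : ℕ → α // P n g}) ⟨g0, hg0⟩
      (fun n g => ⟨Function.update g.1 n (F n g), hF n g⟩) n
  have hst : ∀ n, (st (n + 1)).1 = Function.update (st n).1 n (F n (st n)) := fun n => rfl
  have hstab : ∀ i k, (st (i + 1 + k)).1 i = (st (i + 1)).1 i := by
    intro i k
    induction k with
    | zero => rfl
    | succ k ih =>
      have e : i + 1 + (k + 1) = (i + 1 + k) + 1 := by omega
      rw [e, hst, Function.update_of_ne (by omega), ih]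
  refine ⟨fun i => (st (i + 1)).1 i, fun n => hc n (st n).1 _ (fun i hi => ?_) (st n).2⟩
  obtain ⟨k, rfl⟩ : ∃ k, n = i + 1 + k := ⟨n - (i + 1), by omega⟩
  exact hstab i k

variable {K : Type} [Field K] [NumberField K]

theorem nr_one_mul {S : Finset (HeightOneSpectrum (𝓞 K))} {D0 D x : K} (hD0 : D0 ≠ 0)
    (h1 : Nr S D0 D) (h : Nr S 1 x) : Nr S D0 (D * x) := by
  have e : D * x / D0 = D / D0 * (x / 1) := by
    field_simp
  refine ⟨mul_ne_zero h1.1 h.1, fun v hv => ?_, fun s => ?_⟩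
  · rw [e, map_mul]
    exact (h1.2.1 v hv).mul (h.2.1 v hv)
  · rw [e, map_mul]
    exact mul_pos (h1.2.2 s) (h.2.2 s)

theorem nr_prod {S : Finset (HeightOneSpectrum (𝓞 K))} {D0 D : K} (hD0 : D0 ≠ 0)
    (h1 : Nr S D0 D) {e : ℕ → K} (I : Finset ℕ) (h : ∀ i ∈ I, Nr S 1 (e i)) :
    Nr S D0 (D * ∏ i ∈ I, e i) := by
  induction I using Finset.induction_on with
  | empty => rwa [Finset.prod_empty, mul_one]
  | insert a I ha ih =>
    have e1 : D * ∏ i ∈ insert a I, e i = D * (∏ i ∈ I, e i) * e a := by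
      rw [Finset.prod_insert ha]
      ring
    rw [e1]
    exact nr_one_mul hD0 (ih fun i hi => h i (Finset.mem_insert_of_mem hi))
      (h a (Finset.mem_insert_self a I))

/-- The square classes of a set of products. -/
theorem fin_mulset {Δ Γ : Set K} (hΔ : (sc '' Δ : Set (SC K)).Finite) (h0 : ∀ d ∈ Δ, d ≠ 0)
    (hΓ : (sc '' Γ : Set (SC K)).Finite) (h1 : ∀ d ∈ Γ, d ≠ 0) :
    (sc '' {x | ∃ d ∈ Δ, ∃ g ∈ Γ, x = d * g} : Set (SC K)).Finite := by
  refine (Set.Finite.image2 (fun c c' => c + c') hΔ hΓ).subset ?_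
  rintro _ ⟨x, ⟨d, hd, g, hg, rfl⟩, rfl⟩
  exact ⟨sc d, ⟨d, hd, rfl⟩, sc g, ⟨g, hg, rfl⟩, (H38T1.sc_mul (h0 d hd) (h1 g hg)).symm⟩

/-- **Infinite groups of twists over a given twist.** -/
theorem main_tower {a b : K} (ha : ∀ v : HeightOneSpectrum (𝓞 K), v.valuation K a ≤ 1)
    (hb : ∀ v : HeightOneSpectrum (𝓞 K), v.valuation K b ≤ 1)
    (hir : ∀ t : K, t ^ 3 + a * t + b ≠ 0)
    (hsq : ¬ IsSquare (-(4 * a ^ 3 + 27 * b ^ 2))) {D : K} (hD : D ≠ 0) {Δ : Set K}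
    (hΔ : (sc '' Δ : Set (SC K)).Finite) (h0 : ∀ d ∈ Δ, d ≠ 0)
    (hTD : ∀ d ∈ Δ, Tv K ((d * D) ^ 2 * a) ((d * D) ^ 3 * b))
    (T : ℕ → Finset (HeightOneSpectrum (𝓞 K))) :
    ∃ e : ℕ → K, (∀ n, Nr (T n) 1 (e n)) ∧ ∀ I : Finset ℕ,
      (∀ d ∈ Δ, Tv K ((d * (D * ∏ i ∈ I, e i)) ^ 2 * a) ((d * (D * ∏ i ∈ I, e i)) ^ 3 * b)) ∧
      (IsSquare (∏ i ∈ I, e i) → I = ∅) := by
  have hne : 4 * a ^ 3 + 27 * b ^ 2 ≠ 0 := by
    intro h
    apply hsq
    rw [h, neg_zero]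
    exact ⟨0, (mul_zero 0).symm⟩
  have hN : ∀ x : K, x ≠ 0 → Tv K (x ^ 2 * a) (x ^ 3 * b) → Ev a b (x * 1) := by
    intro x hx h
    refine ⟨0, ?_⟩
    rw [pow_zero, mul_one]
    exact H88OD.selCard_of_Tv ha hb hir hne hsq hx h
  obtain ⟨e, he⟩ := exists_tower (α := K) (fun n g => (∀ i < n, Nr (T i) 1 (g i)) ∧
    ∀ I : Finset ℕ, I ⊆ Finset.range n →
      (∀ d ∈ Δ, Tv K ((d * (D * ∏ i ∈ I, g i)) ^ 2 * a) ((d * (D * ∏ i ∈ I, g i)) ^ 3 * b)) ∧
      (IsSquare (∏ i ∈ I, g i) → I = ∅)) (by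
    rintro n g g' hg ⟨h1, h2⟩
    refine ⟨fun i hi => hg i hi ▸ h1 i hi, fun I hI => ?_⟩
    have e1 : ∏ i ∈ I, g' i = ∏ i ∈ I, g i :=
      Finset.prod_congr rfl fun i hi => (hg i (Finset.mem_range.1 (hI hi))).symm
    rw [e1]
    exact h2 I hI) ⟨fun _ => 1, fun i hi => absurd hi (Nat.not_lt_zero i), fun I hI => by
    have e1 : I = ∅ := Finset.subset_empty.1 hI
    subst e1
    refine ⟨fun d hd => ?_, fun _ => rfl⟩
    rw [Finset.prod_empty, mul_one]
    exact hTD d hd⟩ (by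
    rintro n g ⟨h1, h2⟩
    have hg0 : ∀ I : Finset ℕ, I ⊆ Finset.range n → ∏ i ∈ I, g i ≠ 0 := fun I hI =>
      Finset.prod_ne_zero_iff.2 fun i hi => (h1 i (Finset.mem_range.1 (hI hi))).1
    obtain ⟨Γ, hΓ⟩ : ∃ Γ : Set K, Γ = {x | ∃ I ⊆ Finset.range n, x = D * ∏ i ∈ I, g i} := ⟨_, rfl⟩
    have hΓf : Γ.Finite := by
      refine (((Finset.range n).powerset.finite_toSet).image
        fun I => D * ∏ i ∈ I, g i).subset ?_
      rw [hΓ]
      rintro x ⟨I, hI, rfl⟩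
      exact ⟨I, Finset.mem_coe.2 (Finset.mem_powerset.2 hI), rfl⟩
    have hΓ0 : ∀ x ∈ Γ, x ≠ 0 := by
      rw [hΓ]
      rintro x ⟨I, hI, rfl⟩
      exact mul_ne_zero hD (hg0 I hI)
    obtain ⟨Δ', hΔ'⟩ : ∃ Δ' : Set K, Δ' = {x | ∃ d ∈ Δ, ∃ g ∈ Γ, x = d * g} := ⟨_, rfl⟩
    have h3 : (sc '' Δ' : Set (SC K)).Finite := hΔ' ▸ fin_mulset hΔ h0 (hΓf.image sc) hΓ0
    have h4 : ∀ x ∈ Δ', x ≠ 0 := by
      rw [hΔ']
      rintro x ⟨d, hd, y, hy, rfl⟩
      exact mul_ne_zero (h0 d hd) (hΓ0 y hy)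
    have h5 : ∀ x ∈ Δ', Ev a b (x * 1) := by
      intro x hx
      refine hN x (h4 x hx) ?_
      rw [hΔ', hΓ] at hx
      obtain ⟨d, hd, y, ⟨I, hI, rfl⟩, rfl⟩ := hx
      exact (h2 I hI).1 d hd
    obtain ⟨f, hf, hinj⟩ := (H38MR.main_mq ha hb hir hsq one_ne_zero h3 h4).2 h5 (T n)
    have hfi : Function.Injective fun m => sc (f m) := by
      intro m m' h
      apply hinj
      replace h : sc (f m) = sc (f m') := h
      rw [← H38T1.sc_eq_zero (mul_ne_zero (hf m).1.1 (hf m').1.1),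
        H38T1.sc_mul (hf m).1.1 (hf m').1.1, h, ← two_nsmul, H38T1.SC.two_smul]
    obtain ⟨c, ⟨m, rfl⟩, hm⟩ := (Set.infinite_range_of_injective hfi).exists_notMem_finset
      ((Finset.range n).powerset.image fun I => sc (∏ i ∈ I, g i))
    refine ⟨f m, fun i hi => ?_, fun I hI => ?_⟩
    · rcases Nat.lt_succ_iff_lt_or_eq.1 hi with h | rfl
      · rw [Function.update_of_ne h.ne]
        exact h1 i h
      · rw [Function.update_self]
        exact (hf m).1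
    · by_cases hn : n ∈ I
      · obtain ⟨I', hI', e1⟩ : ∃ I' ⊆ Finset.range n, ∏ i ∈ I, Function.update g n (f m) i =
            (∏ i ∈ I', g i) * f m := by
          refine ⟨I.erase n, fun i hi => ?_, ?_⟩
          · obtain ⟨h6, h7⟩ := Finset.mem_erase.1 hi
            have h8 := Finset.mem_range.1 (hI h7)
            exact Finset.mem_range.2 (by omega)
          · rw [← Finset.prod_erase_mul I _ hn, Function.update_self]
            congr 1
            refine Finset.prod_congr rfl fun i hi => ?_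
            rw [Function.update_of_ne (Finset.mem_erase.1 hi).1]
        rw [e1]
        refine ⟨fun d hd => ?_, fun hsq' => ?_⟩
        · have h6 := (hf m).2 (d * (D * ∏ i ∈ I', g i)) (by
            rw [hΔ', hΓ]
            exact ⟨d, hd, _, ⟨I', hI', rfl⟩, rfl⟩)
          have e2 : d * (D * ((∏ i ∈ I', g i) * f m)) = d * (D * ∏ i ∈ I', g i) * f m := by ring
          rw [e2]
          exact h6
        · exfalso
          apply hm
          rw [Finset.mem_image]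
          refine ⟨I', Finset.mem_powerset.2 hI', ?_⟩
          have h6 := (H38T1.sc_eq_zero (mul_ne_zero (hg0 I' hI') (hf m).1.1)).2 hsq'
          rw [H38T1.sc_mul (hg0 I' hI') (hf m).1.1] at h6
          have h7 : sc (f m) + sc (f m) = 0 := by
            rw [← two_nsmul, H38T1.SC.two_smul]
          exact add_right_cancel (h6.trans h7.symm)
      · have hI' : I ⊆ Finset.range n := by
          intro i hi
          have h8 := Finset.mem_range.1 (hI hi)
          have h9 : i ≠ n := fun h => hn (h ▸ hi)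
          exact Finset.mem_range.2 (by omega)
        have e1 : ∏ i ∈ I, Function.update g n (f m) i = ∏ i ∈ I, g i :=
          Finset.prod_congr rfl fun i hi =>
            Function.update_of_ne (fun h : i = n => hn (h ▸ hi)) _ _
        rw [e1]
        exact h2 I hI')
  refine ⟨e, fun n => (he (n + 1)).1 n (Nat.lt_succ_self n), fun I => ?_⟩
  obtain ⟨n, hn⟩ : ∃ n, I ⊆ Finset.range n := by
    refine ⟨I.sup id + 1, fun i hi => Finset.mem_range.2 ?_⟩
    exact Nat.lt_succ_of_le (Finset.le_sup (f := id) hi)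
  exact (he n).2 I hn

/-- **The criterion with infinite groups of twists.** -/
theorem main_tw {a b : K} (ha : ∀ v : HeightOneSpectrum (𝓞 K), v.valuation K a ≤ 1)
    (hb : ∀ v : HeightOneSpectrum (𝓞 K), v.valuation K b ≤ 1)
    (hir : ∀ t : K, t ^ 3 + a * t + b ≠ 0)
    (hsq : ¬ IsSquare (-(4 * a ^ 3 + 27 * b ^ 2))) {D0 : K} (hD0 : D0 ≠ 0) {Δ : Set K}
    (hΔ : (sc '' Δ : Set (SC K)).Finite) (h0 : ∀ d ∈ Δ, d ≠ 0)
    (hev : ∀ d ∈ Δ, Ev a b (d * D0)) (S : Finset (HeightOneSpectrum (𝓞 K))) :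
    ∃ (D : K) (e : ℕ → K), ∀ I : Finset ℕ, Nr S D0 (D * ∏ i ∈ I, e i) ∧
      (∀ d ∈ Δ, Tv K ((d * (D * ∏ i ∈ I, e i)) ^ 2 * a) ((d * (D * ∏ i ∈ I, e i)) ^ 3 * b)) ∧
      (IsSquare (∏ i ∈ I, e i) → I = ∅) := by
  obtain ⟨f, hf, -⟩ := (H38MR.main_mq ha hb hir hsq hD0 hΔ h0).2 hev S
  obtain ⟨e, h1, h2⟩ := main_tower ha hb hir hsq (hf 0).1.1 hΔ h0 (hf 0).2 (fun _ => S)
  exact ⟨f 0, e, fun I => ⟨nr_prod hD0 (hf 0).1 I fun i _ => h1 i, h2 I⟩⟩

end H36MQ
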