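import Pool.Agent.H36.MQ.Ua
import Pool.Agent.H38.MR.Hb

/-!
MP_78d38b_MQ (helper36), infinite towers: the compositum of an admissible and a multiquadratic extension.
-/

set_option autoImplicit false
set_option linter.unusedSectionVars false
open scoped Classical

open WithZero NumberField IsDedekindDomain H38RT WeierstrassCurve Pool.Agent.H10
open H30ZO (Tv)
open H38MR (Dl)

namespace H36MQ

/-- The curve over the compositum, given as an abstract field. -/
theorem pg_comp {K P N C : Type} [Field K] [NumberField K] [Field P] [NumberField P] [Field N]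
    [NumberField N] [Field C] [NumberField C] [Algebra K P] [Algebra K N] [Algebra K C]
    [Algebra P C] [IsScalarTower K P C]
    (hgen : ∀ x : C, x ∈ IntermediateField.adjoin P {s : C | ∃ d ∈ Dl K N, s ^ 2 = algebraMap K C d})
    {a b D : K} (hne : 4 * a ^ 3 + 27 * b ^ 2 ≠ 0) (hD : D ≠ 0)
    (H : ∀ d ∈ Dl K N, Tv P (algebraMap K P ((d * D) ^ 2 * a)) (algebraMap K P ((d * D) ^ 3 * b))) :
    H36MG.PG K (D ^ 2 * a) (D ^ 3 * b) (1 : C) := by
  have hmul := H38MR.mul2K_Dl (K := K) (N := N)
  have e1 : ∀ d : K, d ^ 2 * (D ^ 2 * a) = (d * D) ^ 2 * a := fun d => by ring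
  have e2 : ∀ d : K, d ^ 3 * (D ^ 3 * b) = (d * D) ^ 3 * b := fun d => by ring
  have h3 : 4 * (D ^ 2 * a) ^ 3 + 27 * (D ^ 3 * b) ^ 2 ≠ 0 := by
    have e : 4 * (D ^ 2 * a) ^ 3 + 27 * (D ^ 3 * b) ^ 2 = D ^ 6 * (4 * a ^ 3 + 27 * b ^ 2) := by
      ring
    rw [e]
    exact mul_ne_zero (pow_ne_zero 6 hD) hne
  have hK : H30MQ.GoodK (Dl K N) (D ^ 2 * a) (D ^ 3 * b) P := by
    intro d hd
    have h1 := H d hd
    have h4 : H30MQ.tw K P (D ^ 2 * a) (D ^ 3 * b) d =
        ⟨0, 0, 0, algebraMap K P ((d * D) ^ 2 * a), algebraMap K P ((d * D) ^ 3 * b)⟩ := by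
      unfold H30MQ.tw
      rw [e1, e2]
    rw [h4]
    exact ⟨H14T1.bdd_of_sha2 h1.2.2, h1.1⟩
  have hfd : FiniteDimensional P C := Module.Finite.of_restrictScalars_finite ℚ P C
  obtain ⟨α, hα⟩ := Field.exists_primitive_element P C
  obtain ⟨k', -, h5, hN, hG⟩ := H30MQ.goodI_mem hmul h3
    (H30MQ.goodI_bot (N := P) (F := C) hmul h3 hK) (hgen α)
  have htop : ∀ x : C, x ∈ k' := by
    intro x
    have h6 : IntermediateField.adjoin P {α} ≤ k' := by
      rw [IntermediateField.adjoin_simple_le_iff]
      exact h5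
    rw [hα] at h6
    exact h6 IntermediateField.mem_top
  have _ : IsScalarTower K k' C := IsScalarTower.of_algebraMap_eq fun x => by
    rw [IsScalarTower.algebraMap_apply K P k', ← IsScalarTower.algebraMap_apply P k' C,
      ← IsScalarTower.algebraMap_apply K P C]
  have hGN : H30MQ.GoodK (Dl K N) (D ^ 2 * a) (D ^ 3 * b) C :=
    H30MQ.goodK_triv hmul h3 (M := k') (M' := C) (fun x => ⟨⟨x, htop x⟩, rfl⟩) hG
  have h7 := hGN 1 hmul.one
  have e3 : H30MQ.tw K C (D ^ 2 * a) (D ^ 3 * b) 1 =
      H36MG.twM K (D ^ 2 * a) (D ^ 3 * b) (1 : C) := by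
    unfold H30MQ.tw H36MG.twM
    rw [one_pow, one_pow, one_pow, one_pow, one_mul, one_mul, one_mul, one_mul]
  rw [e3] at h7
  exact h7

section Comp

variable {K L N F : Type} [Field K] [NumberField K] [Field L] [Field N] [NumberField N] [Field F]
  [Algebra K L] [Algebra K N] [Algebra K F] [Algebra L F] [Algebra N F] [IsScalarTower K L F]
  [IsScalarTower K N F]

/-- The compositum is generated over `K` by the two fields. -/
theorem gen_union (hgen : IntermediateField.adjoin L (Set.range (algebraMap N F)) = ⊤) :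
    IntermediateField.adjoin K (Set.range (algebraMap L F) ∪ Set.range (algebraMap N F)) = ⊤ := by
  obtain ⟨G, hG⟩ : ∃ G, G = IntermediateField.adjoin K
    (Set.range (algebraMap L F) ∪ Set.range (algebraMap N F)) := ⟨_, rfl⟩
  rw [← hG, eq_top_iff]
  intro x _
  let G' : IntermediateField L F :=
    { G.toSubfield with
      algebraMap_mem' := fun y => by
        change algebraMap L F y ∈ G
        rw [hG]
        exact IntermediateField.subset_adjoin K _ (Or.inl ⟨y, rfl⟩) }
  have h1 : IntermediateField.adjoin L (Set.range (algebraMap N F)) ≤ G' := by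
    rw [IntermediateField.adjoin_le_iff]
    rintro _ ⟨y, rfl⟩
    change algebraMap N F y ∈ G
    rw [hG]
    exact IntermediateField.subset_adjoin K _ (Or.inr ⟨y, rfl⟩)
  rw [hgen] at h1
  exact h1 (IntermediateField.mem_top (x := x))

/-- A finite layer. -/
theorem exists_layer [IsGalois K L]
    (hgen : IntermediateField.adjoin L (Set.range (algebraMap N F)) = ⊤) (x y : F) :
    ∃ (P : IntermediateField K L) (_ : NumberField P), IsGalois K P ∧
      x ∈ P.map (IsScalarTower.toAlgHom K L F) ⊔ (IsScalarTower.toAlgHom K N F).fieldRange ∧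
      y ∈ P.map (IsScalarTower.toAlgHom K L F) ⊔ (IsScalarTower.toAlgHom K N F).fieldRange := by
  have htop := gen_union (K := K) (L := L) (N := N) (F := F) hgen
  have hx : x ∈ IntermediateField.adjoin K
      (Set.range (algebraMap L F) ∪ Set.range (algebraMap N F)) := by
    rw [htop]
    exact IntermediateField.mem_top
  have hy : y ∈ IntermediateField.adjoin K
      (Set.range (algebraMap L F) ∪ Set.range (algebraMap N F)) := by
    rw [htop]
    exact IntermediateField.mem_top
  obtain ⟨T₁, h1, h2⟩ := IntermediateField.exists_finset_of_mem_adjoin hx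
  obtain ⟨T₂, h3, h4⟩ := IntermediateField.exists_finset_of_mem_adjoin hy
  obtain ⟨Y, hY⟩ : ∃ Y : Set L, Y = (algebraMap L F) ⁻¹' (↑(T₁ ∪ T₂) : Set F) := ⟨_, rfl⟩
  have hYf : Y.Finite := by
    rw [hY]
    exact (Finset.finite_toSet _).preimage (algebraMap L F).injective.injOn
  have hfin : FiniteDimensional K (IntermediateField.adjoin K Y) := by
    have := hYf.to_subtype
    exact IntermediateField.finiteDimensional_adjoin fun x _ => Algebra.IsIntegral.isIntegral x
  have _ : NumberField (IntermediateField.adjoin K Y) := NumberField.of_module_finite K _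
  obtain ⟨P, hP, hPg, hMP, -⟩ := H30CY.exists_big (IntermediateField.adjoin K Y) (∅ : Finset ℕ)
    (fun _ => ⊥) fun v hv => absurd hv (Finset.notMem_empty v)
  have hT : ∀ t ∈ T₁ ∪ T₂, t ∈ P.map (IsScalarTower.toAlgHom K L F) ⊔
      (IsScalarTower.toAlgHom K N F).fieldRange := by
    intro t ht
    have h5 : t ∈ Set.range (algebraMap L F) ∪ Set.range (algebraMap N F) := by
      rcases Finset.mem_union.1 ht with h | h
      · exact h1 h
      · exact h3 h
    rcases h5 with ⟨y, rfl⟩ | ⟨y, rfl⟩
    · refine (le_sup_left : P.map (IsScalarTower.toAlgHom K L F) ≤ _) ⟨y, ?_, rfl⟩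
      refine hMP (IntermediateField.subset_adjoin K Y ?_)
      rw [hY]
      exact ht
    · exact (le_sup_right : (IsScalarTower.toAlgHom K N F).fieldRange ≤ _) ⟨y, rfl⟩
  refine ⟨P, hP, hPg, ?_, ?_⟩
  · have h5 : IntermediateField.adjoin K (T₁ : Set F) ≤ P.map (IsScalarTower.toAlgHom K L F) ⊔
        (IsScalarTower.toAlgHom K N F).fieldRange := by
      rw [IntermediateField.adjoin_le_iff]
      intro t ht
      exact hT t (Finset.mem_union_left _ ht)
    exact h5 h2
  · have h5 : IntermediateField.adjoin K (T₂ : Set F) ≤ P.map (IsScalarTower.toAlgHom K L F) ⊔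
        (IsScalarTower.toAlgHom K N F).fieldRange := by
      rw [IntermediateField.adjoin_le_iff]
      intro t ht
      exact hT t (Finset.mem_union_right _ ht)
    exact h5 h4

/-- **Finiteness over the number fields in the compositum.** -/
theorem fin_comp [IsGalois K L] [IsGalois K N] (h2 : ∀ g : N ≃ₐ[K] N, g * g = 1)
    (hgen : IntermediateField.adjoin L (Set.range (algebraMap N F)) = ⊤)
    {a b D : K} (hne : 4 * a ^ 3 + 27 * b ^ 2 ≠ 0) (hD : D ≠ 0)
    (H : ∀ (M : Type) [Field M] [NumberField M] [Algebra K M] (_ : M →ₐ[K] L), ∀ d ∈ Dl K N,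
      Tv M (algebraMap K M ((d * D) ^ 2 * a)) (algebraMap K M ((d * D) ^ 3 * b)))
    (M : Type) [Field M] [NumberField M] [Algebra K M] [Algebra M F] [IsScalarTower K M F] {m : M}
    (hm : m ≠ 0) (hs : IsSquare (algebraMap M F m)) :
    Finite (⟨0, 0, 0, (m * algebraMap K M D) ^ 2 * algebraMap K M a,
      (m * algebraMap K M D) ^ 3 * algebraMap K M b⟩ : WeierstrassCurve M).toAffine.Point ∧
    H14T1.TwoPartFinite M (⟨0, 0, 0, (m * algebraMap K M D) ^ 2 * algebraMap K M a,
      (m * algebraMap K M D) ^ 3 * algebraMap K M b⟩ : WeierstrassCurve M) := by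
  obtain ⟨r, hr⟩ := hs
  have hfd : FiniteDimensional K M := Module.Finite.of_restrictScalars_finite ℚ K M
  obtain ⟨α, hα⟩ := Field.exists_primitive_element K M
  obtain ⟨P, hP, hPg, hx, hy⟩ := exists_layer (K := K) (L := L) (N := N) (F := F) hgen
    (algebraMap M F α) r
  obtain ⟨C, hC⟩ : ∃ C, C = P.map (IsScalarTower.toAlgHom K L F) ⊔
    (IsScalarTower.toAlgHom K N F).fieldRange := ⟨_, rfl⟩
  rw [← hC] at hx hy
  have hfP : FiniteDimensional K P := Module.Finite.of_restrictScalars_finite ℚ K P
  have hfN : FiniteDimensional K N := Module.Finite.of_restrictScalars_finite ℚ K N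
  have hfC : FiniteDimensional K C := by
    have i1 : FiniteDimensional K (P.map (IsScalarTower.toAlgHom K L F)) :=
      Module.Finite.equiv (P.equivMap (IsScalarTower.toAlgHom K L F)).toLinearEquiv
    have i2 : FiniteDimensional K (IsScalarTower.toAlgHom K N F).fieldRange :=
      Module.Finite.equiv
        (AlgEquiv.ofInjectiveField (IsScalarTower.toAlgHom K N F)).toLinearEquiv
    rw [hC]
    exact IntermediateField.finiteDimensional_sup _ _
  have hNC : NumberField C := NumberField.of_module_finite K C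
  have hGC : IsGalois K C := by
    have i1 : IsGalois K (P.map (IsScalarTower.toAlgHom K L F)) :=
      IsGalois.of_algEquiv (P.equivMap (IsScalarTower.toAlgHom K L F))
    have i2 : IsGalois K (IsScalarTower.toAlgHom K N F).fieldRange :=
      IsGalois.of_algEquiv (AlgEquiv.ofInjectiveField (IsScalarTower.toAlgHom K N F))
    have i3 : Normal K C := by
      rw [hC]
      infer_instance
    exact ⟨⟩
  -- the maps
  have hPC : ∀ x : P, algebraMap L F (x : L) ∈ C := by
    intro x
    rw [hC]
    exact (le_sup_left : P.map (IsScalarTower.toAlgHom K L F) ≤ _) ⟨x, x.2, rfl⟩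
  have hNNC : ∀ x : N, algebraMap N F x ∈ C := by
    intro x
    rw [hC]
    exact (le_sup_right : (IsScalarTower.toAlgHom K N F).fieldRange ≤ _) ⟨x, rfl⟩
  let fP : P →+* C := ((algebraMap L F).comp P.val.toRingHom).codRestrict C.toSubfield hPC
  let _ : Algebra P C := fP.toAlgebra
  have tP : IsScalarTower K P C := IsScalarTower.of_algebraMap_eq fun x => by
    apply Subtype.ext
    change algebraMap K F x = algebraMap L F (algebraMap K L x)
    exact IsScalarTower.algebraMap_apply K L F x
  have hMC : ∀ x : M, algebraMap M F x ∈ C := by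
    intro x
    have h7 : x ∈ IntermediateField.adjoin K {α} := by
      rw [hα]
      exact IntermediateField.mem_top
    have h8 : IntermediateField.adjoin K {α} ≤ C.comap (IsScalarTower.toAlgHom K M F) := by
      rw [IntermediateField.adjoin_simple_le_iff]
      exact hx
    exact h8 h7
  let fM : M →+* C := (algebraMap M F).codRestrict C.toSubfield hMC
  let _ : Algebra M C := fM.toAlgebra
  have tM : IsScalarTower K M C := IsScalarTower.of_algebraMap_eq fun x => by
    apply Subtype.ext
    change algebraMap K F x = algebraMap M F (algebraMap K M x)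
    exact IsScalarTower.algebraMap_apply K M F x
  have hrC : IsSquare (algebraMap M C m) := by
    refine ⟨⟨r, hy⟩, ?_⟩
    apply Subtype.ext
    exact hr
  -- generation
  have hgenC : ∀ x : C, x ∈ IntermediateField.adjoin P
      {s : C | ∃ d ∈ Dl K N, s ^ 2 = algebraMap K C d} := by
    obtain ⟨A, hA⟩ : ∃ A, A = IntermediateField.adjoin P
      {s : C | ∃ d ∈ Dl K N, s ^ 2 = algebraMap K C d} := ⟨_, rfl⟩
    rw [← hA]
    obtain ⟨B, hB⟩ : ∃ B, B = (A.restrictScalars K).map C.val := ⟨_, rfl⟩
    have h1 : C ≤ B := by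
      have h2' : P.map (IsScalarTower.toAlgHom K L F) ⊔
          (IsScalarTower.toAlgHom K N F).fieldRange ≤ B := by
        refine sup_le ?_ ?_
        · rintro _ ⟨y, hy, rfl⟩
          rw [hB]
          exact ⟨algebraMap P C ⟨y, hy⟩, A.algebraMap_mem _, rfl⟩
        · rintro _ ⟨y, rfl⟩
          have h4 : IntermediateField.adjoin K {s : N | ∃ d ∈ Dl K N, s ^ 2 = algebraMap K N d} ≤
              B.comap (IsScalarTower.toAlgHom K N F) := by
            rw [IntermediateField.adjoin_le_iff]
            rintro s ⟨d, hd, hs⟩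
            change algebraMap N F s ∈ B
            rw [hB]
            refine ⟨⟨algebraMap N F s, hNNC s⟩, ?_, rfl⟩
            change (⟨algebraMap N F s, hNNC s⟩ : C) ∈ A
            rw [hA]
            refine IntermediateField.subset_adjoin P _ ⟨d, hd, ?_⟩
            apply Subtype.ext
            change (algebraMap N F s) ^ 2 = algebraMap K F d
            rw [← map_pow, hs, ← IsScalarTower.algebraMap_apply]
          exact h4 (H38MR.gen_Dl h2 y)
      rw [← hC] at h2'
      exact h2'
    intro x
    have h3 := h1 x.2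
    rw [hB] at h3
    obtain ⟨z, hz, hzx⟩ := h3
    have h4 : z = x := Subtype.ext hzx
    rw [← h4]
    exact hz
  have hPG := pg_comp (K := K) (P := P) (N := N) (C := C) hgenC hne hD
    fun d hd => H P P.val d hd
  have h3 : 4 * (D ^ 2 * a) ^ 3 + 27 * (D ^ 3 * b) ^ 2 ≠ 0 := by
    have e : 4 * (D ^ 2 * a) ^ 3 + 27 * (D ^ 3 * b) ^ 2 = D ^ 6 * (4 * a ^ 3 + 27 * b ^ 2) := by
      ring
    rw [e]
    exact mul_ne_zero (pow_ne_zero 6 hD) hne
  have key := H36MG.pg_down h3 hPG M hm hrC
  have e : H36MG.twM K (D ^ 2 * a) (D ^ 3 * b) m =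
      ⟨0, 0, 0, (m * algebraMap K M D) ^ 2 * algebraMap K M a,
        (m * algebraMap K M D) ^ 3 * algebraMap K M b⟩ := by
    unfold H36MG.twM
    rw [map_mul, map_mul, map_pow, map_pow, mul_pow, mul_pow, mul_assoc, mul_assoc]
  rw [e] at key
  exact key

end Comp

end H36MQ
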