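import Pool.Agent.H36.MQ.Ub
import Pool.Agent.H36.MQ.Tx
import Pool.Agent.H38.OD.Nd

/-!
MP_78d38b_MQ (helper36), infinite towers: the compositum of an admissible and a multiquadratic extension
has finitely many points.
-/

set_option autoImplicit false
set_option linter.unusedSectionVars false
open scoped Classical

open WithZero NumberField IsDedekindDomain H38RT WeierstrassCurve Pool.Agent.H10
open H30ZO (Tv Pc)
open H38MR (Dl)
open H76PP (dn)

namespace H36MQ

section Comp

variable {K L N F : Type} [Field K] [NumberField K] [Field L] [Field N] [NumberField N] [Field F]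
  [Algebra K L] [Algebra K N] [Algebra K F] [Algebra L F] [Algebra N F] [IsScalarTower K L F]
  [IsScalarTower K N F]

/-- The minimal polynomials of the elements of a normal extension split in every field which
contains it. -/
theorem splits_in {E Ω : Type} [Field E] [Algebra K E] [Normal K E] [Field Ω] [Algebra K Ω]
    (j : E →+* Ω) (hj : ∀ x : K, j (algebraMap K E x) = algebraMap K Ω x) (y : E) :
    ((minpoly K y).map (algebraMap K Ω)).Splits := by
  have h1 := (Normal.splits (F := K) inferInstance y).map j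
  rw [Polynomial.map_map] at h1
  have h2 : j.comp (algebraMap K E) = algebraMap K Ω := RingHom.ext hj
  rwa [h2] at h1

theorem exists_hom2 [IsGalois K L] [IsGalois K N]
    (hgen : IntermediateField.adjoin L (Set.range (algebraMap N F)) = ⊤)
    (w : HeightOneSpectrum (𝓞 N)) (hs : ∃ i : L →+* (dn K w).adicCompletion K, ∀ x : K,
      i (algebraMap K L x) = algebraMap K ((dn K w).adicCompletion K) x) :
    Nonempty (F →ₐ[K] w.adicCompletion N) := by
  obtain ⟨i, hi⟩ := hs
  apply IntermediateField.nonempty_algHom_of_adjoin_splits (S := Set.range (algebraMap L F) ∪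
    Set.range (algebraMap N F)) ?_ (gen_union (K := K) (L := L) (N := N) (F := F) hgen)
  rintro s (⟨y, rfl⟩ | ⟨y, rfl⟩)
  · have h1 : minpoly K (algebraMap L F y) = minpoly K y :=
      minpoly.algHom_eq (IsScalarTower.toAlgHom K L F) (algebraMap L F).injective y
    refine ⟨(Algebra.IsIntegral.isIntegral (R := K) y).map (IsScalarTower.toAlgHom K L F), ?_⟩
    rw [h1]
    refine splits_in ((H36CY.over_dn w).map.comp i) (fun x => ?_) y
    change (H36CY.over_dn w).map (i (algebraMap K L x)) = _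
    rw [hi, (H36CY.over_dn w).map_algebraMap, ← IsScalarTower.algebraMap_apply]
  · have h1 : minpoly K (algebraMap N F y) = minpoly K y :=
      minpoly.algHom_eq (IsScalarTower.toAlgHom K N F) (algebraMap N F).injective y
    refine ⟨(Algebra.IsIntegral.isIntegral (R := K) y).map (IsScalarTower.toAlgHom K N F), ?_⟩
    rw [h1]
    refine splits_in (algebraMap N (w.adicCompletion N)) (fun x => ?_) y
    rw [← IsScalarTower.algebraMap_apply]

/-- The points of a curve over a field which embeds in a completion. -/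
theorem fin_pts [Algebra.IsAlgebraic K F] {A B : K} (hne : 4 * A ^ 3 + 27 * B ^ 2 ≠ 0)
    (w : HeightOneSpectrum (𝓞 N)) (hA : (dn K w).valuation K A ≤ 1)
    (hB : (dn K w).valuation K B ≤ 1) (j : F →ₐ[K] w.adicCompletion N)
    (hM : ∀ (M : Type) [Field M] [NumberField M] [Algebra K M] [Algebra M F] [IsScalarTower K M F],
      Finite (Pc (algebraMap K M A) (algebraMap K M B))) :
    Finite (Pc (algebraMap K F A) (algebraMap K F B)) := by
  have hval : ∀ x : K, (dn K w).valuation K x ≤ 1 →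
      Valued.v (algebraMap K (w.adicCompletion N) x) ≤ 1 := by
    intro x hx
    rw [IsScalarTower.algebraMap_apply K N (w.adicCompletion N)]
    have h5 := (H36CY.over_dn (K := K) w).valuation_le (x := x) (k := 0) (by
      rw [Nat.cast_zero, neg_zero, exp_zero]
      exact hx)
    rw [Nat.cast_zero, neg_zero, exp_zero] at h5
    have h6 := w.valuedAdicCompletion_eq_valuation' (K := N) (algebraMap K N x)
    change Valued.v (algebraMap N (w.adicCompletion N) (algebraMap K N x)) = _ at h6
    rw [h6]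
    exact h5
  have h5 : 4 * (algebraMap K (w.adicCompletion N) A) ^ 3 +
      27 * (algebraMap K (w.adicCompletion N) B) ^ 2 ≠ 0 := by
    intro h
    apply (map_ne_zero (algebraMap K (w.adicCompletion N))).2 hne
    rw [← h]
    simp only [map_add, map_mul, map_pow, map_ofNat]
  obtain ⟨C, hC⟩ := tors_bdd w (hval _ hA) (hval _ hB) h5
  exact fin_union j hC hM

end Comp

variable {K : Type} [Field K] [NumberField K]

/-- Almost all primes. -/
theorem fin_bad {x : K} (hx : x ≠ 0) :
    {v : HeightOneSpectrum (𝓞 K) | v.valuation K x ≠ 1}.Finite := by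
  refine ((HeightOneSpectrum.Support.finite (𝓞 K) x).union
    (HeightOneSpectrum.Support.finite (𝓞 K) x⁻¹)).subset fun v hv => ?_
  rcases lt_or_gt_of_ne (show v.valuation K x ≠ 1 from hv) with h | h
  · right
    change 1 < v.valuation K x⁻¹
    rw [map_inv₀]
    exact (one_lt_inv₀ (zero_lt_iff.2 ((Valuation.ne_zero_iff _).2 hx))).2 h
  · exact Or.inl h

/-- **The main theorem on towers.** -/
theorem tower_adm {N : Type} [Field N] [NumberField N] [Algebra K N] [IsGalois K N]
    (h2 : ∀ g : N ≃ₐ[K] N, g * g = 1) {A B : 𝓞 K}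
    (hir : ∀ t : K, t ^ 3 + (A : K) * t + (B : K) ≠ 0)
    (hsq : ¬ IsSquare (-(4 * (A : K) ^ 3 + 27 * (B : K) ^ 2))) {D : K} (hD : D ≠ 0)
    (H : ∀ d ∈ Dl K N, Tv K ((d * D) ^ 2 * (A : K)) ((d * D) ^ 3 * (B : K))) :
    ∃ S₀ : Finset (HeightOneSpectrum (𝓞 K)), ∀ S, S₀ ⊆ S → ∀ (L : Type) [Field L] [Algebra K L],
      Adm K L S A B →
      (∀ (M : Type) [Field M] [NumberField M] [Algebra K M] (_ : M →ₐ[K] L), ∀ d ∈ Dl K N,
        Tv M (algebraMap K M ((d * D) ^ 2 * (A : K))) (algebraMap K M ((d * D) ^ 3 * (B : K)))) ∧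
      ∀ (F : Type) [Field F] [Algebra K F] [Algebra L F] [Algebra N F] [IsScalarTower K L F]
        [IsScalarTower K N F], IntermediateField.adjoin L (Set.range (algebraMap N F)) = ⊤ →
        Finite (Pc (algebraMap K F (D ^ 2 * (A : K))) (algebraMap K F (D ^ 3 * (B : K)))) ∧
        ∀ (M : Type) [Field M] [NumberField M] [Algebra K M] [Algebra M F] [IsScalarTower K M F]
          (m : M), m ≠ 0 → IsSquare (algebraMap M F m) →
          Finite (⟨0, 0, 0, (m * algebraMap K M D) ^ 2 * algebraMap K M (A : K),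
            (m * algebraMap K M D) ^ 3 * algebraMap K M (B : K)⟩ :
              WeierstrassCurve M).toAffine.Point ∧
          H14T1.TwoPartFinite M (⟨0, 0, 0, (m * algebraMap K M D) ^ 2 * algebraMap K M (A : K),
            (m * algebraMap K M D) ^ 3 * algebraMap K M (B : K)⟩ : WeierstrassCurve M) := by
  have hne : 4 * (A : K) ^ 3 + 27 * (B : K) ^ 2 ≠ 0 := by
    intro h
    apply hsq
    rw [h, neg_zero]
    exact ⟨0, (mul_zero 0).symm⟩
  obtain ⟨J, _, e, he, -, hrep⟩ := H38MR.exists_rep (H38MR.fin_Dl (K := K) (N := N))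
    (fun d hd => hd.1)
  obtain ⟨v₀, hv₀⟩ := exists_notin (K := K)
    ((HeightOneSpectrum.Support.finite (𝓞 K) (D ^ 2 * (A : K))).union
      (HeightOneSpectrum.Support.finite (𝓞 K) (D ^ 3 * (B : K))))
  have hvA : v₀.valuation K (D ^ 2 * (A : K)) ≤ 1 := not_lt.1 fun h => hv₀ (Or.inl h)
  have hvB : v₀.valuation K (D ^ 3 * (B : K)) ≤ 1 := not_lt.1 fun h => hv₀ (Or.inr h)
  have hfin : ({v : HeightOneSpectrum (𝓞 K) | v.valuation K (2 : K) ≠ 1} ∪
      {v | v.valuation K (4 * (A : K) ^ 3 + 27 * (B : K) ^ 2) ≠ 1} ∪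
      (⋃ j : J, {v | v.valuation K (e j * D) ≠ 1}) ∪ {v₀}).Finite := by
    refine (((fin_bad two_ne_zero).union (fin_bad hne)).union ?_).union (Set.finite_singleton v₀)
    exact Set.finite_iUnion fun j => fin_bad (mul_ne_zero (he j).1 hD)
  obtain ⟨S₀, hS⟩ := hfin.exists_finset_coe
  refine ⟨S₀, fun S hle L _ _ hL => ?_⟩
  have hS' : ∀ v : HeightOneSpectrum (𝓞 K), v ∉ S → v.valuation K (2 : K) = 1 ∧
      v.valuation K (4 * (A : K) ^ 3 + 27 * (B : K) ^ 2) = 1 ∧
      ∀ j : J, v.valuation K (e j * D) = 1 := by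
    intro v hv
    replace hv : v ∉ S₀ := fun h => hv (hle h)
    rw [← Finset.mem_coe, hS] at hv
    simp only [Set.mem_union, Set.mem_iUnion, not_or, not_exists] at hv
    obtain ⟨⟨⟨h3, h4⟩, h5⟩, -⟩ := hv
    exact ⟨not_not.1 h3, not_not.1 h4, fun j => not_not.1 (h5 j)⟩
  have hv₀S : v₀ ∈ S := by
    apply hle
    rw [← Finset.mem_coe, hS]
    exact Or.inr rfl
  have hgal := hL.gal
  have key : ∀ (M : Type) [Field M] [NumberField M] [Algebra K M] (_ : M →ₐ[K] L), ∀ d ∈ Dl K N,
      Tv M (algebraMap K M ((d * D) ^ 2 * (A : K))) (algebraMap K M ((d * D) ^ 3 * (B : K))) := by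
    intro M _ _ _ f d hd
    obtain ⟨j, c, hc⟩ := hrep d hd
    have hj0 := (he j).1
    have hc0 : c ≠ 0 := by
      rintro rfl
      rw [mul_zero] at hc
      exact div_ne_zero hd.1 hj0 hc
    have hdc : d = e j * c ^ 2 := by
      rw [sq, ← hc]
      field_simp
    have h3 := tv_adm hL hir hne (mul_ne_zero hj0 hD)
      (fun v hv => ⟨(hS' v hv).1, (hS' v hv).2.1, (hS' v hv).2.2 j⟩) (H _ (he j)) M f
    have h4 := H38OD.tv_scale (c := algebraMap K M c) ((map_ne_zero _).2 hc0) (by
      rw [← map_ofNat (algebraMap K M) 4, ← map_ofNat (algebraMap K M) 27, ← map_pow, ← map_pow,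
        ← map_mul, ← map_mul, ← map_add]
      refine (map_ne_zero _).2 ?_
      have e : 4 * ((e j * D) ^ 2 * (A : K)) ^ 3 + 27 * ((e j * D) ^ 3 * (B : K)) ^ 2 =
          (e j * D) ^ 6 * (4 * (A : K) ^ 3 + 27 * (B : K) ^ 2) := by ring
      rw [e]
      exact mul_ne_zero (pow_ne_zero 6 (mul_ne_zero hj0 hD)) hne) h3
    have e1 : algebraMap K M ((d * D) ^ 2 * (A : K)) =
        ((algebraMap K M c) ^ 2) ^ 2 * algebraMap K M ((e j * D) ^ 2 * (A : K)) := by
      rw [hdc, ← map_pow, ← map_pow, ← map_mul]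
      congr 1
      ring
    have e2 : algebraMap K M ((d * D) ^ 3 * (B : K)) =
        ((algebraMap K M c) ^ 2) ^ 3 * algebraMap K M ((e j * D) ^ 3 * (B : K)) := by
      rw [hdc, ← map_pow, ← map_pow, ← map_mul]
      congr 1
      ring
    rw [e1, e2]
    exact h4
  refine ⟨key, fun F _ _ _ _ _ _ hgen => ?_⟩
  have hfc : ∀ (M : Type) [Field M] [NumberField M] [Algebra K M] [Algebra M F]
      [IsScalarTower K M F] (m : M), m ≠ 0 → IsSquare (algebraMap M F m) →
      Finite (⟨0, 0, 0, (m * algebraMap K M D) ^ 2 * algebraMap K M (A : K),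
        (m * algebraMap K M D) ^ 3 * algebraMap K M (B : K)⟩ :
          WeierstrassCurve M).toAffine.Point ∧
      H14T1.TwoPartFinite M (⟨0, 0, 0, (m * algebraMap K M D) ^ 2 * algebraMap K M (A : K),
        (m * algebraMap K M D) ^ 3 * algebraMap K M (B : K)⟩ : WeierstrassCurve M) := by
    intro M _ _ _ _ _ m hm hs
    exact fin_comp h2 hgen hne hD key M hm hs
  refine ⟨?_, hfc⟩
  obtain ⟨w, hw⟩ := H76PP.exists_above (K := K) (L := N) v₀
  subst hw
  obtain ⟨j⟩ := exists_hom2 (K := K) (L := L) (N := N) (F := F) hgen w (hL.split _ hv₀S)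
  have hint : Algebra.IsAlgebraic K F := by
    have h1 := gen_union (K := K) (L := L) (N := N) (F := F) hgen
    have h3 : Algebra.IsAlgebraic K (IntermediateField.adjoin K
        (Set.range (algebraMap L F) ∪ Set.range (algebraMap N F))) := by
      apply IntermediateField.isAlgebraic_adjoin
      rintro s (⟨y, rfl⟩ | ⟨y, rfl⟩)
      · exact (Algebra.IsIntegral.isIntegral (R := K) y).map (IsScalarTower.toAlgHom K L F)
      · exact (Algebra.IsIntegral.isIntegral (R := K) y).map (IsScalarTower.toAlgHom K N F)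
    rw [h1] at h3
    exact IntermediateField.topEquiv.isAlgebraic_iff.1 h3
  have h3 : 4 * (D ^ 2 * (A : K)) ^ 3 + 27 * (D ^ 3 * (B : K)) ^ 2 ≠ 0 := by
    have e : 4 * (D ^ 2 * (A : K)) ^ 3 + 27 * (D ^ 3 * (B : K)) ^ 2 =
        D ^ 6 * (4 * (A : K) ^ 3 + 27 * (B : K) ^ 2) := by ring
    rw [e]
    exact mul_ne_zero (pow_ne_zero 6 hD) hne
  refine fin_pts h3 w hvA hvB j ?_
  intro M _ _ _ _ _
  have h6 := (hfc M 1 one_ne_zero (by rw [map_one]; exact ⟨1, (one_mul 1).symm⟩)).1
  have e1 : algebraMap K M (D ^ 2 * (A : K)) =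
      (1 * algebraMap K M D) ^ 2 * algebraMap K M (A : K) := by
    rw [map_mul, map_pow, one_mul]
  have e2 : algebraMap K M (D ^ 3 * (B : K)) =
      (1 * algebraMap K M D) ^ 3 * algebraMap K M (B : K) := by
    rw [map_mul, map_pow, one_mul]
  rw [e1, e2]
  exact h6

end H36MQ
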