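import Pool.Agent.H38.MR.Tc

/-!
MP_78d38b_MQ (helper36), infinite towers: primes modulo which the cubic has no root, with given Legendre
classes (copy of H38MR.exists_three).
-/

set_option autoImplicit false
set_option linter.unusedSectionVars false
open scoped Classical

open WithZero NumberField IsDedekindDomain H38RT
open H38T1 (SC sc scu rep eo la si OddP)
open H76PP (Cub LC ev scm dn)
open H30ZO (nb)
open H88OD H26OD H76GM H36GM H38MR

namespace H36MQ

theorem exists_three_nr {K L : Type} [Field K] [NumberField K] [Field L] [NumberField L]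
    [Algebra K L] {A B : 𝓞 K} {θ : L} (S : H88OD.Ext K K L (A : K) (B : K) θ) (φ : SC K →+ ZMod 2)
    (hφ : φ (sc (-(4 * (A : K) ^ 3 + 27 * (B : K) ^ 2))) = 0) {B₀ : Set (SC K)} (hB : B₀.Finite)
    {A₀ : Set (HeightOneSpectrum (𝓞 K))} (hA₀ : A₀.Finite) :
    ∃ q : HeightOneSpectrum (𝓞 K), q ∉ A₀ ∧ (∀ t : 𝓞 K, t ^ 3 + A * t + B ∉ q.asIdeal) ∧
      ∀ β ∈ B₀, la q β = φ β := by
  have hcub : Cub K L (A : K) (B : K) θ := S.cub
  obtain ⟨N2, _, _, _, r, D⟩ := Tc_N2 hcub S.dsq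
  choose rb hrb0 hrb using (fun c : SC K => H76OD.exists_irep c)
  obtain ⟨β, hβ⟩ : ∃ β : Finset (𝓞 K), β = hB.toFinset.image rb := ⟨_, rfl⟩
  have hβ0 : ∀ d ∈ β, d ≠ 0 := by
    intro d hd
    rw [hβ, Finset.mem_image] at hd
    obtain ⟨c, -, rfl⟩ := hd
    exact hrb0 c
  obtain ⟨E, _, _, _, _, _, _, s, hs⟩ := H76OD.exists_fieldM (K := K) N2
    (β.image (algebraMap (𝓞 K) (𝓞 N2)))
  have hsβ : ∀ d ∈ β, s (algebraMap (𝓞 K) (𝓞 N2) d) ^ 2 = algebraMap K E (d : K) := by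
    intro d hd
    rw [hs _ (Finset.mem_image_of_mem _ hd)]
    exact (IsScalarTower.algebraMap_apply K N2 E (d : K)).symm
  obtain ⟨τ, hτr, hτs⟩ := tau3 D φ hφ β hβ0 s hsβ
  -- the roots in `E`
  have hroot : ∀ j, (algebraMap N2 E (r j)) ^ 3 + algebraMap K E (A : K) * algebraMap N2 E (r j) +
      algebraMap K E (B : K) = 0 := by
    intro j
    have h1 := D.roots (r j)
    have h2 : (r j - r 0) * (r j - r 1) * (r j - r 2) = 0 := by
      fin_cases j <;> simp
    have h3 := congrArg (algebraMap N2 E) (h1.trans h2)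
    simp only [map_add, map_mul, map_pow, map_zero, ← IsScalarTower.algebraMap_apply K N2 E] at h3
    exact h3
  obtain ⟨rE, hrE'⟩ : ∃ rE : Fin 3 → 𝓞 E, ∀ j, (rE j : E) = algebraMap N2 E (r j) :=
    ⟨fun j => ⟨algebraMap N2 E (r j), Tc_root_int (hroot j)⟩, fun j => rfl⟩
  have hrne : ∀ j j', j ≠ j' → rE j - rE j' ≠ 0 := by
    intro j j' hjj h
    have h1 : (rE j : E) - (rE j' : E) = 0 := by
      have h2 := congrArg (fun x : 𝓞 E => (x : E)) h
      exact h2
    rw [hrE', hrE', ← map_sub] at h1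
    have h2 := (map_eq_zero (algebraMap N2 E)).1 h1
    exact hjj (D.inj (sub_eq_zero.1 h2))
  obtain ⟨S₁, hS⟩ : ∃ S₁ : Finset (𝓞 E), S₁ = {(2 : 𝓞 E)} ∪
      (((Finset.univ : Finset (Fin 3 × Fin 3)).filter fun p => p.1 ≠ p.2).image
        fun p => rE p.1 - rE p.2) ∪ β.image (algebraMap (𝓞 K) (𝓞 E)) := ⟨_, rfl⟩
  have hinjK : ∀ d : 𝓞 K, d ≠ 0 → algebraMap (𝓞 K) (𝓞 E) d ≠ 0 := by
    intro d hd h
    apply hd
    apply RingOfIntegers.ext
    have h5 : algebraMap K E (d : K) = 0 := by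
      have h6 := congrArg (fun z : 𝓞 E => (z : E)) h
      exact h6
    exact (map_eq_zero (algebraMap K E)).1 h5
  have hS0 : ∀ x ∈ S₁, x ≠ 0 := by
    intro x hx
    rw [hS] at hx
    simp only [Finset.mem_union, Finset.mem_singleton, Finset.mem_image,
      Finset.mem_filter, Finset.mem_univ, true_and] at hx
    rcases hx with ((rfl | ⟨p, hp, rfl⟩) | ⟨d, hd, rfl⟩)
    · exact two_ne_zero
    · exact hrne _ _ hp
    · exact hinjK d (hβ0 d hd)
  obtain ⟨g, W, hg, hfr, hWA, hWS⟩ := choose_frob τ S₁ hS0 hA₀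
  have h2W : (2 : 𝓞 E) ∉ W.asIdeal := hWS _ (by rw [hS]; simp)
  have hrW : ∀ j j', j ≠ j' → rE j - rE j' ∉ W.asIdeal := by
    intro j j' hjj
    refine hWS _ ?_
    rw [hS]
    simp only [Finset.mem_union, Finset.mem_image, Finset.mem_filter, Finset.mem_univ, true_and]
    exact Or.inl (Or.inr ⟨(j, j'), hjj, rfl⟩)
  have hβW : ∀ d ∈ β, algebraMap (𝓞 K) (𝓞 E) d ∉ W.asIdeal := by
    intro d hd
    refine hWS _ ?_
    rw [hS]
    simp only [Finset.mem_union, Finset.mem_image]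
    exact Or.inr ⟨d, hd, rfl⟩
  have ht3 : ∀ m, τ (τ (τ (algebraMap N2 E (r m)))) = algebraMap N2 E (r m) := by
    intro m
    rw [hτr, hτr, hτr]
    have h : m + 1 + 1 + 1 = m := by
      revert m
      decide
    rw [h]
  have hcase := cases3 hg (x0 := algebraMap N2 E (r 0)) (ht3 0) (by
    rw [hτr]
    intro h
    have h1 := D.inj ((algebraMap N2 E).injective h)
    revert h1
    decide)
  obtain ⟨π, hπ, hgr⟩ : ∃ π : Fin 3 → Fin 3, (∀ j, π j ≠ j) ∧
      ∀ j, g (rE j : E) = (rE (π j) : E) := by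
    rcases hcase with h | h
    · refine ⟨fun j => j + 1, by decide, fun j => ?_⟩
      rw [hrE', hrE', h _ (ht3 j), hτr]
    · refine ⟨fun j => j + 1 + 1, by decide, fun j => ?_⟩
      rw [hrE', hrE', h _ (ht3 j), hτr, hτr]
  have hrootsE : ∀ x : 𝓞 E, x ^ 3 + algebraMap (𝓞 K) (𝓞 E) A * x + algebraMap (𝓞 K) (𝓞 E) B =
      (x - rE 0) * (x - rE 1) * (x - rE 2) := by
    intro x
    apply RingOfIntegers.ext
    change (x : E) ^ 3 + algebraMap K E (A : K) * (x : E) + algebraMap K E (B : K) =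
      ((x : E) - (rE 0 : E)) * ((x : E) - (rE 1 : E)) * ((x : E) - (rE 2 : E))
    rw [hrE', hrE', hrE']
    obtain ⟨hs1, hs2, hs3⟩ := roots_sym D
    have t1 := congrArg (algebraMap N2 E) hs1
    have t2 := congrArg (algebraMap N2 E) hs2
    have t3 := congrArg (algebraMap N2 E) hs3
    simp only [map_add, map_mul, map_neg, map_zero, ← IsScalarTower.algebraMap_apply K N2 E] at t1 t2 t3
    linear_combination (x : E) ^ 2 * t1 - (x : E) * t2 + t3
  have hnr := noroot_q hfr hrootsE hπ hgr hrW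
  refine ⟨dn K W, hWA, hnr, ?_⟩
  intro c hc
  have hF : Pool.Agent.H42.PC.IsFr K E (dn K W) g := ⟨W, ⟨rfl⟩, hfr⟩
  have h2' : (2 : 𝓞 K) ∉ (dn K W).asIdeal := by
    intro h
    apply h2W
    have h5 : algebraMap (𝓞 K) (𝓞 E) 2 ∈ W.asIdeal := h
    rwa [map_ofNat] at h5
  have hd : rb c ∈ β := by
    rw [hβ]
    exact Finset.mem_image_of_mem _ (hB.mem_toFinset.2 hc)
  have h6 := H30MQ.la_of_frob hF h2' (hβW _ hd) (hsβ _ hd) (e := φ (sc (rb c : K)))
    (H30MQ.same_sign hg (hτs _ hd))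
  rwa [hrb] at h6

end H36MQ
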